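import Mathlib
import Pool.Agent.N176.SH.All

set_option autoImplicit false

/-!
# Pairs of exponents, shifted digits, nondegenerate shifts
-/

namespace Pool.Agent.Zk73.LW

open Finset Filter Topology MeasureTheory
open Pool.Agent.N176.SH
open Pool.Agent.H305R2 (roughPart)
open Pool.Agent.N176.OW (cell kap VT)
open Pool.Agent.N176.GP (sum_cells sum_div)

/-- nondegenerate shifts -/
def ND (b A : ℕ) (σ : ℕ → ℤ) : Prop := ∀ p ≥ A, ∀ q > p, ∀ r : ℤ, 0 ≤ r → r < (b : ℤ) ^ (q - p) →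
    r + σ q ≠ (b : ℤ) ^ (q - p) * σ p

lemma not_deg {b A : ℕ} {σ : ℕ → ℤ} (hb : 2 ≤ b) (h : ND b A σ) {t p q n : ℕ} (hp : A ≤ p)
    (hpq : p < q) (hqt : q ≤ t) : ¬ Deg σ b t p q n := by
  intro hd
  have e : t - p = (t - q) + (q - p) := by omega
  have h1 : n / b ^ (t - p) = (n / b ^ (t - q)) / b ^ (q - p) := by
    rw [e, pow_add, Nat.div_div_eq_div_mul]
  have h3 := Nat.mod_lt (n / b ^ (t - q)) (show 0 < b ^ (q - p) by positivity)
  refine h p hp q hpq (((n / b ^ (t - q)) % b ^ (q - p) : ℕ) : ℤ) (Int.natCast_nonneg _)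
    (by exact_mod_cast h3) ?_
  have h2 := Nat.div_add_mod (n / b ^ (t - q)) (b ^ (q - p))
  have h4 : ((n / b ^ (t - q) : ℕ) : ℤ) = (b : ℤ) ^ (q - p) * (((n / b ^ (t - q)) / b ^ (q - p) : ℕ) : ℤ) +
      (((n / b ^ (t - q)) % b ^ (q - p) : ℕ) : ℤ) := by exact_mod_cast h2.symm
  unfold Deg at hd
  rw [h1] at hd
  linarith

/-- the indicator function at the level `p` -/
noncomputable def y (σ : ℕ → ℤ) (p k : ℕ) : ℝ := if (roughPart p (sh σ p k)).Prime then 1 else 0

/-- the indicator function at the level `t` -/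
noncomputable def Y (σ : ℕ → ℤ) (b t p n : ℕ) : ℝ := y σ p (n / b ^ (t - p))

lemma y_nonneg (σ : ℕ → ℤ) (p k : ℕ) : 0 ≤ y σ p k := by unfold y; split_ifs <;> norm_num
lemma y_le (σ : ℕ → ℤ) (p k : ℕ) : y σ p k ≤ 1 := by unfold y; split_ifs <;> norm_num
lemma y_sq (σ : ℕ → ℤ) (p k : ℕ) : y σ p k * y σ p k = y σ p k := by
  unfold y; split_ifs <;> norm_num
lemma Y_nonneg (σ : ℕ → ℤ) (b t p n : ℕ) : 0 ≤ Y σ b t p n := y_nonneg _ _ _
lemma Y_le (σ : ℕ → ℤ) (b t p n : ℕ) : Y σ b t p n ≤ 1 := y_le _ _ _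
lemma Y_sq (σ : ℕ → ℤ) (b t p n : ℕ) : Y σ b t p n * Y σ b t p n = Y σ b t p n := y_sq _ _ _

lemma card_hits (σ : ℕ → ℤ) (T : Finset ℕ) (b t n : ℕ) :
    ((hits σ T b t n).card : ℝ) = ∑ p ∈ T, Y σ b t p n := by
  unfold hits Y y
  rw [Finset.card_filter]
  push_cast
  rfl

/-- sums over cells of functions of the first digits -/
lemma sum_level {b m t p j : ℕ} (hb : 2 ≤ b) (hmp : m ≤ p) (hpt : p ≤ t) (f : ℕ → ℝ) :
    ∑ n ∈ cell b m t j, f (n / b ^ (t - p)) = (b : ℝ) ^ (t - p) * ∑ n ∈ cell b m p j, f n := by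
  unfold cell
  have e : b ^ (t - m) = b ^ (p - m) * b ^ (t - p) := by rw [← pow_add]; congr 1; omega
  rw [e, ← mul_assoc, ← mul_assoc, sum_div _ _ _ (by positivity)
    (Nat.mul_le_mul_right _ (Nat.le_succ j))]
  push_cast
  rfl

/-- sums over cells, by smaller cells -/
lemma sum_split {b m t p j : ℕ} (hmp : m ≤ p) (hpt : p ≤ t) (f : ℕ → ℝ) :
    ∑ n ∈ cell b m t j, f n = ∑ k ∈ cell b m p j, ∑ n ∈ cell b p t k, f n := by
  unfold cell
  have e : b ^ (t - m) = b ^ (p - m) * b ^ (t - p) := by rw [← pow_add]; congr 1; omega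
  rw [e, ← mul_assoc, ← mul_assoc, sum_cells _ _ _ (Nat.mul_le_mul_right _ (Nat.le_succ j))]
  refine Finset.sum_congr rfl fun k _ => ?_
  rw [sum_cells _ _ _ (Nat.le_succ k), Nat.Ico_succ_singleton, Finset.sum_singleton]

lemma mem_cell_div {b p t k n : ℕ} (hb : 2 ≤ b) (hn : n ∈ cell b p t k) : n / b ^ (t - p) = k := by
  unfold cell at hn
  rw [mem_Ico] at hn
  have h0 : 0 < b ^ (t - p) := by positivity
  exact Nat.div_eq_of_lt_le hn.1 hn.2

lemma card_cell {b p t k : ℕ} : ((cell b p t k).card : ℝ) = (b : ℝ) ^ (t - p) := by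
  unfold cell
  rw [Nat.card_Ico, add_mul, one_mul, Nat.add_sub_cancel_left]
  push_cast
  rfl

/-- one exponent -/
theorem one (hSM : S_SM) {b A : ℕ} {σ : ℕ → ℤ} (hOk : Ok b A σ) : ∃ D : ℝ, 0 < D ∧ ∃ P : ℕ,
    ∀ p ≥ P, p.Prime → ∀ m : ℕ, A * m ≤ p - 1 → ∀ t : ℕ, 2 * p ≤ t → ∀ j : ℕ, 1 ≤ j →
    j ≤ b ^ (2 * m) → ∑ n ∈ cell b m t j, Y σ b t p n ≤ D * (Real.log p / p) * (b : ℝ) ^ (t - m) := by
  obtain ⟨D, hD, P, hP⟩ := hSM b A σ hOk
  refine ⟨D, hD, P + 2, fun p hp hpp m hm t ht j hj1 hj2 => ?_⟩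
  have h1 := hP (p - 1) (by omega) {p} (by
    intro q hq
    rw [mem_singleton] at hq
    subst hq
    exact ⟨hpp, by omega, by omega⟩) m hm t (by omega) j hj1 hj2
  have h2 : VT {p} = Real.log p / p := by simp [VT]
  rw [h2] at h1
  refine le_trans (le_of_eq ?_) h1
  refine Finset.sum_congr rfl fun n _ => ?_
  rw [card_hits, Finset.sum_singleton, pow_two, Y_sq]

/-- a bound for the proportion of the degenerate pairs -/
def DG (b A : ℕ) (σ : ℕ → ℤ) (ρ : ℕ → ℝ) : Prop := (∀ d, 0 ≤ ρ d) ∧ ∀ p ≥ A, ∀ q > p, ∀ k : ℕ,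
  (((cell b p q k).filter (fun n => Deg σ b q p q n)).card : ℝ) ≤ ρ (q - p) * (b : ℝ) ^ (q - p)

/-- nondegenerate shifts -/
lemma dg_nd {b A : ℕ} {σ : ℕ → ℤ} (hb : 2 ≤ b) (h : ND b A σ) : DG b A σ (fun _ => 0) := by
  refine ⟨fun _ => le_rfl, fun p hp q hq k => ?_⟩
  rw [zero_mul, Finset.filter_false_of_mem]
  · simp
  · intro n _
    exact not_deg hb h hp hq le_rfl

/-- all shifts -/
lemma dg_all {b A : ℕ} {σ : ℕ → ℤ} (hb : 2 ≤ b) : DG b A σ (fun d => (1 / (b : ℝ)) ^ d) := by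
  have hb0 : (0 : ℝ) < b := by exact_mod_cast (by omega : 0 < b)
  refine ⟨fun d => by positivity, fun p hp q hq k => ?_⟩
  rw [← mul_pow, one_div, inv_mul_cancel₀ hb0.ne', one_pow]
  have h1 : ((cell b p q k).filter (fun n => Deg σ b q p q n)).card ≤ 1 := by
    rw [Finset.card_le_one]
    intro n hn n' hn'
    rw [mem_filter] at hn hn'
    obtain ⟨h2, h3⟩ := hn
    obtain ⟨h4, h5⟩ := hn'
    unfold Deg at h3 h5
    rw [mem_cell_div hb h2, Nat.sub_self, pow_zero, Nat.div_one] at h3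
    rw [mem_cell_div hb h4, Nat.sub_self, pow_zero, Nat.div_one] at h5
    have h6 : (n : ℤ) = n' := by linarith
    exact_mod_cast h6
  exact_mod_cast h1

/-- near exponents -/
theorem near (hE4 : S_E4) (hRB : S_RB) (hSM : S_SM) {b A : ℕ} {σ : ℕ → ℤ} (hOk : Ok b A σ)
    {ρ : ℕ → ℝ} (hρ : DG b A σ ρ) :
    ∃ C d D : ℝ, 0 < C ∧ 0 < d ∧ 0 < D ∧ ∃ P : ℕ, ∀ p ≥ P, p.Prime → ∀ q > p, q ≤ 2 * (p - 1) →
    ∀ m : ℕ, A * m ≤ p - 1 → ∀ t : ℕ, 2 * q ≤ t → ∀ j : ℕ, 1 ≤ j → j ≤ b ^ (2 * m) →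
    ∑ n ∈ cell b m t j, Y σ b t p n * Y σ b t q n ≤
      (C * (Real.log ((p - 1 : ℕ) : ℝ) / ((p - 1 : ℕ) : ℝ)) ^ 2 +
        Real.exp (-(d * ((p - 1 : ℕ) : ℝ))) + D * (Real.log p / p) * ρ (q - p)) *
        (b : ℝ) ^ (t - m) := by
  classical
  obtain ⟨C, hC, P1, h1⟩ := hE4 b A σ hOk
  obtain ⟨d, hd, P2, h2⟩ := hRB b A σ hOk
  obtain ⟨D, hD, P3, h3'⟩ := one hSM hOk
  have hb := hOk.hb
  refine ⟨4 * C ^ 2, d, D, by positivity, hd, hD, P1 + P2 + P3 + A + 100,
    fun p hp hpp q hq hqp m hm t ht j hj1 hj2 => ?_⟩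
  have hA64 := hOk.hA
  have hm64 : 64 * m ≤ p - 1 := (Nat.mul_le_mul_right m hA64).trans hm
  set x : ℕ := p - 1 with hx
  set T : Finset ℕ := {p, q} with hT
  have hTx : ∀ r ∈ T, x < r ∧ r ≤ 2 * x := by
    intro r hr
    rw [hT, mem_insert, mem_singleton] at hr
    rcases hr with rfl | rfl <;> omega
  have hpq : p ≠ q := by omega
  have hcard : T.card = 2 := by rw [hT, Finset.card_pair hpq]
  have hlogx : (T.card : ℝ) ^ 2 ≤ Real.log x := by
    rw [hcard]
    have h3 : Real.exp 4 ≤ x := by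
      have h4 : Real.exp 4 = Real.exp 1 ^ 4 := by rw [← Real.exp_nat_mul]; norm_num
      have h5 : Real.exp 1 < 2.7182818286 := Real.exp_one_lt_d9
      have h6 : Real.exp 1 ^ 4 ≤ 2.7182818286 ^ 4 := pow_le_pow_left₀ (Real.exp_pos _).le h5.le 4
      have h7 : (99 : ℝ) ≤ x := by exact_mod_cast (by omega : 99 ≤ x)
      rw [h4]
      refine h6.trans (le_trans ?_ h7)
      norm_num
    have h4 := Real.log_le_log (Real.exp_pos _) h3
    rw [Real.log_exp] at h4
    norm_num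
    exact h4
  have hA := h1 x (by omega) T hTx m hm t (by omega) j hj1 (1 / 2) (by norm_num) le_rfl T
    (Finset.Subset.refl _) ⟨p, by simp [hT]⟩ hlogx
  have hB := h2 x (by omega) T hTx m hm t (by omega) j hj1 hj2
  set G := (cell b m t j).filter (fun n => ¬ Big σ T b t x n ∧ T ⊆ mhits σ T b t n) with hG
  have hGc : (G.card : ℝ) ≤ 4 * C ^ 2 * (Real.log x / x) ^ 2 * (b : ℝ) ^ (t - m) := by
    have h3 : (G.card : ℝ) * (1 / 4) ≤ ∑ n ∈ G, ∏ p ∈ T, ((1 + 1 / 2 : ℝ) ^ (1 + run σ b t p n) - 1) := by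
      rw [← nsmul_eq_mul, ← Finset.sum_const]
      refine Finset.sum_le_sum fun n _ => ?_
      have h4 : ∀ r : ℕ, (1 / 2 : ℝ) ≤ (1 + 1 / 2 : ℝ) ^ (1 + run σ b t r n) - 1 := by
        intro r
        have h5 : (1 + 1 / 2 : ℝ) ^ 1 ≤ (1 + 1 / 2 : ℝ) ^ (1 + run σ b t r n) :=
          pow_le_pow_right₀ (by norm_num) (by omega)
        linarith
      rw [hT, Finset.prod_pair hpq]
      nlinarith [h4 p, h4 q]
    have h4 := h3.trans hA
    rw [hcard] at h4
    push_cast at h4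
    have h5 : 0 ≤ C ^ 2 * (Real.log x / x) ^ 2 * (b : ℝ) ^ (t - m) := by positivity
    nlinarith
  obtain ⟨g, hg⟩ : ∃ g : ℕ → ℝ, ∀ n, g n = if Deg σ b q p q n then 1 else 0 := ⟨_, fun _ => rfl⟩
  have hpt : ∀ n ∈ cell b m t j, Y σ b t p n * Y σ b t q n ≤
      (if ¬ Big σ T b t x n ∧ T ⊆ mhits σ T b t n then (1 : ℝ) else 0) +
      (if Big σ T b t x n then (1 : ℝ) else 0) +
      y σ p ((n / b ^ (t - q)) / b ^ (q - p)) * g (n / b ^ (t - q)) := by
    intro n _
    have e0 : (n / b ^ (t - q)) / b ^ (q - p) = n / b ^ (t - p) := by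
      rw [Nat.div_div_eq_div_mul, ← pow_add]
      congr 2
      omega
    have eD : Deg σ b q p q (n / b ^ (t - q)) ↔ Deg σ b t p q n := by
      unfold Deg
      rw [e0, Nat.sub_self, pow_zero, Nat.div_one]
    rw [e0, hg]
    have hY : Y σ b t p n = y σ p (n / b ^ (t - p)) := rfl
    rw [← hY]
    have hn0 := Y_nonneg σ b t p n
    have hYY := mul_le_one₀ (Y_le σ b t p n) (Y_nonneg σ b t q n) (Y_le σ b t q n)
    by_cases hdeg : Deg σ b t p q n
    · rw [if_pos (eD.2 hdeg), mul_one]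
      have h6 : Y σ b t p n * Y σ b t q n ≤ Y σ b t p n := mul_le_of_le_one_right hn0 (Y_le σ b t q n)
      have h7 : (0 : ℝ) ≤ (if ¬ Big σ T b t x n ∧ T ⊆ mhits σ T b t n then (1 : ℝ) else 0) := by
        split_ifs <;> norm_num
      have h8 : (0 : ℝ) ≤ (if Big σ T b t x n then (1 : ℝ) else 0) := by
        split_ifs <;> norm_num
      linarith
    rw [if_neg (fun h => hdeg (eD.1 h)), mul_zero, add_zero]
    by_cases hbig : Big σ T b t x n
    · rw [if_neg (by tauto), if_pos hbig]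
      linarith
    · rw [if_neg hbig]
      by_cases hp1 : (roughPart p (sh σ p (n / b ^ (t - p)))).Prime
      · by_cases hq1 : (roughPart q (sh σ q (n / b ^ (t - q)))).Prime
        · rw [if_pos]
          · linarith
          · refine ⟨hbig, fun r hr => ?_⟩
            unfold mhits
            rw [mem_filter]
            constructor
            · unfold hits
              rw [mem_filter]
              refine ⟨hr, ?_⟩
              rw [hT, mem_insert, mem_singleton] at hr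
              rcases hr with rfl | rfl
              · exact hp1
              · exact hq1
            · intro r' hr' hlt
              have h5 : r' ∈ T := (mem_filter.1 hr').1
              rw [hT, mem_insert, mem_singleton] at h5 hr
              have h6 : r' = p := by
                rcases h5 with h5 | h5
                · exact h5
                · rcases hr with hr | hr <;> omega
              have h7 : r = q := by
                rcases hr with hr | hr
                · omega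
                · exact hr
              rw [h6, h7]
              exact hdeg
        · have h5 : Y σ b t q n = 0 := by unfold Y y; rw [if_neg hq1]
          rw [h5, mul_zero]
          split_ifs <;> norm_num
      · have h5 : Y σ b t p n = 0 := by unfold Y y; rw [if_neg hp1]
        rw [h5, zero_mul]
        split_ifs <;> norm_num
  have hs1 : ∑ n ∈ cell b m t j, y σ p ((n / b ^ (t - q)) / b ^ (q - p)) * g (n / b ^ (t - q)) ≤
      D * (Real.log p / p) * ρ (q - p) * (b : ℝ) ^ (t - m) := by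
    rw [sum_level hb (by omega : m ≤ q) (by omega : q ≤ t)
      (fun n => y σ p (n / b ^ (q - p)) * g n),
      sum_split (by omega : m ≤ p) (by omega : p ≤ q)]
    have h5 : ∀ k ∈ cell b m p j, ∑ n ∈ cell b p q k, y σ p (n / b ^ (q - p)) * g n ≤
        y σ p k * (ρ (q - p) * (b : ℝ) ^ (q - p)) := by
      intro k hk
      have h6 : ∑ n ∈ cell b p q k, y σ p (n / b ^ (q - p)) * g n =
          y σ p k * (((cell b p q k).filter (fun n => Deg σ b q p q n)).card : ℝ) := by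
        rw [Finset.card_filter]
        push_cast
        rw [Finset.mul_sum]
        refine Finset.sum_congr rfl fun n hn => ?_
        rw [← hg n, mem_cell_div hb hn]
      rw [h6]
      exact mul_le_mul_of_nonneg_left (hρ.2 p (by omega) q hq k) (y_nonneg _ _ _)
    refine (mul_le_mul_of_nonneg_left (Finset.sum_le_sum h5) (by positivity)).trans ?_
    rw [← Finset.sum_mul]
    have h8 := h3' p (by omega) hpp m hm t (by omega) j hj1 hj2
    have h10 : ∑ n ∈ cell b m t j, Y σ b t p n = (b : ℝ) ^ (t - p) * ∑ n ∈ cell b m p j, y σ p n :=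
      sum_level hb (by omega : m ≤ p) (by omega : p ≤ t) (y σ p)
    rw [h10] at h8
    have e4 : (b : ℝ) ^ (t - q) * (b : ℝ) ^ (q - p) = (b : ℝ) ^ (t - p) := by
      rw [← pow_add]
      congr 1
      omega
    have hρ0 := hρ.1 (q - p)
    calc (b : ℝ) ^ (t - q) * ((∑ i ∈ cell b m p j, y σ p i) * (ρ (q - p) * (b : ℝ) ^ (q - p)))
        = ρ (q - p) * (((b : ℝ) ^ (t - q) * (b : ℝ) ^ (q - p)) *
            ∑ i ∈ cell b m p j, y σ p i) := by ring
      _ = ρ (q - p) * ((b : ℝ) ^ (t - p) * ∑ i ∈ cell b m p j, y σ p i) := by rw [e4]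
      _ ≤ ρ (q - p) * (D * (Real.log p / p) * (b : ℝ) ^ (t - m)) := mul_le_mul_of_nonneg_left h8 hρ0
      _ = _ := by ring
  calc ∑ n ∈ cell b m t j, Y σ b t p n * Y σ b t q n
      ≤ ∑ n ∈ cell b m t j, ((if ¬ Big σ T b t x n ∧ T ⊆ mhits σ T b t n then (1 : ℝ) else 0) +
        (if Big σ T b t x n then (1 : ℝ) else 0) + y σ p ((n / b ^ (t - q)) / b ^ (q - p)) *
        g (n / b ^ (t - q))) := Finset.sum_le_sum hpt
    _ = G.card + ((cell b m t j).filter (fun n => Big σ T b t x n)).card +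
        ∑ n ∈ cell b m t j, y σ p ((n / b ^ (t - q)) / b ^ (q - p)) * g (n / b ^ (t - q)) := by
        rw [Finset.sum_add_distrib, Finset.sum_add_distrib, ← Finset.sum_filter,
          ← Finset.sum_filter (s := cell b m t j) (fun n => Big σ T b t x n), Finset.sum_const,
          Finset.sum_const, nsmul_eq_mul, nsmul_eq_mul, mul_one, mul_one]
    _ ≤ _ := by
        rw [add_mul, add_mul]
        exact add_le_add (add_le_add hGc hB) hs1

/-- many blocks -/
lemma blocks {Q : ℕ → Prop} [DecidablePred Q] {B s : ℕ} {c : ℝ}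
    (h : ∀ u, s ≤ u → (((Ico u (u + B)).filter Q).card : ℝ) ≤ c) (M : ℕ) :
    (((Ico s (s + M * B)).filter Q).card : ℝ) ≤ M * c := by
  induction M with
  | zero => simp
  | succ M ih =>
    have h1 : Ico s (s + (M + 1) * B) = Ico s (s + M * B) ∪ Ico (s + M * B) (s + M * B + B) := by
      ext n
      simp only [mem_union, mem_Ico]
      have e : (M + 1) * B = M * B + B := by ring
      rw [e]
      generalize M * B = w
      omega
    rw [h1, Finset.filter_union]
    have h2 := Finset.card_union_le ((Ico s (s + M * B)).filter Q)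
      ((Ico (s + M * B) (s + M * B + B)).filter Q)
    have h3 := h (s + M * B) (Nat.le_add_right _ _)
    have h4 : ((((Ico s (s + M * B)).filter Q ∪ (Ico (s + M * B) (s + M * B + B)).filter Q).card : ℕ) : ℝ)
        ≤ (((Ico s (s + M * B)).filter Q).card : ℝ) +
          (((Ico (s + M * B) (s + M * B + B)).filter Q).card : ℝ) := by exact_mod_cast h2
    push_cast
    linarith

end Pool.Agent.Zk73.LW
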