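import Mathlib
import Pool.Agent.Zk73.LW.A

set_option autoImplicit false

/-!
# Pairs of exponents, shifted digits: far exponents
-/

namespace Pool.Agent.Zk73.LW

open Finset Filter Topology MeasureTheory
open Pool.Agent.N176.SH
open Pool.Agent.H305R2 (roughPart)
open Pool.Agent.N176.OW (cell kap VT)
open Pool.Agent.N441.SH (Gd)

open Classical in
/-- few integers in a short interval -/
theorem few {b A : ℕ} {σ : ℕ → ℤ} (hOk : Ok b A σ) : ∃ C : ℝ, 0 < C ∧ ∃ P : ℕ, ∀ q ≥ P,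
    ∀ p : ℕ, 2 * p ≤ q + 1 → ∀ m : ℕ, A * m ≤ p - 1 → ∀ k : ℕ, b ^ (p - m) ≤ k →
    (((cell b p q k).filter (Gd {q} b q (q - 1) σ)).card : ℝ) ≤
      C * (Real.log ((q - 1 : ℕ) : ℝ) / ((q - 1 : ℕ) : ℝ)) * (b : ℝ) ^ (q - p) := by
  have hb := hOk.hb
  obtain ⟨C, hC, hSV'⟩ := Pool.Agent.N136.OW.sv2 Pool.Agent.N75.OW.sg
  obtain ⟨D, hD, hSV⟩ := hSV' C le_rfl
  have hbR : (2 : ℝ) ≤ b := by exact_mod_cast hb
  have hlb : 0 < Real.log b := Real.log_pos (by linarith)
  have h1 : (fun x : ℝ => Real.log x ^ 2) =o[Filter.atTop] fun x : ℝ => x :=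
    Real.isLittleO_pow_log_id_atTop
  have h2 := h1.bound (c := Real.log b / (32 * C)) (by positivity)
  obtain ⟨x1, hx1⟩ := Filter.eventually_atTop.1 ((tendsto_natCast_atTop_atTop (R := ℝ)).eventually h2)
  refine ⟨32 * D * b ^ 2 / Real.log b, by positivity, x1 + b + 100 + A, fun q hq p hpq m hm k hk => ?_⟩
  have hA := hOk.hA
  have hm64 : 64 * m ≤ p - 1 := (Nat.mul_le_mul_right m hA).trans hm
  obtain ⟨x, hx⟩ : ∃ x, x = q - 1 := ⟨_, rfl⟩
  rw [← hx]
  have hxl : 2 * C * Real.log x ^ 2 ≤ x * Real.log b / 16 := by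
    have h3 := hx1 x (by omega)
    rw [Real.norm_eq_abs, Real.norm_eq_abs, abs_of_nonneg (by positivity : 0 ≤ Real.log (x : ℝ) ^ 2),
      abs_of_nonneg (Nat.cast_nonneg (α := ℝ) x)] at h3
    calc 2 * C * Real.log x ^ 2 ≤ 2 * C * (Real.log b / (32 * C) * x) := by gcongr
      _ = x * Real.log b / 16 := by
        field_simp
        ring
  have hlx : (1 : ℝ) ≤ Real.log x := by
    have h3 : Real.exp 1 ≤ x := by
      have h5 : Real.exp 1 < 2.7182818286 := Real.exp_one_lt_d9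
      have h7 : (99 : ℝ) ≤ x := by exact_mod_cast (by omega : 99 ≤ x)
      linarith
    have h4 := Real.log_le_log (Real.exp_pos _) h3
    rwa [Real.log_exp] at h4
  have hbm : (b : ℤ) ^ (q - m) * (b : ℤ) ^ m = (b : ℤ) ^ q := by
    rw [← pow_add]
    congr 1
    omega
  have hb0 : (0 : ℤ) < b := by exact_mod_cast (by omega : 0 < b)
  have hb2 : (2 : ℤ) ≤ b := by exact_mod_cast hb
  have hsz := hOk.size q (by omega)
  have hmA : m ≤ q / A := by
    rw [Nat.le_div_iff_mul_le (by omega)]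
    rw [mul_comm]
    omega
  have h5 : |σ q| * 2 ≤ (b : ℤ) ^ (q - m) := by
    have h6 : |σ q| * ((b : ℤ) ^ m * b) ≤ (b : ℤ) ^ (q - m) * (b : ℤ) ^ m := by
      rw [hbm, ← pow_succ]
      refine le_trans (mul_le_mul_of_nonneg_left ?_ (abs_nonneg _)) hsz
      exact pow_le_pow_right₀ (by linarith) (by omega)
    have h7 : 0 < (b : ℤ) ^ m := by positivity
    have h8 : (|σ q| * b) * (b : ℤ) ^ m ≤ (b : ℤ) ^ (q - m) * (b : ℤ) ^ m := by
      calc (|σ q| * b) * (b : ℤ) ^ m = |σ q| * ((b : ℤ) ^ m * b) := by ring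
        _ ≤ _ := h6
    have h9 := le_of_mul_le_mul_right h8 h7
    refine le_trans ?_ h9
    exact mul_le_mul_of_nonneg_left hb2 (abs_nonneg _)
  have hsub : ∀ u, k * b ^ (q - p) ≤ u →
      (((Ico u (u + b ^ ((q - m) / 8))).filter (Gd {q} b q x σ)).card : ℝ) ≤
      32 * D * b ^ 2 / Real.log b * (Real.log x / x) * (b : ℝ) ^ ((q - m) / 8) := by
    intro u hu
    have h := Pool.Agent.N441.SH.sub hb hC hD hSV (x := x) (by omega) hxl (F := {q})
      (by intro r hr; rw [mem_singleton] at hr; subst hr; omega)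
      (by rw [card_singleton]; norm_num; exact hlx) (p1 := q) (mem_singleton_self q)
      (by intro r hr; rw [mem_singleton] at hr; omega) (z := m) (by omega) (o := σ)
      (by
        intro r hr
        rw [mem_singleton] at hr
        subst hr
        constructor
        · have h10 : (b : ℤ) ^ (r - m) ≤ (b : ℤ) ^ r := pow_le_pow_right₀ (by linarith) (by omega)
          have h11 : (b : ℤ) ^ r < (b : ℤ) ^ (r + 1) := pow_lt_pow_right₀ (by linarith) (by omega)
          have := abs_nonneg (σ r)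
          linarith
        · have := neg_abs_le (σ r)
          linarith)
      (by
        intro r hr r' hr' hlt
        rw [mem_singleton] at hr hr'
        omega) (s := u) (by
        refine le_trans ?_ hu
        calc b ^ (q - m) = b ^ (p - m) * b ^ (q - p) := by
              rw [← pow_add]
              congr 1
              omega
          _ ≤ _ := Nat.mul_le_mul_right _ hk)
    rw [card_singleton, pow_one, Nat.cast_one, mul_one] at h
    exact h
  have hbl := blocks hsub (b ^ ((q - p) - (q - m) / 8))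
  have e1 : b ^ ((q - p) - (q - m) / 8) * b ^ ((q - m) / 8) = b ^ (q - p) := by
    rw [← pow_add]
    congr 1
    omega
  rw [e1] at hbl
  have e2 : cell b p q k = Ico (k * b ^ (q - p)) (k * b ^ (q - p) + b ^ (q - p)) := by
    unfold cell
    rw [add_mul, one_mul]
  rw [e2]
  refine hbl.trans (le_of_eq ?_)
  have e3 : ((b ^ ((q - p) - (q - m) / 8) : ℕ) : ℝ) * (b : ℝ) ^ ((q - m) / 8) = (b : ℝ) ^ (q - p) := by
    exact_mod_cast e1
  rw [← e3]
  ring

open Classical in
/-- far exponents -/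
theorem far (hSM : S_SM) (hRB : S_RB) {b A : ℕ} {σ : ℕ → ℤ} (hOk : Ok b A σ) :
    ∃ C d : ℝ, 0 < C ∧ 0 < d ∧ ∃ P : ℕ, ∀ p ≥ P, p.Prime → ∀ q > p, 2 * p ≤ q + 1 → ∀ m : ℕ,
    A * m ≤ p - 1 → ∀ t : ℕ, 2 * q ≤ t → ∀ j : ℕ, 1 ≤ j → j ≤ b ^ (2 * m) →
    ∑ n ∈ cell b m t j, Y σ b t p n * Y σ b t q n ≤
      (C * (Real.log p / p) * (Real.log ((q - 1 : ℕ) : ℝ) / ((q - 1 : ℕ) : ℝ)) +
        Real.exp (-(d * ((q - 1 : ℕ) : ℝ)))) * (b : ℝ) ^ (t - m) := by
  have hb := hOk.hb
  obtain ⟨D, hD, P1, h1⟩ := one hSM hOk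
  obtain ⟨d, hd, P2, h2⟩ := hRB b A σ hOk
  obtain ⟨C, hC, P3, h3⟩ := few hOk
  refine ⟨C * D, d, by positivity, hd, P1 + P2 + P3 + A + 100,
    fun p hp hpp q hq hpq m hm t ht j hj1 hj2 => ?_⟩
  have hA := hOk.hA
  have hm64 : 64 * m ≤ p - 1 := (Nat.mul_le_mul_right m hA).trans hm
  obtain ⟨x, hx⟩ : ∃ x, x = q - 1 := ⟨_, rfl⟩
  rw [← hx]
  have hlogx0 : 0 ≤ Real.log x / x := by
    have : (1 : ℝ) ≤ x := by exact_mod_cast (by omega : 1 ≤ x)
    have := Real.log_nonneg this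
    positivity
  have hB := h2 x (by omega) {q} (by
    intro r hr
    rw [mem_singleton] at hr
    omega) m (by omega) t (by omega) j hj1 hj2
  set g : ℕ → ℝ := fun n => if Gd {q} b q x σ n then (1 : ℝ) else 0 with hg
  have hpt : ∀ n ∈ cell b m t j, Y σ b t p n * Y σ b t q n ≤
      y σ p ((n / b ^ (t - q)) / b ^ (q - p)) * g (n / b ^ (t - q)) +
      (if Big σ {q} b t x n then (1 : ℝ) else 0) := by
    intro n _
    have e0 : (n / b ^ (t - q)) / b ^ (q - p) = n / b ^ (t - p) := by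
      rw [Nat.div_div_eq_div_mul, ← pow_add]
      congr 2
      omega
    rw [e0]
    have hY : Y σ b t p n = y σ p (n / b ^ (t - p)) := rfl
    rw [← hY]
    have hn0 := Y_nonneg σ b t p n
    by_cases hq1 : (roughPart q (sh σ q (n / b ^ (t - q)))).Prime
    · by_cases hbig : Big σ {q} b t x n
      · rw [if_pos hbig]
        have h5 := mul_le_one₀ (Y_le σ b t p n) (Y_nonneg σ b t q n) (Y_le σ b t q n)
        have h6 : 0 ≤ g (n / b ^ (t - q)) := by
          rw [hg]
          dsimp only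
          split_ifs <;> norm_num
        have := mul_nonneg hn0 h6
        linarith
      · rw [if_neg hbig, add_zero]
        refine mul_le_mul_of_nonneg_left ?_ hn0
        rw [hg]
        dsimp only
        rw [if_pos]
        · exact Y_le _ _ _ _ _
        · unfold Pool.Agent.N441.SH.Gd
          intro r hr
          rw [mem_singleton] at hr
          subst hr
          have e3 : ((b : ℤ) ^ (r - r) * ((n / b ^ (t - r) : ℕ) : ℤ) + σ r).toNat =
              sh σ r (n / b ^ (t - r)) := by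
            rw [Nat.sub_self, pow_zero, one_mul]
            rfl
          rw [e3]
          refine ⟨hq1, ?_⟩
          by_contra hcon
          exact hbig ⟨r, mem_singleton_self r, hq1, not_lt.1 hcon⟩
    · have h5 : Y σ b t q n = 0 := by unfold Y y; rw [if_neg hq1]
      rw [h5, mul_zero]
      have h6 : 0 ≤ g (n / b ^ (t - q)) := by
        rw [hg]
        dsimp only
        split_ifs <;> norm_num
      have := mul_nonneg hn0 h6
      split_ifs <;> linarith
  have hs1 : ∑ n ∈ cell b m t j, y σ p ((n / b ^ (t - q)) / b ^ (q - p)) * g (n / b ^ (t - q)) ≤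
      C * D * (Real.log p / p) * (Real.log x / x) * (b : ℝ) ^ (t - m) := by
    rw [sum_level hb (by omega : m ≤ q) (by omega : q ≤ t)
      (fun n => y σ p (n / b ^ (q - p)) * g n),
      sum_split (by omega : m ≤ p) (by omega : p ≤ q)]
    have h5 : ∀ k ∈ cell b m p j, ∑ n ∈ cell b p q k, y σ p (n / b ^ (q - p)) * g n ≤
        y σ p k * (C * (Real.log x / x) * (b : ℝ) ^ (q - p)) := by
      intro k hk
      have h6 : ∑ n ∈ cell b p q k, y σ p (n / b ^ (q - p)) * g n =
          y σ p k * (((cell b p q k).filter (Gd {q} b q x σ)).card : ℝ) := by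
        rw [Finset.card_filter]
        push_cast
        rw [Finset.mul_sum]
        refine Finset.sum_congr rfl fun n hn => ?_
        rw [mem_cell_div hb hn]
      rw [h6]
      refine mul_le_mul_of_nonneg_left ?_ (y_nonneg _ _ _)
      have h7 := h3 q (by omega) p hpq m hm k (by
        unfold cell at hk
        rw [mem_Ico] at hk
        refine le_trans ?_ hk.1
        exact Nat.le_mul_of_pos_left _ hj1)
      rw [← hx] at h7
      exact h7
    refine (mul_le_mul_of_nonneg_left (Finset.sum_le_sum h5) (by positivity)).trans ?_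
    rw [← Finset.sum_mul]
    have h8 := h1 p (by omega) hpp m hm t (by omega) j hj1 hj2
    have h9 := sum_level hb (by omega : m ≤ p) (by omega : p ≤ t) (j := j) (y σ p)
    have h10 : ∑ n ∈ cell b m t j, Y σ b t p n = (b : ℝ) ^ (t - p) * ∑ n ∈ cell b m p j, y σ p n := h9
    rw [h10] at h8
    have e4 : (b : ℝ) ^ (t - q) * (b : ℝ) ^ (q - p) = (b : ℝ) ^ (t - p) := by
      rw [← pow_add]
      congr 1
      omega
    calc (b : ℝ) ^ (t - q) * ((∑ i ∈ cell b m p j, y σ p i) *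
          (C * (Real.log x / x) * (b : ℝ) ^ (q - p)))
        = C * (Real.log x / x) * (((b : ℝ) ^ (t - q) * (b : ℝ) ^ (q - p)) *
            ∑ i ∈ cell b m p j, y σ p i) := by ring
      _ = C * (Real.log x / x) * ((b : ℝ) ^ (t - p) * ∑ i ∈ cell b m p j, y σ p i) := by rw [e4]
      _ ≤ C * (Real.log x / x) * (D * (Real.log p / p) * (b : ℝ) ^ (t - m)) := by gcongr
      _ = _ := by ring
  calc ∑ n ∈ cell b m t j, Y σ b t p n * Y σ b t q n
      ≤ ∑ n ∈ cell b m t j, (y σ p ((n / b ^ (t - q)) / b ^ (q - p)) * g (n / b ^ (t - q)) +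
        (if Big σ {q} b t x n then (1 : ℝ) else 0)) := Finset.sum_le_sum hpt
    _ = ∑ n ∈ cell b m t j, y σ p ((n / b ^ (t - q)) / b ^ (q - p)) * g (n / b ^ (t - q)) +
        ((cell b m t j).filter (fun n => Big σ {q} b t x n)).card := by
        rw [Finset.sum_add_distrib, ← Finset.sum_filter (s := cell b m t j) (fun n => Big σ {q} b t x n),
          Finset.sum_const, nsmul_eq_mul, mul_one]
    _ ≤ _ := by
        rw [add_mul]
        refine add_le_add hs1 hB

/-- the elementary bound -/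
lemma exp_small {d : ℝ} (hd : 0 < d) : ∃ P : ℕ, ∀ x ≥ P,
    Real.exp (-(d * (x : ℝ))) ≤ (Real.log x / x) ^ 2 := by
  have h1 := Real.tendsto_pow_mul_exp_neg_atTop_nhds_zero 2
  have h2 : Tendsto (fun x : ℕ => d * (x : ℝ)) atTop atTop :=
    (tendsto_natCast_atTop_atTop (R := ℝ)).const_mul_atTop hd
  have h3 := (h1.comp h2).eventually (gt_mem_nhds (show (0 : ℝ) < d ^ 2 by positivity))
  obtain ⟨P, hP⟩ := Filter.eventually_atTop.1 h3
  refine ⟨P + 3, fun x hx => ?_⟩
  have h4 := hP x (by omega)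
  simp only [Function.comp] at h4
  have hx0 : (3 : ℝ) ≤ x := by exact_mod_cast (by omega : 3 ≤ x)
  have hlx : (1 : ℝ) ≤ Real.log x := by
    have h5 : Real.exp 1 < 2.7182818286 := Real.exp_one_lt_d9
    have h6 := Real.log_le_log (Real.exp_pos _) (by linarith : Real.exp 1 ≤ x)
    rwa [Real.log_exp] at h6
  have h5 : (x : ℝ) ^ 2 * Real.exp (-(d * x)) ≤ 1 := by
    have : d ^ 2 * ((x : ℝ) ^ 2 * Real.exp (-(d * x))) < d ^ 2 * 1 := by
      calc d ^ 2 * ((x : ℝ) ^ 2 * Real.exp (-(d * x))) = (d * x) ^ 2 * Real.exp (-(d * x)) := by ring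
        _ < d ^ 2 * 1 := by rw [mul_one]; exact h4
    exact (lt_of_mul_lt_mul_left this (by positivity)).le
  rw [div_pow, le_div_iff₀ (by positivity)]
  calc Real.exp (-(d * x)) * (x : ℝ) ^ 2 = (x : ℝ) ^ 2 * Real.exp (-(d * x)) := by ring
    _ ≤ 1 := h5
    _ ≤ Real.log x ^ 2 := one_le_pow₀ hlx

/-- two exponents -/
theorem pair (hE4 : S_E4) (hRB : S_RB) (hSM : S_SM) {b A : ℕ} {σ : ℕ → ℤ} (hOk : Ok b A σ)
    {ρ : ℕ → ℝ} (hρ : DG b A σ ρ) : ∃ C : ℝ, 0 < C ∧ ∃ P : ℕ, ∀ p ≥ P, p.Prime → ∀ q > p, ∀ m : ℕ,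
    A * m ≤ p - 1 → ∀ t : ℕ, 2 * q ≤ t → ∀ j : ℕ, 1 ≤ j → j ≤ b ^ (2 * m) →
    ∑ n ∈ cell b m t j, Y σ b t p n * Y σ b t q n ≤
      C * (Real.log q / q) * (Real.log p / p + ρ (q - p)) * (b : ℝ) ^ (t - m) := by
  obtain ⟨C1, d1, D1, hC1, hd1, hD1, P1, h1⟩ := near hE4 hRB hSM hOk hρ
  obtain ⟨C2, d2, hC2, hd2, P2, h2⟩ := far hSM hRB hOk
  obtain ⟨P3, h3⟩ := exp_small hd1
  obtain ⟨P4, h4⟩ := exp_small hd2
  have key : ∀ q : ℕ, 100 ≤ q → Real.log ((q - 1 : ℕ) : ℝ) / ((q - 1 : ℕ) : ℝ) ≤ 2 * (Real.log q / q) := by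
    intro q hq
    have hq1 : (99 : ℝ) ≤ ((q - 1 : ℕ) : ℝ) := by exact_mod_cast (by omega : 99 ≤ q - 1)
    have hq2 : ((q - 1 : ℕ) : ℝ) = q - 1 := by
      rw [Nat.cast_sub (by omega)]
      norm_num
    rw [hq2] at hq1 ⊢
    rw [div_le_iff₀ (by linarith)]
    have h5 : Real.log ((q : ℝ) - 1) ≤ Real.log q := Real.log_le_log (by linarith) (by linarith)
    have h6 : 0 ≤ Real.log q := Real.log_nonneg (by linarith)
    have h7 : 2 * (Real.log q / q) * ((q : ℝ) - 1) = Real.log q * (2 * (q - 1) / q) := by ring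
    rw [h7]
    have h8 : 1 ≤ 2 * ((q : ℝ) - 1) / q := by
      rw [le_div_iff₀ (by linarith)]
      linarith
    nlinarith
  refine ⟨8 * C1 + 8 + 2 * C2 + 4 + 2 * D1, by positivity, P1 + P2 + P3 + P4 + 200,
    fun p hp hpp q hq m hm t ht j hj1 hj2 => ?_⟩
  have hρ0 := hρ.1 (q - p)
  have hpR : (200 : ℝ) ≤ p := by exact_mod_cast (by omega : 200 ≤ p)
  have hqR : (p : ℝ) < q := by exact_mod_cast hq
  have hbR : 0 ≤ (b : ℝ) ^ (t - m) := by positivity
  have hlp : 0 < Real.log p / p := div_pos (Real.log_pos (by linarith)) (by linarith)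
  have hlq : 0 < Real.log q / q := div_pos (Real.log_pos (by linarith)) (by linarith)
  have hprod : 0 < (Real.log p / p) * (Real.log q / q) := mul_pos hlp hlq
  have hprod2 : 0 ≤ (Real.log q / q) * ρ (q - p) := mul_nonneg hlq.le hρ0
  have kp := key p (by omega)
  have kq := key q (by omega)
  have kp0 : 0 ≤ Real.log ((p - 1 : ℕ) : ℝ) / ((p - 1 : ℕ) : ℝ) := by
    have : (1 : ℝ) ≤ ((p - 1 : ℕ) : ℝ) := by exact_mod_cast (by omega : 1 ≤ p - 1)
    have := Real.log_nonneg this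
    positivity
  have kq0 : 0 ≤ Real.log ((q - 1 : ℕ) : ℝ) / ((q - 1 : ℕ) : ℝ) := by
    have : (1 : ℝ) ≤ ((q - 1 : ℕ) : ℝ) := by exact_mod_cast (by omega : 1 ≤ q - 1)
    have := Real.log_nonneg this
    positivity
  have etot : (8 * C1 + 8 + 2 * C2 + 4 + 2 * D1) * (Real.log q / q) * (Real.log p / p + ρ (q - p)) =
      8 * C1 * ((Real.log p / p) * (Real.log q / q)) + 8 * ((Real.log p / p) * (Real.log q / q)) +
      2 * C2 * ((Real.log p / p) * (Real.log q / q)) + 4 * ((Real.log p / p) * (Real.log q / q)) +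
      2 * D1 * ((Real.log p / p) * (Real.log q / q)) + (8 * C1 + 8 + 2 * C2 + 4) *
      ((Real.log q / q) * ρ (q - p)) + 2 * D1 * ((Real.log q / q) * ρ (q - p)) := by ring
  have z1 : 0 ≤ 8 * C1 * ((Real.log p / p) * (Real.log q / q)) := by positivity
  have z2 : 0 ≤ 2 * C2 * ((Real.log p / p) * (Real.log q / q)) := by positivity
  have z3 : 0 ≤ 2 * D1 * ((Real.log p / p) * (Real.log q / q)) := by positivity
  have z4 : 0 ≤ (8 * C1 + 8 + 2 * C2 + 4) * ((Real.log q / q) * ρ (q - p)) := by positivity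
  have z5 : 0 ≤ 2 * D1 * ((Real.log q / q) * ρ (q - p)) := by positivity
  by_cases hc : q ≤ 2 * (p - 1)
  · have h5 := h1 p (by omega) hpp q hq hc m hm t ht j hj1 hj2
    refine h5.trans ?_
    refine mul_le_mul_of_nonneg_right ?_ hbR
    have h6 := h3 (p - 1) (by omega)
    have h7 : (q : ℝ) ≤ 2 * p := by exact_mod_cast (by omega : q ≤ 2 * p)
    have h8 : Real.log p / p ≤ 2 * (Real.log q / q) := by
      rw [div_le_iff₀ (by linarith)]
      have h9 : Real.log p ≤ Real.log q := Real.log_le_log (by linarith) hqR.le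
      have h10 : 0 ≤ Real.log q := Real.log_nonneg (by linarith)
      have h11 : 2 * (Real.log q / q) * (p : ℝ) = Real.log q * (2 * p / q) := by ring
      rw [h11]
      have h12 : 1 ≤ 2 * (p : ℝ) / q := by
        rw [le_div_iff₀ (by linarith)]
        linarith
      nlinarith
    have h9 : (Real.log ((p - 1 : ℕ) : ℝ) / ((p - 1 : ℕ) : ℝ)) ^ 2 ≤
        8 * ((Real.log p / p) * (Real.log q / q)) := by
      calc (Real.log ((p - 1 : ℕ) : ℝ) / ((p - 1 : ℕ) : ℝ)) ^ 2 ≤ (2 * (Real.log p / p)) ^ 2 :=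
            pow_le_pow_left₀ kp0 kp 2
        _ = 4 * ((Real.log p / p) * (Real.log p / p)) := by ring
        _ ≤ 4 * ((Real.log p / p) * (2 * (Real.log q / q))) := by gcongr
        _ = _ := by ring
    have h10 : C1 * (Real.log ((p - 1 : ℕ) : ℝ) / ((p - 1 : ℕ) : ℝ)) ^ 2 ≤
        C1 * (8 * ((Real.log p / p) * (Real.log q / q))) := mul_le_mul_of_nonneg_left h9 hC1.le
    have h11 : D1 * (Real.log p / p) * ρ (q - p) ≤ 2 * D1 * ((Real.log q / q) * ρ (q - p)) := by
      calc D1 * (Real.log p / p) * ρ (q - p) ≤ D1 * (2 * (Real.log q / q)) * ρ (q - p) := by gcongr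
        _ = _ := by ring
    rw [etot]
    linarith
  · have h5 := h2 p (by omega) hpp q hq (by omega) m hm t ht j hj1 hj2
    refine h5.trans ?_
    refine mul_le_mul_of_nonneg_right ?_ hbR
    have h6 := h4 (q - 1) (by omega)
    have h7 : Real.log q / q ≤ Real.log p / p := by
      refine Real.log_div_self_antitoneOn ?_ ?_ hqR.le
      · show Real.exp 1 ≤ p
        have h5 : Real.exp 1 < 2.7182818286 := Real.exp_one_lt_d9
        linarith
      · show Real.exp 1 ≤ q
        have h5 : Real.exp 1 < 2.7182818286 := Real.exp_one_lt_d9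
        linarith
    have h8 : (Real.log ((q - 1 : ℕ) : ℝ) / ((q - 1 : ℕ) : ℝ)) ^ 2 ≤
        4 * ((Real.log p / p) * (Real.log q / q)) := by
      calc (Real.log ((q - 1 : ℕ) : ℝ) / ((q - 1 : ℕ) : ℝ)) ^ 2 ≤ (2 * (Real.log q / q)) ^ 2 :=
            pow_le_pow_left₀ kq0 kq 2
        _ = 4 * ((Real.log q / q) * (Real.log q / q)) := by ring
        _ ≤ 4 * ((Real.log p / p) * (Real.log q / q)) := by gcongr
    have h9 : C2 * (Real.log p / p) * (Real.log ((q - 1 : ℕ) : ℝ) / ((q - 1 : ℕ) : ℝ)) ≤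
        C2 * (Real.log p / p) * (2 * (Real.log q / q)) := mul_le_mul_of_nonneg_left kq (by positivity)
    rw [etot]
    linarith

end Pool.Agent.Zk73.LW
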