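import Mathlib
import Pool.Agent.Zk73.LW.A2

set_option autoImplicit false

/-!
# Pairs of exponents, shifted digits: one block
-/

namespace Pool.Agent.Zk73.LW

open Finset Filter Topology MeasureTheory
open Pool.Agent.N176.SH
open Pool.Agent.H305R2 (roughPart)
open Pool.Agent.N176.OW (cell kap VT)

/-- the elements of `T` in `(x, y]` -/
def Bt (T : Finset ℕ) (x y : ℕ) : Finset ℕ := T.filter (fun p => x < p ∧ p ≤ y)

lemma Bt_add (T : Finset ℕ) {x y z : ℕ} (h1 : x ≤ y) (h2 : y ≤ z) :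
    Bt T x z = Bt T x y ∪ Bt T y z ∧ Disjoint (Bt T x y) (Bt T y z) := by
  constructor
  · ext p
    simp only [Bt, mem_union, mem_filter]
    constructor
    · rintro ⟨h3, h4, h5⟩
      rcases le_or_gt p y with h6 | h6
      · exact Or.inl ⟨h3, h4, h6⟩
      · exact Or.inr ⟨h3, h6, h5⟩
    · rintro (⟨h3, h4, h5⟩ | ⟨h3, h4, h5⟩)
      · exact ⟨h3, h4, by omega⟩
      · exact ⟨h3, by omega, h5⟩
  · rw [Finset.disjoint_left]
    intro p hp hp'
    simp only [Bt, mem_filter] at hp hp'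
    omega

lemma VT_add (T : Finset ℕ) {x y z : ℕ} (h1 : x ≤ y) (h2 : y ≤ z) :
    VT (Bt T x z) = VT (Bt T x y) + VT (Bt T y z) := by
  obtain ⟨h3, h4⟩ := Bt_add T h1 h2
  unfold VT
  rw [h3, Finset.sum_union h4]

lemma hits_add (σ : ℕ → ℤ) (b t n : ℕ) (T : Finset ℕ) {x y z : ℕ} (h1 : x ≤ y) (h2 : y ≤ z) :
    (hits σ (Bt T x z) b t n).card = (hits σ (Bt T x y) b t n).card + (hits σ (Bt T y z) b t n).card := by
  obtain ⟨h3, h4⟩ := Bt_add T h1 h2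
  unfold hits
  rw [h3, Finset.filter_union, Finset.card_union_of_disjoint (Finset.disjoint_filter_filter h4)]

lemma w_nonneg (p : ℕ) : 0 ≤ Real.log p / p := div_nonneg (Real.log_natCast_nonneg p) (Nat.cast_nonneg p)

lemma VT_nonneg (T : Finset ℕ) : 0 ≤ VT T := Finset.sum_nonneg fun p _ => w_nonneg p

lemma hits_first (σ : ℕ → ℤ) {b z t n : ℕ} {S : Finset ℕ} (hS : ∀ p ∈ S, p ≤ z) (hz : z ≤ t) :
    hits σ S b t n = hits σ S b z (n / b ^ (t - z)) := by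
  unfold hits
  refine Finset.filter_congr fun p hp => ?_
  have h1 := hS p hp
  have e : n / b ^ (t - p) = n / b ^ (t - z) / b ^ (z - p) := by
    rw [Nat.div_div_eq_div_mul, ← pow_add]
    congr 2
    omega
  rw [e]

/-- sums over pairs of exponents -/
lemma pairs_le (σ : ℕ → ℤ) (b t : ℕ) (I : Finset ℕ) {C M η : ℝ} (hC : 0 ≤ C) (hM : 0 ≤ M)
    {ρ : ℕ → ℝ} {S S' : Finset ℕ}
    (h : ∀ p ∈ S, ∀ q ∈ S', p ≠ q → ∑ n ∈ I, Y σ b t p n * Y σ b t q n ≤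
      C * (Real.log q / q) * (Real.log p / p + ρ ((p - q) + (q - p))) * M)
    (hη : ∀ q ∈ S', ∑ p ∈ S.filter (fun p => p ≠ q), ρ ((p - q) + (q - p)) ≤ η) :
    ∑ n ∈ I, ∑ p ∈ S, ∑ q ∈ S'.filter (fun q => p ≠ q), Y σ b t p n * Y σ b t q n ≤
      C * VT S' * (VT S + η) * M := by
  rw [Finset.sum_comm]
  have h1 : ∀ p ∈ S, ∑ n ∈ I, ∑ q ∈ S'.filter (fun q => p ≠ q), Y σ b t p n * Y σ b t q n ≤
      ∑ q ∈ S', (if p ≠ q then
        C * (Real.log q / q) * (Real.log p / p + ρ ((p - q) + (q - p))) * M else 0) := by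
    intro p hp
    rw [Finset.sum_comm, ← Finset.sum_filter]
    refine Finset.sum_le_sum fun q hq => ?_
    rw [mem_filter] at hq
    exact h p hp q hq.1 hq.2
  refine (Finset.sum_le_sum h1).trans ?_
  rw [Finset.sum_comm]
  have h2 : ∀ q ∈ S', ∑ p ∈ S, (if p ≠ q then
        C * (Real.log q / q) * (Real.log p / p + ρ ((p - q) + (q - p))) * M else 0) ≤
      C * (Real.log q / q) * (VT S + η) * M := by
    intro q hq
    rw [← Finset.sum_filter, ← Finset.sum_mul, ← Finset.mul_sum, Finset.sum_add_distrib]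
    refine mul_le_mul_of_nonneg_right ?_ hM
    refine mul_le_mul_of_nonneg_left (add_le_add ?_ (hη q hq)) (mul_nonneg hC (w_nonneg q))
    exact Finset.sum_le_sum_of_subset_of_nonneg (Finset.filter_subset _ _) fun p _ _ => w_nonneg p
  refine (Finset.sum_le_sum h2).trans (le_of_eq ?_)
  rw [← Finset.sum_mul, ← Finset.sum_mul, ← Finset.mul_sum]
  rfl

lemma cross_le (σ : ℕ → ℤ) (b t : ℕ) (I : Finset ℕ) {C M η : ℝ} (hC : 0 ≤ C) (hM : 0 ≤ M)
    {ρ : ℕ → ℝ} {S S' : Finset ℕ} (hd : Disjoint S S')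
    (h : ∀ p ∈ S, ∀ q ∈ S', p ≠ q → ∑ n ∈ I, Y σ b t p n * Y σ b t q n ≤
      C * (Real.log q / q) * (Real.log p / p + ρ ((p - q) + (q - p))) * M)
    (hη : ∀ q ∈ S', ∑ p ∈ S.filter (fun p => p ≠ q), ρ ((p - q) + (q - p)) ≤ η) :
    ∑ n ∈ I, ((hits σ S b t n).card : ℝ) * ((hits σ S' b t n).card : ℝ) ≤
      C * VT S' * (VT S + η) * M := by
  refine le_trans (le_of_eq ?_) (pairs_le σ b t I hC hM h hη)
  refine Finset.sum_congr rfl fun n _ => ?_
  rw [card_hits, card_hits, Finset.sum_mul_sum]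
  refine Finset.sum_congr rfl fun p hp => ?_
  rw [Finset.filter_true_of_mem]
  intro q hq he
  subst he
  exact Finset.disjoint_left.1 hd hp hq

lemma self_le (σ : ℕ → ℤ) (b t : ℕ) (I : Finset ℕ) {C M η : ℝ} (hC : 0 ≤ C) (hM : 0 ≤ M)
    {ρ : ℕ → ℝ} {S : Finset ℕ}
    (h : ∀ p ∈ S, ∀ q ∈ S, p ≠ q → ∑ n ∈ I, Y σ b t p n * Y σ b t q n ≤
      C * (Real.log q / q) * (Real.log p / p + ρ ((p - q) + (q - p))) * M)
    (hη : ∀ q ∈ S, ∑ p ∈ S.filter (fun p => p ≠ q), ρ ((p - q) + (q - p)) ≤ η) :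
    ∑ n ∈ I, (((hits σ S b t n).card : ℝ) ^ 2 - ((hits σ S b t n).card : ℝ)) ≤
      C * VT S * (VT S + η) * M := by
  refine le_trans (le_of_eq ?_) (pairs_le σ b t I hC hM h hη)
  refine Finset.sum_congr rfl fun n _ => ?_
  rw [card_hits, pow_two, Finset.sum_mul_sum, ← Finset.sum_sub_distrib]
  refine Finset.sum_congr rfl fun p hp => ?_
  have h1 := Finset.sum_filter_add_sum_filter_not S (fun q => p ≠ q)
    (fun q => Y σ b t p n * Y σ b t q n)
  have h2 : S.filter (fun q => ¬ p ≠ q) = {p} := by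
    ext q
    simp only [mem_filter, not_not, mem_singleton]
    constructor
    · rintro ⟨_, h3⟩
      exact h3.symm
    · rintro rfl
      exact ⟨hp, rfl⟩
  rw [h2, Finset.sum_singleton, Y_sq] at h1
  linarith

/-- the mean number of exponents in a cell -/
lemma sum_hits_cell (σ : ℕ → ℤ) {b z t k : ℕ} (hb : 2 ≤ b) {B : Finset ℕ}
    (hB : ∀ p ∈ B, z ≤ p ∧ p ≤ t) :
    ∑ n ∈ cell b z t k, ((hits σ B b t n).card : ℝ) = mT σ b z B k * (b : ℝ) ^ (t - z) := by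
  have h0 : ∀ n ∈ cell b z t k, ((hits σ B b t n).card : ℝ) = ∑ p ∈ B, Y σ b t p n :=
    fun n _ => card_hits σ B b t n
  rw [Finset.sum_congr rfl h0, Finset.sum_comm]
  unfold mT
  rw [Finset.sum_mul]
  refine Finset.sum_congr rfl fun p hp => ?_
  obtain ⟨h1, h2⟩ := hB p hp
  have h3 := sum_level hb h1 h2 (j := k) (y σ p)
  have h4 : ∑ n ∈ cell b z t k, Y σ b t p n = (b : ℝ) ^ (t - p) * ∑ n ∈ cell b z p k, y σ p n := h3
  rw [h4]
  have h5 : ∑ n ∈ cell b z p k, y σ p n = (cnt σ b z k p : ℝ) := by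
    unfold cnt cell y
    rw [Finset.card_filter]
    push_cast
    rfl
  rw [h5]
  have hb0 : (0 : ℝ) < b := by exact_mod_cast (by omega : 0 < b)
  have e : (b : ℝ) ^ (t - z) = (b : ℝ) ^ (p - z) * (b : ℝ) ^ (t - p) := by
    rw [← pow_add]
    congr 1
    omega
  rw [e]
  field_simp

/-- products of numbers in `[0, 1]` -/
lemma prod_ge {θ : ℕ → ℝ} (h0 : ∀ p, 0 ≤ θ p) (h1 : ∀ p, θ p ≤ 1) (H : Finset ℕ) :
    1 - ∑ p ∈ H, (1 - θ p) ≤ ∏ p ∈ H, θ p := by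
  classical
  induction H using Finset.induction_on with
  | empty => simp
  | insert a H ha ih =>
    rw [Finset.sum_insert ha, Finset.prod_insert ha]
    have h2 : ∏ p ∈ H, θ p ≤ 1 := Finset.prod_le_one (fun p _ => h0 p) fun p _ => h1 p
    have h3 : 0 ≤ ∏ p ∈ H, θ p := Finset.prod_nonneg fun p _ => h0 p
    have h4 := h0 a
    have h5 := h1 a
    nlinarith

lemma sum_le_card {θ : ℕ → ℝ} (h0 : ∀ p, 0 ≤ θ p) (H : Finset ℕ) :
    ∑ p ∈ H, (1 - θ p) ≤ (H.card : ℝ) := by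
  calc ∑ p ∈ H, (1 - θ p) ≤ ∑ _p ∈ H, (1 : ℝ) := Finset.sum_le_sum fun p _ => by linarith [h0 p]
    _ = H.card := by rw [Finset.sum_const, nsmul_eq_mul, mul_one]

lemma prod_le_sq {θ : ℕ → ℝ} (h0 : ∀ p, 0 ≤ θ p) (h1 : ∀ p, θ p ≤ 1) (H : Finset ℕ) :
    (∏ p ∈ H, θ p) - 1 + ∑ p ∈ H, (1 - θ p) ≤ (H.card : ℝ) ^ 2 - H.card := by
  rcases Nat.lt_or_ge H.card 2 with h3 | h3
  · have : H.card = 0 ∨ H.card = 1 := by omega
    rcases this with h4 | h4
    · rw [Finset.card_eq_zero] at h4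
      subst h4
      norm_num
    · obtain ⟨a, rfl⟩ := Finset.card_eq_one.1 h4
      norm_num
  · have h4 : (2 : ℝ) ≤ H.card := by exact_mod_cast h3
    have h5 := sum_le_card h0 H
    have h6 : ∏ p ∈ H, θ p ≤ 1 := Finset.prod_le_one (fun p _ => h0 p) fun p _ => h1 p
    nlinarith

/-- the product of the weights of the exponents -/
noncomputable def Th (σ : ℕ → ℤ) (θ : ℕ → ℝ) (S : Finset ℕ) (b t n : ℕ) : ℝ :=
  ∏ p ∈ hits σ S b t n, θ p

lemma Th_nonneg {σ : ℕ → ℤ} {θ : ℕ → ℝ} (h0 : ∀ p, 0 ≤ θ p) (S : Finset ℕ) (b t n : ℕ) :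
    0 ≤ Th σ θ S b t n := Finset.prod_nonneg fun p _ => h0 p

lemma Th_le {σ : ℕ → ℤ} {θ : ℕ → ℝ} (h0 : ∀ p, 0 ≤ θ p) (h1 : ∀ p, θ p ≤ 1) (S : Finset ℕ)
    (b t n : ℕ) : Th σ θ S b t n ≤ 1 := Finset.prod_le_one (fun p _ => h0 p) fun p _ => h1 p

lemma Th_add (σ : ℕ → ℤ) (θ : ℕ → ℝ) (b t n : ℕ) (T : Finset ℕ) {x y z : ℕ} (h1 : x ≤ y)
    (h2 : y ≤ z) : Th σ θ (Bt T x z) b t n = Th σ θ (Bt T x y) b t n * Th σ θ (Bt T y z) b t n := by
  obtain ⟨h3, h4⟩ := Bt_add T h1 h2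
  unfold Th hits
  rw [h3, Finset.filter_union, Finset.prod_union (Finset.disjoint_filter_filter h4)]

lemma Th_first (σ : ℕ → ℤ) (θ : ℕ → ℝ) {b z t n : ℕ} {S : Finset ℕ} (hS : ∀ p ∈ S, p ≤ z)
    (hz : z ≤ t) : Th σ θ S b t n = Th σ θ S b z (n / b ^ (t - z)) := by
  unfold Th
  rw [hits_first σ hS hz]

/-- the weighted sum -/
noncomputable def Wt (θ : ℕ → ℝ) (S : Finset ℕ) : ℝ := ∑ p ∈ S, (1 - θ p) * (Real.log p / p)

lemma Wt_nonneg {θ : ℕ → ℝ} (h1 : ∀ p, θ p ≤ 1) (S : Finset ℕ) : 0 ≤ Wt θ S :=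
  Finset.sum_nonneg fun p _ => mul_nonneg (by linarith [h1 p]) (w_nonneg p)

lemma Wt_le {θ : ℕ → ℝ} (h0 : ∀ p, 0 ≤ θ p) (S : Finset ℕ) : Wt θ S ≤ VT S :=
  Finset.sum_le_sum fun p _ => mul_le_of_le_one_left (w_nonneg p) (by linarith [h0 p])

lemma Wt_add (θ : ℕ → ℝ) (T : Finset ℕ) {x y z : ℕ} (h1 : x ≤ y) (h2 : y ≤ z) :
    Wt θ (Bt T x z) = Wt θ (Bt T x y) + Wt θ (Bt T y z) := by
  obtain ⟨h3, h4⟩ := Bt_add T h1 h2
  unfold Wt
  rw [h3, Finset.sum_union h4]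

/-- the pointwise inequality -/
lemma pw {A B H X w c h : ℝ} (hA0 : 0 ≤ A) (hA1 : A ≤ 1) (hB0 : 0 ≤ B) (hB1 : B ≤ 1)
    (hBc : 1 - B ≤ c) (hX0 : 0 ≤ X) (hXh : X ≤ h) (hH0 : 0 ≤ H - 1 + X) (hH1 : H - 1 + X ≤ h ^ 2 - h)
    (hw : 0 ≤ w) :
    |A * B * H - (1 - w) * (A * B) + A * (X - w)| ≤ (h ^ 2 - h) + c * h + w * c := by
  have e : A * B * H - (1 - w) * (A * B) + A * (X - w) =
      A * B * (H - 1 + X) + A * (1 - B) * X - A * (1 - B) * w := by ring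
  rw [e]
  have u1 : 0 ≤ A * B * (H - 1 + X) := by positivity
  have hAB : A * B ≤ 1 := mul_le_one₀ hA1 hB0 hB1
  have u2 : A * B * (H - 1 + X) ≤ h ^ 2 - h := by
    have := mul_le_mul_of_nonneg_right hAB hH0
    linarith
  have s2 : 0 ≤ A * (1 - B) := mul_nonneg hA0 (by linarith)
  have s3 : A * (1 - B) ≤ c := by
    calc A * (1 - B) ≤ 1 * (1 - B) := mul_le_mul_of_nonneg_right hA1 (by linarith)
      _ ≤ c := by linarith
  have hc0 : 0 ≤ c := by linarith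
  have u3 : 0 ≤ A * (1 - B) * X := mul_nonneg s2 hX0
  have u4 : A * (1 - B) * X ≤ c * h := mul_le_mul s3 hXh hX0 hc0
  have u5 : 0 ≤ A * (1 - B) * w := mul_nonneg s2 hw
  have u6 : A * (1 - B) * w ≤ w * c := by
    calc A * (1 - B) * w ≤ c * w := mul_le_mul_of_nonneg_right s3 hw
      _ = w * c := mul_comm _ _
  have v1 : 0 ≤ h ^ 2 - h := hH0.trans hH1
  have v2 : 0 ≤ c * h := u3.trans u4
  have v3 : 0 ≤ w * c := by positivity
  rw [abs_le]
  constructor <;> linarith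

/-- the mean number of exponents in a block, given the first digits -/
theorem mean (hSM : S_SM) (hGC : S_GC) {b A : ℕ} {σ : ℕ → ℤ} (hOk : Ok b A σ) :
    ∃ k1 : ℕ, 1 ≤ k1 ∧ ∀ m : ℕ, ∃ C : ℝ, 0 < C ∧ ∃ P : ℕ,
    ∀ i ≥ P, ∀ T : Finset ℕ, (∀ p ∈ T, p.Prime) → ∀ t : ℕ, 2 ^ (i + 2) ≤ t → ∀ j : ℕ,
    1 ≤ j → j ≤ b ^ (2 * m) → ∀ F : ℕ → ℝ, (∀ k, |F k| ≤ 1) →
    |∑ n ∈ cell b m t j, F (n / b ^ (t - 2 ^ (i + 1 - k1))) *
      (((hits σ (Bt T (2 ^ i) (2 ^ (i + 1))) b t n).card : ℝ) -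
        kap b * VT (Bt T (2 ^ i) (2 ^ (i + 1))))| ≤
      C * (VT (Bt T (2 ^ i) (2 ^ (i + 1))) * (1 / i) + 1 / (i : ℝ) ^ 2) * (b : ℝ) ^ (t - m) := by
  classical
  have hb := hOk.hb
  obtain ⟨k1, hk1, hk1A, K, hK, hGC'⟩ := hGC b A σ hOk
  obtain ⟨D2, hD2, P4, h4⟩ := hSM b A σ hOk
  refine ⟨k1, by omega, fun m => ?_⟩
  obtain ⟨P3, h3⟩ := hGC' (m + 1)
  have hbR : (2 : ℝ) ≤ b := by exact_mod_cast hb
  have hkap : 0 < kap b := by
    unfold kap
    have := Real.log_pos (by linarith : (1 : ℝ) < b)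
    positivity
  have hbm : 0 < (b : ℝ) ^ m := by positivity
  refine ⟨1 + K + (b : ℝ) ^ m * (D2 + kap b), by positivity,
    P3 + P4 + A * m + m + k1 + 10, fun i hi T hT t ht j hj1 hj2 F hF => ?_⟩
  obtain ⟨z, hz⟩ : ∃ z, z = 2 ^ (i + 1 - k1) := ⟨_, rfl⟩
  obtain ⟨V, hV⟩ : ∃ V, V = VT (Bt T (2 ^ i) (2 ^ (i + 1))) := ⟨_, rfl⟩
  rw [← hz, ← hV]
  have hV0 : 0 ≤ V := hV ▸ VT_nonneg _
  have hi2 : i < 2 ^ i := Nat.lt_two_pow_self
  have hz1 : i + 1 - k1 < z := hz ▸ Nat.lt_two_pow_self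
  have hzm : m + 1 ≤ z := by omega
  have hzi : z ≤ 2 ^ i := by
    rw [hz]
    exact Nat.pow_le_pow_right (by norm_num) (by omega)
  have hii : 2 ^ i ≤ 2 ^ (i + 1) := Nat.pow_le_pow_right (by norm_num) (by omega)
  have hi4 : 2 ^ (i + 2) = 2 * 2 ^ (i + 1) := by ring
  have hi3 : 2 ^ (i + 1) = 2 * 2 ^ i := by ring
  have hAz : A * z ≤ 2 ^ i := by
    rw [hz]
    calc A * 2 ^ (i + 1 - k1) ≤ 2 ^ (k1 - 1) * 2 ^ (i + 1 - k1) := Nat.mul_le_mul_right _ hk1A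
      _ = 2 ^ i := by
        rw [← pow_add]
        congr 1
        omega
  have hiR : (0 : ℝ) < i := by exact_mod_cast (by omega : 0 < i)
  set M : ℝ := (b : ℝ) ^ (t - m) with hM
  have hM0 : 0 < M := by positivity
  set w : ℝ := kap b * V with hw
  have hw0 : 0 ≤ w := by positivity
  have hBtm : ∀ x y p, p ∈ Bt T x y → p ∈ T ∧ x < p ∧ p ≤ y := fun x y p hp => by
    unfold Bt at hp
    rw [mem_filter] at hp
    exact hp
  have hBz : ∀ p ∈ Bt T (2 ^ i) (2 ^ (i + 1)), z ≤ p ∧ p ≤ t := fun p hp => by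
    have hp' := hBtm _ _ p hp
    omega
  have hBp : ∀ p ∈ Bt T (2 ^ i) (2 ^ (i + 1)), p.Prime ∧ 2 ^ i < p ∧ p ≤ 2 * 2 ^ i := fun p hp => by
    have hp' := hBtm _ _ p hp
    exact ⟨hT p hp'.1, hp'.2.1, by omega⟩
  have hkr : ∀ k ∈ cell b m z j, b ^ (z - (m + 1)) ≤ k ∧ k < b ^ (z + (m + 1)) := by
    intro k hk
    unfold cell at hk
    rw [mem_Ico] at hk
    constructor
    · calc b ^ (z - (m + 1)) ≤ b ^ (z - m) := Nat.pow_le_pow_right (by omega) (by omega)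
        _ = 1 * b ^ (z - m) := (one_mul _).symm
        _ ≤ j * b ^ (z - m) := Nat.mul_le_mul_right _ hj1
        _ ≤ k := hk.1
    · calc k < (j + 1) * b ^ (z - m) := hk.2
        _ ≤ b ^ (2 * m + 1) * b ^ (z - m) := by
            refine Nat.mul_le_mul_right _ ?_
            have h5 : 1 ≤ b ^ (2 * m) := Nat.one_le_pow _ _ (by omega)
            calc j + 1 ≤ b ^ (2 * m) + b ^ (2 * m) := by omega
              _ = b ^ (2 * m) * 2 := by ring
              _ ≤ b ^ (2 * m) * b := Nat.mul_le_mul_left _ hb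
              _ = b ^ (2 * m + 1) := (pow_succ _ _).symm
        _ = b ^ (z + (m + 1)) := by
            rw [← pow_add]
            congr 1
            omega
  have hmT : ∀ k ∈ cell b m z j, mT σ b z (Bt T (2 ^ i) (2 ^ (i + 1))) k ≤ D2 * V := by
    intro k hk
    obtain ⟨hk1', hk2'⟩ := hkr k hk
    have h5 := h4 (2 ^ i) (by omega) (Bt T (2 ^ i) (2 ^ (i + 1))) hBp z hAz t (by omega) k
      (le_trans (Nat.one_le_pow _ _ (by omega)) hk1')
      (hk2'.le.trans (Nat.pow_le_pow_right (by omega) (by omega)))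
    have h6 := sum_hits_cell σ hb hBz (k := k)
    have h7 : ∑ n ∈ cell b z t k, ((hits σ (Bt T (2 ^ i) (2 ^ (i + 1))) b t n).card : ℝ) ≤
        ∑ n ∈ cell b z t k, ((hits σ (Bt T (2 ^ i) (2 ^ (i + 1))) b t n).card : ℝ) ^ 2 := by
      refine Finset.sum_le_sum fun n _ => ?_
      have h8 : (hits σ (Bt T (2 ^ i) (2 ^ (i + 1))) b t n).card ≤
          (hits σ (Bt T (2 ^ i) (2 ^ (i + 1))) b t n).card ^ 2 := Nat.le_self_pow (by norm_num) _
      exact_mod_cast h8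
    rw [h6] at h7
    have h8 := h7.trans h5
    rw [← hV] at h8
    exact le_of_mul_le_mul_right h8 (by positivity)
  have hmT0 : ∀ k, 0 ≤ mT σ b z (Bt T (2 ^ i) (2 ^ (i + 1))) k := by
    intro k
    unfold mT
    positivity
  set e1 : ℝ := 1 / (i : ℝ) ^ 2 + K * V / i with he1
  have he10 : 0 ≤ e1 := by positivity
  have hbad := h3 i (by omega) (Bt T (2 ^ i) (2 ^ (i + 1))) (fun p hp => by
    obtain ⟨q1, q2, q3⟩ := hBp p hp
    exact ⟨q1, q2, by omega⟩)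
  rw [← hz, ← hV, ← he1] at hbad
  have hsum : ∑ k ∈ cell b m z j, |mT σ b z (Bt T (2 ^ i) (2 ^ (i + 1))) k - w| ≤
      (b : ℝ) ^ (z - m) * e1 + (b : ℝ) ^ z / (i : ℝ) ^ 2 * (D2 * V + w) := by
    have h5 : ∀ k ∈ cell b m z j, |mT σ b z (Bt T (2 ^ i) (2 ^ (i + 1))) k - w| ≤
        e1 + (if e1 < |mT σ b z (Bt T (2 ^ i) (2 ^ (i + 1))) k - w| then D2 * V + w else 0) := by
      intro k hk
      split_ifs with h6
      · have h7 := hmT k hk
        have h8 := hmT0 k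
        have h9 : |mT σ b z (Bt T (2 ^ i) (2 ^ (i + 1))) k - w| ≤ D2 * V + w := by
          rw [abs_le]
          constructor
          · have : 0 ≤ D2 * V := by positivity
            linarith
          · linarith
        linarith
      · linarith [not_lt.1 h6]
    refine (Finset.sum_le_sum h5).trans ?_
    rw [Finset.sum_add_distrib, Finset.sum_const, nsmul_eq_mul, card_cell, ← Finset.sum_filter,
      Finset.sum_const, nsmul_eq_mul]
    refine add_le_add le_rfl (mul_le_mul_of_nonneg_right ?_ (by positivity))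
    refine le_trans ?_ hbad
    have h6 : (cell b m z j).filter (fun k => e1 < |mT σ b z (Bt T (2 ^ i) (2 ^ (i + 1))) k - w|) ⊆
        (Ico (b ^ (z - (m + 1))) (b ^ (z + (m + 1)))).filter
          (fun k => e1 < |mT σ b z (Bt T (2 ^ i) (2 ^ (i + 1))) k - w|) := by
      intro k hk
      rw [mem_filter] at hk ⊢
      refine ⟨?_, hk.2⟩
      rw [mem_Ico]
      exact hkr k hk.1
    exact_mod_cast Finset.card_le_card h6
  have hmain : |∑ n ∈ cell b m t j, F (n / b ^ (t - z)) *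
      (((hits σ (Bt T (2 ^ i) (2 ^ (i + 1))) b t n).card : ℝ) - w)| ≤
      (e1 + (b : ℝ) ^ m / (i : ℝ) ^ 2 * (D2 * V + w)) * M := by
    rw [sum_split (by omega : m ≤ z) (by omega : z ≤ t)]
    have h5 : ∀ k ∈ cell b m z j, ∑ n ∈ cell b z t k, F (n / b ^ (t - z)) *
        (((hits σ (Bt T (2 ^ i) (2 ^ (i + 1))) b t n).card : ℝ) - w) =
        F k * ((mT σ b z (Bt T (2 ^ i) (2 ^ (i + 1))) k - w) * (b : ℝ) ^ (t - z)) := by
      intro k hk
      have h6 : ∀ n ∈ cell b z t k, F (n / b ^ (t - z)) *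
          (((hits σ (Bt T (2 ^ i) (2 ^ (i + 1))) b t n).card : ℝ) - w) =
          F k * (((hits σ (Bt T (2 ^ i) (2 ^ (i + 1))) b t n).card : ℝ) - w) := by
        intro n hn
        rw [mem_cell_div hb hn]
      rw [Finset.sum_congr rfl h6, ← Finset.mul_sum, Finset.sum_sub_distrib, sum_hits_cell σ hb hBz,
        Finset.sum_const, nsmul_eq_mul, card_cell]
      ring
    rw [Finset.sum_congr rfl h5]
    refine (Finset.abs_sum_le_sum_abs _ _).trans ?_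
    have h6 : ∀ k ∈ cell b m z j, |F k *
          ((mT σ b z (Bt T (2 ^ i) (2 ^ (i + 1))) k - w) * (b : ℝ) ^ (t - z))| ≤
        |mT σ b z (Bt T (2 ^ i) (2 ^ (i + 1))) k - w| * (b : ℝ) ^ (t - z) := by
      intro k _
      rw [abs_mul, abs_mul, abs_of_nonneg (by positivity : 0 ≤ (b : ℝ) ^ (t - z))]
      exact mul_le_of_le_one_left (by positivity) (hF k)
    refine (Finset.sum_le_sum h6).trans ?_
    rw [← Finset.sum_mul]
    refine (mul_le_mul_of_nonneg_right hsum (by positivity)).trans (le_of_eq ?_)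
    have e2 : (b : ℝ) ^ (z - m) * (b : ℝ) ^ (t - z) = M := by
      rw [hM, ← pow_add]
      congr 1
      omega
    have e3 : (b : ℝ) ^ z * (b : ℝ) ^ (t - z) = (b : ℝ) ^ m * M := by
      rw [hM, ← pow_add, ← pow_add]
      congr 1
      omega
    calc ((b : ℝ) ^ (z - m) * e1 + (b : ℝ) ^ z / (i : ℝ) ^ 2 * (D2 * V + w)) * (b : ℝ) ^ (t - z)
        = e1 * ((b : ℝ) ^ (z - m) * (b : ℝ) ^ (t - z)) +
          ((b : ℝ) ^ z * (b : ℝ) ^ (t - z)) / (i : ℝ) ^ 2 * (D2 * V + w) := by ring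
      _ = _ := by
        rw [e2, e3]
        ring
  refine hmain.trans (mul_le_mul_of_nonneg_right ?_ hM0.le)
  rw [he1, hw]
  have hi1 : (1 : ℝ) ≤ i := by exact_mod_cast (by omega : 1 ≤ i)
  have hi2' : 1 / (i : ℝ) ^ 2 ≤ 1 / i := by
    apply one_div_le_one_div_of_le hiR
    nlinarith
  have g1 : (b : ℝ) ^ m / (i : ℝ) ^ 2 * (D2 * V + kap b * V) ≤
      (b : ℝ) ^ m * (D2 + kap b) * (V * (1 / i)) := by
    calc (b : ℝ) ^ m / (i : ℝ) ^ 2 * (D2 * V + kap b * V) =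
        (b : ℝ) ^ m * (D2 + kap b) * (V * (1 / (i : ℝ) ^ 2)) := by ring
      _ ≤ _ := by gcongr
  have g2 : K * V / i = K * (V * (1 / i)) := by ring
  rw [g2]
  have z3 : 0 ≤ V * (1 / (i : ℝ)) := by positivity
  have z4 : 0 ≤ 1 / (i : ℝ) ^ 2 := by positivity
  have c1 : 0 ≤ (b : ℝ) ^ m * (D2 + kap b) := by positivity
  have f3 : (K + (b : ℝ) ^ m * (D2 + kap b)) * (V * (1 / i)) ≤
      (1 + K + (b : ℝ) ^ m * (D2 + kap b)) * (V * (1 / i)) :=
    mul_le_mul_of_nonneg_right (by linarith) z3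
  have f4 : 1 * (1 / (i : ℝ) ^ 2) ≤
      (1 + K + (b : ℝ) ^ m * (D2 + kap b)) * (1 / (i : ℝ) ^ 2) :=
    mul_le_mul_of_nonneg_right (by linarith) z4
  nlinarith

/-- one block -/
theorem step (hE4 : S_E4) (hRB : S_RB) (hSM : S_SM) (hGC : S_GC) {b A : ℕ} {σ : ℕ → ℤ}
    (hOk : Ok b A σ) {ρ : ℕ → ℝ} (hρ : DG b A σ ρ) :
    ∃ k1 : ℕ, 1 ≤ k1 ∧ ∀ m r : ℕ, ∃ C : ℝ, 0 < C ∧ ∃ P : ℕ,
    ∀ i ≥ P, ∀ T : Finset ℕ, (∀ p ∈ T, p.Prime ∧ P ≤ p) → ∀ η : ℝ, 0 ≤ η →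
    (∀ q ∈ T, ∑ p ∈ T.filter (fun p => p ≠ q), ρ ((p - q) + (q - p)) ≤ η) →
    ∀ θ : ℕ → ℝ, (∀ p, 0 ≤ θ p) →
    (∀ p, θ p ≤ 1) → ∀ (c : Fin r → ℝ) (S : Fin r → Finset ℕ), (∀ l, 0 ≤ c l) → (∀ l, c l ≤ 1) →
    (∀ p ∈ T, 1 - θ p = ∑ l, c l * (if p ∈ S l then 1 else 0)) →
    ∀ t : ℕ, 2 ^ (i + 2) ≤ t → ∀ j : ℕ, 1 ≤ j → j ≤ b ^ (2 * m) →
    |∑ n ∈ cell b m t j, Th σ θ (Bt T 0 (2 ^ (i + 1))) b t n -
      (1 - kap b * Wt θ (Bt T (2 ^ i) (2 ^ (i + 1)))) *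
        ∑ n ∈ cell b m t j, Th σ θ (Bt T 0 (2 ^ i)) b t n| ≤
      C * (VT (Bt T (2 ^ i) (2 ^ (i + 1))) * (VT (Bt T (2 ^ i) (2 ^ (i + 1))) +
        VT (Bt T (2 ^ (i + 1 - k1)) (2 ^ i)) + (1 / i + η)) + 1 / (i : ℝ) ^ 2) * (b : ℝ) ^ (t - m) := by
  classical
  have hb := hOk.hb
  obtain ⟨C1, hC1, P1, h1⟩ := pair hE4 hRB hSM hOk hρ
  obtain ⟨D1, hD1, P2, h2⟩ := one hSM hOk
  obtain ⟨k1, hk1, hmean⟩ := mean hSM hGC hOk
  refine ⟨k1, hk1, fun m r => ?_⟩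
  obtain ⟨C3, hC3, P3, h3⟩ := hmean m
  have hbR : (2 : ℝ) ≤ b := by exact_mod_cast hb
  have hkap : 0 < kap b := by
    unfold kap
    have := Real.log_pos (by linarith : (1 : ℝ) < b)
    positivity
  refine ⟨2 * C1 + r * C3 + kap b * D1, by positivity,
    P1 + P2 + P3 + A * m + m + k1 + 10, fun i hi T hT η hη0 hη θ hθ0 hθ1 c S hc0 hc1 hθ t ht j hj1 hj2 => ?_⟩
  obtain ⟨z, hz⟩ : ∃ z, z = 2 ^ (i + 1 - k1) := ⟨_, rfl⟩
  obtain ⟨V, hV⟩ : ∃ V, V = VT (Bt T (2 ^ i) (2 ^ (i + 1))) := ⟨_, rfl⟩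
  obtain ⟨U, hU⟩ : ∃ U, U = VT (Bt T z (2 ^ i)) := ⟨_, rfl⟩
  obtain ⟨W, hW⟩ : ∃ W, W = Wt θ (Bt T (2 ^ i) (2 ^ (i + 1))) := ⟨_, rfl⟩
  rw [← hz, ← hV, ← hU, ← hW]
  have hV0 : 0 ≤ V := hV ▸ VT_nonneg _
  have hU0 : 0 ≤ U := hU ▸ VT_nonneg _
  have hW0 : 0 ≤ W := hW ▸ Wt_nonneg hθ1 _
  have hWV : W ≤ V := by
    rw [hW, hV]
    exact Wt_le hθ0 _
  have hi2 : i < 2 ^ i := Nat.lt_two_pow_self
  have hz1 : i + 1 - k1 < z := hz ▸ Nat.lt_two_pow_self
  have hzm : m + 1 ≤ z := by omega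
  have hzi : z ≤ 2 ^ i := by
    rw [hz]
    exact Nat.pow_le_pow_right (by norm_num) (by omega)
  have hii : 2 ^ i ≤ 2 ^ (i + 1) := Nat.pow_le_pow_right (by norm_num) (by omega)
  have hi4 : 2 ^ (i + 2) = 2 * 2 ^ (i + 1) := by ring
  have hi3 : 2 ^ (i + 1) = 2 * 2 ^ i := by ring
  have hiR : (0 : ℝ) < i := by exact_mod_cast (by omega : 0 < i)
  set M : ℝ := (b : ℝ) ^ (t - m) with hM
  have hM0 : 0 < M := by positivity
  set w : ℝ := kap b * W with hw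
  have hw0 : 0 ≤ w := by positivity
  -- pairs
  have hpair : ∀ p ∈ T, ∀ q ∈ T, p ≤ 2 ^ (i + 1) → q ≤ 2 ^ (i + 1) → p ≠ q →
      ∑ n ∈ cell b m t j, Y σ b t p n * Y σ b t q n ≤
      C1 * (Real.log q / q) * (Real.log p / p + ρ ((p - q) + (q - p))) * M := by
    intro p hp q hq hpi hqi hne
    have hp1 := hT p hp
    have hq1 := hT q hq
    rcases lt_or_gt_of_ne hne with hlt | hlt
    · have e0 : (p - q) + (q - p) = q - p := by omega
      rw [e0]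
      exact h1 p (by omega) hp1.1 q hlt m (by omega) t (by omega) j hj1 hj2
    · have e0 : (p - q) + (q - p) = p - q := by omega
      rw [e0]
      have h5 := h1 q (by omega) hq1.1 p hlt m (by omega) t (by omega) j hj1 hj2
      have e1 : ∑ n ∈ cell b m t j, Y σ b t p n * Y σ b t q n =
          ∑ n ∈ cell b m t j, Y σ b t q n * Y σ b t p n :=
        Finset.sum_congr rfl fun n _ => mul_comm _ _
      rw [e1]
      refine h5.trans (mul_le_mul_of_nonneg_right ?_ hM0.le)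
      have h6 : Real.log p / p ≤ Real.log q / q := by
        have h7 : (10 : ℝ) ≤ q := by exact_mod_cast (by omega : 10 ≤ q)
        have h8 : (q : ℝ) < p := by exact_mod_cast hlt
        have h9 : Real.exp 1 < 2.7182818286 := Real.exp_one_lt_d9
        refine Real.log_div_self_antitoneOn ?_ ?_ h8.le
        · show Real.exp 1 ≤ q
          linarith
        · show Real.exp 1 ≤ p
          linarith
      have h7 := mul_le_mul_of_nonneg_right h6 (hρ.1 (p - q))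
      have e2 : C1 * (Real.log q / q) * (Real.log p / p + ρ (p - q)) -
          C1 * (Real.log p / p) * (Real.log q / q + ρ (p - q)) =
          C1 * (Real.log q / q * ρ (p - q) - Real.log p / p * ρ (p - q)) := by ring
      have h8 : 0 ≤ C1 * (Real.log q / q * ρ (p - q) - Real.log p / p * ρ (p - q)) :=
        mul_nonneg hC1.le (by linarith)
      linarith
  have hBtm : ∀ x y p, p ∈ Bt T x y → p ∈ T ∧ x < p ∧ p ≤ y := fun x y p hp => by
    unfold Bt at hp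
    rw [mem_filter] at hp
    exact hp
  have hηs : ∀ (x y : ℕ), ∀ q ∈ T, ∑ p ∈ (Bt T x y).filter (fun p => p ≠ q),
      ρ ((p - q) + (q - p)) ≤ η := by
    intro x y q hq
    refine le_trans (Finset.sum_le_sum_of_subset_of_nonneg ?_ fun p _ _ => hρ.1 _) (hη q hq)
    exact Finset.filter_subset_filter _ (Finset.filter_subset _ _)
  have hself : ∑ n ∈ cell b m t j, (((hits σ (Bt T (2 ^ i) (2 ^ (i + 1))) b t n).card : ℝ) ^ 2 -
      ((hits σ (Bt T (2 ^ i) (2 ^ (i + 1))) b t n).card : ℝ)) ≤ C1 * V * (V + η) * M := by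
    rw [hV]
    refine self_le σ b t _ hC1.le hM0.le (fun p hp q hq hne => ?_)
      (fun q hq => hηs _ _ q (hBtm _ _ q hq).1)
    have hp' := hBtm _ _ p hp
    have hq' := hBtm _ _ q hq
    exact hpair p hp'.1 q hq'.1 hp'.2.2 hq'.2.2 hne
  have hcross : ∑ n ∈ cell b m t j, ((hits σ (Bt T z (2 ^ i)) b t n).card : ℝ) *
      ((hits σ (Bt T (2 ^ i) (2 ^ (i + 1))) b t n).card : ℝ) ≤ C1 * V * (U + η) * M := by
    rw [hV, hU]
    refine cross_le σ b t _ hC1.le hM0.le (Bt_add T hzi hii).2 (fun p hp q hq hne => ?_)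
      (fun q hq => hηs _ _ q (hBtm _ _ q hq).1)
    have hp' := hBtm _ _ p hp
    have hq' := hBtm _ _ q hq
    exact hpair p hp'.1 q hq'.1 (by omega) hq'.2.2 hne
  have hmid : ∑ n ∈ cell b m t j, ((hits σ (Bt T z (2 ^ i)) b t n).card : ℝ) ≤ D1 * U * M := by
    have h0 : ∀ n ∈ cell b m t j, ((hits σ (Bt T z (2 ^ i)) b t n).card : ℝ) =
        ∑ p ∈ Bt T z (2 ^ i), Y σ b t p n := fun n _ => card_hits σ _ b t n
    rw [Finset.sum_congr rfl h0, Finset.sum_comm]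
    have h5 : ∀ p ∈ Bt T z (2 ^ i), ∑ n ∈ cell b m t j, Y σ b t p n ≤
        D1 * (Real.log p / p) * M := by
      intro p hp
      have hp' := hBtm _ _ p hp
      have hp1 := hT p hp'.1
      exact h2 p (by omega) hp1.1 m (by omega) t (by omega) j hj1 hj2
    refine (Finset.sum_le_sum h5).trans (le_of_eq ?_)
    rw [hU]
    unfold VT
    rw [← Finset.sum_mul, ← Finset.mul_sum]
  -- the labels
  have hfl : ∀ l x y, (Bt T x y).filter (fun p => p ∈ S l) = Bt (T.filter (fun p => p ∈ S l)) x y := by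
    intro l x y
    unfold Bt
    ext p
    simp only [mem_filter]
    tauto
  have hWl : W = ∑ l, c l * VT (Bt (T.filter (fun p => p ∈ S l)) (2 ^ i) (2 ^ (i + 1))) := by
    rw [hW]
    unfold Wt VT
    have h5 : ∀ p ∈ Bt T (2 ^ i) (2 ^ (i + 1)), (1 - θ p) * (Real.log p / p) =
        ∑ l, c l * (if p ∈ S l then Real.log p / p else 0) := by
      intro p hp
      rw [hθ p (hBtm _ _ p hp).1, Finset.sum_mul]
      refine Finset.sum_congr rfl fun l _ => ?_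
      split_ifs <;> ring
    rw [Finset.sum_congr rfl h5, Finset.sum_comm]
    refine Finset.sum_congr rfl fun l _ => ?_
    rw [← Finset.mul_sum, ← Finset.sum_filter, hfl]
  have hXl : ∀ n, ∑ p ∈ hits σ (Bt T (2 ^ i) (2 ^ (i + 1))) b t n, (1 - θ p) =
      ∑ l, c l * ((hits σ (Bt (T.filter (fun p => p ∈ S l)) (2 ^ i) (2 ^ (i + 1))) b t n).card : ℝ) := by
    intro n
    have h5 : ∀ p ∈ hits σ (Bt T (2 ^ i) (2 ^ (i + 1))) b t n, (1 - θ p) =
        ∑ l, c l * (if p ∈ S l then 1 else 0) := by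
      intro p hp
      unfold hits at hp
      rw [mem_filter] at hp
      exact hθ p (hBtm _ _ p hp.1).1
    rw [Finset.sum_congr rfl h5, Finset.sum_comm]
    refine Finset.sum_congr rfl fun l _ => ?_
    rw [← Finset.mul_sum]
    congr 1
    rw [← Finset.sum_filter, Finset.sum_const, nsmul_eq_mul, mul_one]
    congr 2
    rw [← hfl]
    unfold hits
    ext p
    simp only [mem_filter]
    tauto
  -- the main sum
  have hmain : |∑ n ∈ cell b m t j, Th σ θ (Bt T 0 z) b t n *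
      (∑ p ∈ hits σ (Bt T (2 ^ i) (2 ^ (i + 1))) b t n, (1 - θ p) - w)| ≤
      r * (C3 * (V * (1 / i) + 1 / (i : ℝ) ^ 2) * M) := by
    have h5 : ∑ n ∈ cell b m t j, Th σ θ (Bt T 0 z) b t n *
        (∑ p ∈ hits σ (Bt T (2 ^ i) (2 ^ (i + 1))) b t n, (1 - θ p) - w) =
        ∑ l, c l * ∑ n ∈ cell b m t j, Th σ θ (Bt T 0 z) b z (n / b ^ (t - z)) *
        (((hits σ (Bt (T.filter (fun p => p ∈ S l)) (2 ^ i) (2 ^ (i + 1))) b t n).card : ℝ) -
          kap b * VT (Bt (T.filter (fun p => p ∈ S l)) (2 ^ i) (2 ^ (i + 1)))) := by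
      simp_rw [Finset.mul_sum]
      rw [Finset.sum_comm]
      refine Finset.sum_congr rfl fun n _ => ?_
      rw [hXl, hw, hWl, Th_first σ θ (z := z) (fun p hp => (hBtm _ _ p hp).2.2) (by omega : z ≤ t),
        Finset.mul_sum, ← Finset.sum_sub_distrib, Finset.mul_sum]
      refine Finset.sum_congr rfl fun l _ => ?_
      ring
    rw [h5]
    refine (Finset.abs_sum_le_sum_abs _ _).trans ?_
    have h6 : ∀ l ∈ (Finset.univ : Finset (Fin r)),
        |c l * ∑ n ∈ cell b m t j, Th σ θ (Bt T 0 z) b z (n / b ^ (t - z)) *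
        (((hits σ (Bt (T.filter (fun p => p ∈ S l)) (2 ^ i) (2 ^ (i + 1))) b t n).card : ℝ) -
          kap b * VT (Bt (T.filter (fun p => p ∈ S l)) (2 ^ i) (2 ^ (i + 1))))| ≤
        C3 * (V * (1 / i) + 1 / (i : ℝ) ^ 2) * M := by
      intro l _
      rw [abs_mul, abs_of_nonneg (hc0 l)]
      have h7 := h3 i (by omega) (T.filter (fun p => p ∈ S l)) (fun p hp => by
        rw [mem_filter] at hp
        exact (hT p hp.1).1) t ht j hj1 hj2 (fun k => Th σ θ (Bt T 0 z) b z k) (fun k => by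
        rw [abs_of_nonneg (Th_nonneg hθ0 _ _ _ _)]
        exact Th_le hθ0 hθ1 _ _ _ _)
      rw [← hz] at h7
      have h8 : VT (Bt (T.filter (fun p => p ∈ S l)) (2 ^ i) (2 ^ (i + 1))) ≤ V := by
        rw [hV, ← hfl]
        exact Finset.sum_le_sum_of_subset_of_nonneg (Finset.filter_subset _ _)
          fun p _ _ => w_nonneg p
      refine (mul_le_of_le_one_left (abs_nonneg _) (hc1 l)).trans (h7.trans ?_)
      gcongr
    refine (Finset.sum_le_sum h6).trans (le_of_eq ?_)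
    rw [Finset.sum_const, Finset.card_univ, Fintype.card_fin, nsmul_eq_mul]
  -- all together
  have hall : |∑ n ∈ cell b m t j, (Th σ θ (Bt T 0 (2 ^ (i + 1))) b t n -
      (1 - w) * Th σ θ (Bt T 0 (2 ^ i)) b t n +
      Th σ θ (Bt T 0 z) b t n *
        (∑ p ∈ hits σ (Bt T (2 ^ i) (2 ^ (i + 1))) b t n, (1 - θ p) - w))| ≤
      C1 * V * (V + η) * M + C1 * V * (U + η) * M + w * (D1 * U * M) := by
    refine (Finset.abs_sum_le_sum_abs _ _).trans ?_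
    have h5 : ∀ n ∈ cell b m t j, |Th σ θ (Bt T 0 (2 ^ (i + 1))) b t n -
      (1 - w) * Th σ θ (Bt T 0 (2 ^ i)) b t n +
      Th σ θ (Bt T 0 z) b t n *
        (∑ p ∈ hits σ (Bt T (2 ^ i) (2 ^ (i + 1))) b t n, (1 - θ p) - w)| ≤
        (((hits σ (Bt T (2 ^ i) (2 ^ (i + 1))) b t n).card : ℝ) ^ 2 -
          ((hits σ (Bt T (2 ^ i) (2 ^ (i + 1))) b t n).card : ℝ)) +
        ((hits σ (Bt T z (2 ^ i)) b t n).card : ℝ) *
          ((hits σ (Bt T (2 ^ i) (2 ^ (i + 1))) b t n).card : ℝ) +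
        w * ((hits σ (Bt T z (2 ^ i)) b t n).card : ℝ) := by
      intro n _
      rw [Th_add σ θ b t n T (Nat.zero_le (2 ^ i)) hii, Th_add σ θ b t n T (Nat.zero_le z) hzi]
      refine pw (Th_nonneg hθ0 _ _ _ _) (Th_le hθ0 hθ1 _ _ _ _) (Th_nonneg hθ0 _ _ _ _)
        (Th_le hθ0 hθ1 _ _ _ _) ?_ ?_ (sum_le_card hθ0 _) ?_ (prod_le_sq hθ0 hθ1 _) hw0
      · have h6 := prod_ge hθ0 hθ1 (hits σ (Bt T z (2 ^ i)) b t n)
        have h7 := sum_le_card hθ0 (hits σ (Bt T z (2 ^ i)) b t n)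
        unfold Th
        linarith
      · exact Finset.sum_nonneg fun p _ => by linarith [hθ1 p]
      · have h6 := prod_ge hθ0 hθ1 (hits σ (Bt T (2 ^ i) (2 ^ (i + 1))) b t n)
        unfold Th
        linarith
    refine (Finset.sum_le_sum h5).trans ?_
    rw [Finset.sum_add_distrib, Finset.sum_add_distrib, ← Finset.mul_sum]
    exact add_le_add (add_le_add hself hcross) (mul_le_mul_of_nonneg_left hmid hw0)
  rw [Finset.sum_add_distrib, Finset.sum_sub_distrib, ← Finset.mul_sum] at hall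
  set S1 := ∑ n ∈ cell b m t j, Th σ θ (Bt T 0 (2 ^ (i + 1))) b t n with hS1
  set S0 := ∑ n ∈ cell b m t j, Th σ θ (Bt T 0 (2 ^ i)) b t n with hS0
  set R := ∑ n ∈ cell b m t j, Th σ θ (Bt T 0 z) b t n *
        (∑ p ∈ hits σ (Bt T (2 ^ i) (2 ^ (i + 1))) b t n, (1 - θ p) - w) with hR
  have hfin : |S1 - (1 - w) * S0| ≤ (C1 * V * (V + η) * M + C1 * V * (U + η) * M + w * (D1 * U * M)) +
      r * (C3 * (V * (1 / i) + 1 / (i : ℝ) ^ 2) * M) := by
    have e4 : S1 - (1 - w) * S0 = (S1 - (1 - w) * S0 + R) - R := by ring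
    rw [e4]
    exact (abs_sub _ _).trans (add_le_add hall hmain)
  refine hfin.trans ?_
  have hwV : w ≤ kap b * V := by
    rw [hw]
    exact mul_le_mul_of_nonneg_left hWV hkap.le
  have z1 : 0 ≤ V * V := by positivity
  have z2 : 0 ≤ V * U := by positivity
  have z3 : 0 ≤ V * (1 / (i : ℝ)) := by positivity
  have z4 : 0 ≤ 1 / (i : ℝ) ^ 2 := by positivity
  have hw1 : w * (D1 * U * M) ≤ kap b * V * (D1 * U * M) :=
    mul_le_mul_of_nonneg_right hwV (by positivity)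
  have z5 : 0 ≤ V * η := by positivity
  have hkey : C1 * V * (V + η) + C1 * V * (U + η) + kap b * V * (D1 * U) +
      r * (C3 * (V * (1 / i) + 1 / (i : ℝ) ^ 2)) ≤
      (2 * C1 + r * C3 + kap b * D1) * (V * (V + U + (1 / i + η)) + 1 / (i : ℝ) ^ 2) := by
    have c1 : 0 ≤ (r : ℝ) * C3 := by positivity
    have c2 : 0 ≤ kap b * D1 := by positivity
    have e5 : (2 * C1 + r * C3 + kap b * D1) * (V * (V + U + (1 / i + η)) + 1 / (i : ℝ) ^ 2) =
        (2 * C1 + r * C3 + kap b * D1) * (V * η) +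
        (2 * C1 + r * C3 + kap b * D1) * (V * V) +
        (2 * C1 + r * C3 + kap b * D1) * (V * U) +
        (2 * C1 + r * C3 + kap b * D1) * (V * (1 / i)) +
        (2 * C1 + r * C3 + kap b * D1) * (1 / (i : ℝ) ^ 2) := by ring
    rw [e5]
    have f0 : 2 * C1 * (V * η) ≤ (2 * C1 + r * C3 + kap b * D1) * (V * η) :=
      mul_le_mul_of_nonneg_right (by linarith) z5
    have f1 : C1 * (V * V) ≤ (2 * C1 + r * C3 + kap b * D1) * (V * V) :=
      mul_le_mul_of_nonneg_right (by linarith) z1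
    have f2 : (C1 + kap b * D1) * (V * U) ≤ (2 * C1 + r * C3 + kap b * D1) * (V * U) :=
      mul_le_mul_of_nonneg_right (by linarith) z2
    have f3 : (r * C3) * (V * (1 / i)) ≤ (2 * C1 + r * C3 + kap b * D1) * (V * (1 / i)) :=
      mul_le_mul_of_nonneg_right (by linarith) z3
    have f4 : (r * C3) * (1 / (i : ℝ) ^ 2) ≤
        (2 * C1 + r * C3 + kap b * D1) * (1 / (i : ℝ) ^ 2) :=
      mul_le_mul_of_nonneg_right (by linarith) z4
    linarith
  calc (C1 * V * (V + η) * M + C1 * V * (U + η) * M + w * (D1 * U * M)) +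
      r * (C3 * (V * (1 / i) + 1 / (i : ℝ) ^ 2) * M)
      ≤ (C1 * V * (V + η) * M + C1 * V * (U + η) * M + kap b * V * (D1 * U * M)) +
      r * (C3 * (V * (1 / i) + 1 / (i : ℝ) ^ 2) * M) := by linarith
    _ = (C1 * V * (V + η) + C1 * V * (U + η) + kap b * V * (D1 * U) +
      r * (C3 * (V * (1 / i) + 1 / (i : ℝ) ^ 2))) * M := by ring
    _ ≤ _ := mul_le_mul_of_nonneg_right hkey hM0.le

end Pool.Agent.Zk73.LW
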