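import Mathlib
import Pool.Agent.Zk73.LW.B

set_option autoImplicit false

/-!
# Pairs of exponents, shifted digits: all blocks
-/

namespace Pool.Agent.Zk73.LW

open Finset Filter Topology MeasureTheory
open Pool.Agent.N176.SH
open Pool.Agent.H305R2 (roughPart)
open Pool.Agent.N176.OW (cell kap VT)

lemma VT_blocks {T : Finset ℕ} {δ : ℝ} (hδ : ∀ i, VT (Bt T (2 ^ i) (2 ^ (i + 1))) ≤ δ) (a d : ℕ) :
    VT (Bt T (2 ^ a) (2 ^ (a + d))) ≤ d * δ := by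
  induction d with
  | zero =>
    have : Bt T (2 ^ a) (2 ^ (a + 0)) = ∅ := by
      unfold Bt
      rw [Nat.add_zero, Finset.filter_eq_empty_iff]
      intro p _
      omega
    rw [this]
    simp [VT]
  | succ d ih =>
    have h1 : 2 ^ a ≤ 2 ^ (a + d) := Nat.pow_le_pow_right (by norm_num) (by omega)
    have h2 : 2 ^ (a + d) ≤ 2 ^ (a + d + 1) := Nat.pow_le_pow_right (by norm_num) (by omega)
    have h3 := VT_add T h1 h2
    have h4 := hδ (a + d)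
    have e : a + (d + 1) = a + d + 1 := by omega
    rw [e, h3]
    push_cast
    linarith

lemma real_step {C k κ δ ι V W U S1 S0 M V0 W0 a b c q s : ℝ} (hM0 : 0 < M) (hC : 0 < C) (hk : 0 ≤ k)
    (hκ : 0 < κ) (hδ0 : 0 ≤ δ) (hι : 0 ≤ ι) (hV0 : 0 ≤ V) (hW0 : 0 ≤ W) (hWV : W ≤ V) (hVδ : V ≤ δ)
    (hUδ : U ≤ k * δ) (hW00 : 0 ≤ W0) (hx1 : κ * W ≤ 1) (hq : q ≤ ι) (hs : s ≤ a - b)
    (hab : 0 ≤ a - b) (h2 : |S1 - (1 - κ * W) * S0| ≤ C * (V * (V + U + q) + s) * M)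
    (h1 : |S0 - Real.exp (-(κ * W0)) * M| ≤
      (C * (1 + k) + κ ^ 2) * ((δ + ι) * V0 + (c - a)) * M) :
    |S1 - Real.exp (-(κ * (W0 + W))) * M| ≤
      (C * (1 + k) + κ ^ 2) * ((δ + ι) * (V0 + V) + (c - b)) * M := by
  have hx0 : 0 ≤ κ * W := by positivity
  have hexp0 : 0 < Real.exp (-(κ * W0)) := Real.exp_pos _
  have hexp1 : Real.exp (-(κ * W0)) ≤ 1 := by
    rw [Real.exp_le_one_iff]
    have : 0 ≤ κ * W0 := by positivity
    linarith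
  have h5 : |Real.exp (-(κ * W)) - 1 - -(κ * W)| ≤ (-(κ * W)) ^ 2 := by
    apply Real.abs_exp_sub_one_sub_id_le
    rw [abs_neg, abs_of_nonneg hx0]
    exact hx1
  have h6 : (-(κ * W)) ^ 2 ≤ κ ^ 2 * (δ * V) := by
    rw [neg_sq, mul_pow]
    refine mul_le_mul_of_nonneg_left ?_ (by positivity)
    have : W * W ≤ δ * V := mul_le_mul (hWV.trans hVδ) hWV hW0 hδ0
    linarith [pow_two W]
  have e3 : S1 - Real.exp (-(κ * (W0 + W))) * M =
      (S1 - (1 - κ * W) * S0) + (1 - κ * W) * (S0 - Real.exp (-(κ * W0)) * M) -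
      (Real.exp (-(κ * W)) - 1 - -(κ * W)) * Real.exp (-(κ * W0)) * M := by
    have : Real.exp (-(κ * (W0 + W))) = Real.exp (-(κ * W0)) * Real.exp (-(κ * W)) := by
      rw [← Real.exp_add]
      congr 1
      ring
    rw [this]
    ring
  rw [e3]
  have a1 : |(1 - κ * W) * (S0 - Real.exp (-(κ * W0)) * M)| ≤
      (C * (1 + k) + κ ^ 2) * ((δ + ι) * V0 + (c - a)) * M := by
    rw [abs_mul, abs_of_nonneg (by linarith : 0 ≤ 1 - κ * W)]
    exact le_trans (mul_le_of_le_one_left (abs_nonneg _) (by linarith)) h1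
  have a2 : |(Real.exp (-(κ * W)) - 1 - -(κ * W)) * Real.exp (-(κ * W0)) * M| ≤
      κ ^ 2 * (δ * V) * M := by
    rw [abs_mul, abs_mul, abs_of_pos hM0, abs_of_pos hexp0]
    refine mul_le_mul_of_nonneg_right ?_ hM0.le
    exact le_trans (mul_le_of_le_one_right (abs_nonneg _) hexp1) (h5.trans h6)
  have a3 : C * (V * (V + U + q) + s) ≤
      C * (1 + k) * ((δ + ι) * V) + C * (1 + k) * (a - b) := by
    have b3 : 0 ≤ k * ι := by positivity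
    have b2 : V + U + q ≤ (1 + k) * (δ + ι) := by
      have : (1 + k) * (δ + ι) = δ + k * δ + ι + k * ι := by ring
      linarith
    have b7 : 0 ≤ k * (a - b) := by positivity
    have b8 : V * (V + U + q) ≤ V * ((1 + k) * (δ + ι)) := mul_le_mul_of_nonneg_left b2 hV0
    calc C * (V * (V + U + q) + s)
        ≤ C * (V * ((1 + k) * (δ + ι)) + (1 + k) * (a - b)) :=
          mul_le_mul_of_nonneg_left (by linarith) hC.le
      _ = _ := by ring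
  have a4 : |S1 - (1 - κ * W) * S0| ≤ (C * (1 + k) * ((δ + ι) * V) + C * (1 + k) * (a - b)) * M :=
    h2.trans (mul_le_mul_of_nonneg_right a3 hM0.le)
  have a5 : |(S1 - (1 - κ * W) * S0) + (1 - κ * W) * (S0 - Real.exp (-(κ * W0)) * M) -
      (Real.exp (-(κ * W)) - 1 - -(κ * W)) * Real.exp (-(κ * W0)) * M| ≤
      (C * (1 + k) * ((δ + ι) * V) + C * (1 + k) * (a - b)) * M +
      (C * (1 + k) + κ ^ 2) * ((δ + ι) * V0 + (c - a)) * M + κ ^ 2 * (δ * V) * M :=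
    (abs_sub _ _).trans (add_le_add ((abs_add_le _ _).trans (add_le_add a4 a1)) a2)
  refine a5.trans ?_
  have b9 : 0 ≤ κ ^ 2 * (a - b) * M := by positivity
  have b10 : 0 ≤ κ ^ 2 * (ι * V) * M := by positivity
  have e7 : (C * (1 + k) + κ ^ 2) * ((δ + ι) * (V0 + V) + (c - b)) * M =
      (C * (1 + k) * ((δ + ι) * V) + C * (1 + k) * (a - b)) * M +
      (C * (1 + k) + κ ^ 2) * ((δ + ι) * V0 + (c - a)) * M + κ ^ 2 * (δ * V) * M +
      (κ ^ 2 * (a - b) * M + κ ^ 2 * (ι * V) * M) := by ring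
  rw [e7]
  linarith

/-- all blocks -/
theorem iter (hE4 : S_E4) (hRB : S_RB) (hSM : S_SM) (hGC : S_GC) {b A : ℕ} {σ : ℕ → ℤ}
    (hOk : Ok b A σ) {ρ : ℕ → ℝ} (hρ : DG b A σ ρ) : ∀ m r : ℕ, ∃ C : ℝ, 0 < C ∧ ∃ P : ℕ,
    ∀ i0 ≥ P, ∀ J ≥ i0, ∀ T : Finset ℕ, (∀ p ∈ T, p.Prime ∧ 2 ^ i0 < p ∧ p ≤ 2 ^ J) →
    ∀ η : ℝ, 0 ≤ η → (∀ q ∈ T, ∑ p ∈ T.filter (fun p => p ≠ q), ρ ((p - q) + (q - p)) ≤ η) →
    ∀ θ : ℕ → ℝ, (∀ p, 0 ≤ θ p) →
    (∀ p, θ p ≤ 1) → ∀ (c : Fin r → ℝ) (S : Fin r → Finset ℕ), (∀ l, 0 ≤ c l) → (∀ l, c l ≤ 1) →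
    (∀ p ∈ T, 1 - θ p = ∑ l, c l * (if p ∈ S l then 1 else 0)) →
    ∀ δ : ℝ, (∀ i, VT (Bt T (2 ^ i) (2 ^ (i + 1))) ≤ δ) → kap b * δ ≤ 1 →
    ∀ t : ℕ, 2 ^ (J + 1) ≤ t → ∀ j : ℕ, 1 ≤ j → j ≤ b ^ (2 * m) →
    |∑ n ∈ cell b m t j, Th σ θ T b t n - Real.exp (-(kap b * Wt θ T)) * (b : ℝ) ^ (t - m)| ≤
      C * ((δ + (1 / i0 + η)) * VT T + 1 / i0) * (b : ℝ) ^ (t - m) := by
  classical
  intro m r
  have hb := hOk.hb
  obtain ⟨k1, hk1, hstep⟩ := step hE4 hRB hSM hGC hOk hρ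
  obtain ⟨C, hC, P, hP⟩ := hstep m r
  have hbR : (2 : ℝ) ≤ b := by exact_mod_cast hb
  have hkap : 0 < kap b := by
    unfold kap
    have := Real.log_pos (by linarith : (1 : ℝ) < b)
    positivity
  refine ⟨2 * (C * (1 + k1) + kap b ^ 2), by positivity, P + k1 + 1,
    fun i0 hi0 J hJ T hT η hη0 hη θ hθ0 hθ1 c S hc0 hc1 hθ δ hδ hκδ t ht j hj1 hj2 => ?_⟩
  have hδ0 : 0 ≤ δ := (VT_nonneg _).trans (hδ 0)
  have hi0R : (1 : ℝ) ≤ i0 := by exact_mod_cast (by omega : 1 ≤ i0)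
  set M : ℝ := (b : ℝ) ^ (t - m) with hM
  have hM0 : 0 < M := by positivity
  set D : ℝ := C * (1 + k1) + kap b ^ 2 with hD
  have hD0 : 0 < D := by positivity
  have h2i0 : i0 < 2 ^ i0 := Nat.lt_two_pow_self
  have hT' : ∀ p ∈ T, p.Prime ∧ P ≤ p := fun p hp => by
    obtain ⟨h1, h2, h3⟩ := hT p hp
    exact ⟨h1, by omega⟩
  have key : ∀ d : ℕ, i0 + d ≤ J →
      |∑ n ∈ cell b m t j, Th σ θ (Bt T 0 (2 ^ (i0 + d))) b t n -
        Real.exp (-(kap b * Wt θ (Bt T 0 (2 ^ (i0 + d))))) * M| ≤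
      D * ((δ + (1 / i0 + η)) * VT (Bt T 0 (2 ^ (i0 + d))) + (2 / i0 - 2 / ((i0 + d : ℕ) : ℝ))) * M := by
    intro d
    induction d with
    | zero =>
      intro _
      have h1 : Bt T 0 (2 ^ (i0 + 0)) = ∅ := by
        unfold Bt
        rw [Finset.filter_eq_empty_iff]
        intro p hp
        have := hT p hp
        rw [Nat.add_zero]
        omega
      rw [h1]
      have h2 : ∀ n ∈ cell b m t j, Th σ θ ∅ b t n = 1 := by
        intro n _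
        unfold Th hits
        simp
      rw [Finset.sum_congr rfl h2, Finset.sum_const, nsmul_eq_mul, card_cell, ← hM]
      simp [Wt, VT]
    | succ d ih =>
      intro hd
      have h1 := ih (by omega)
      obtain ⟨i, hi⟩ : ∃ i, i = i0 + d := ⟨_, rfl⟩
      have e : i0 + (d + 1) = i + 1 := by omega
      rw [e]
      rw [← hi] at h1
      have hii : 2 ^ i ≤ 2 ^ (i + 1) := Nat.pow_le_pow_right (by norm_num) (by omega)
      have ht' : 2 ^ (i + 2) ≤ t := le_trans (Nat.pow_le_pow_right (by norm_num) (by omega)) ht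
      have h2 := hP i (by omega) T hT' η hη0 hη θ hθ0 hθ1 c S hc0 hc1 hθ t ht' j hj1 hj2
      rw [← hM] at h2
      have h3 := VT_add T (Nat.zero_le (2 ^ i)) hii
      have h4 := Wt_add θ T (Nat.zero_le (2 ^ i)) hii
      obtain ⟨V, hV⟩ : ∃ V, V = VT (Bt T (2 ^ i) (2 ^ (i + 1))) := ⟨_, rfl⟩
      obtain ⟨W, hW⟩ : ∃ W, W = Wt θ (Bt T (2 ^ i) (2 ^ (i + 1))) := ⟨_, rfl⟩
      obtain ⟨U, hU⟩ : ∃ U, U = VT (Bt T (2 ^ (i + 1 - k1)) (2 ^ i)) := ⟨_, rfl⟩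
      have hV0 : 0 ≤ V := hV ▸ VT_nonneg _
      have hU0 : 0 ≤ U := hU ▸ VT_nonneg _
      have hW0 : 0 ≤ W := hW ▸ Wt_nonneg hθ1 _
      have hWV : W ≤ V := by
        rw [hW, hV]
        exact Wt_le hθ0 _
      have hVδ : V ≤ δ := hV ▸ hδ i
      have hUδ : U ≤ k1 * δ := by
        have h5 := VT_blocks hδ (i + 1 - k1) (k1 - 1)
        have e2 : i + 1 - k1 + (k1 - 1) = i := by omega
        rw [e2, ← hU] at h5
        refine h5.trans (mul_le_mul_of_nonneg_right ?_ hδ0)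
        exact_mod_cast Nat.sub_le k1 1
      rw [← hV, ← hW, ← hU] at h2
      rw [h3, h4, ← hV, ← hW]
      set S1 := ∑ n ∈ cell b m t j, Th σ θ (Bt T 0 (2 ^ (i + 1))) b t n with hS1
      set S0 := ∑ n ∈ cell b m t j, Th σ θ (Bt T 0 (2 ^ i)) b t n with hS0
      obtain ⟨V0, hV0'⟩ : ∃ V0, V0 = VT (Bt T 0 (2 ^ i)) := ⟨_, rfl⟩
      obtain ⟨W0, hW0'⟩ : ∃ W0, W0 = Wt θ (Bt T 0 (2 ^ i)) := ⟨_, rfl⟩
      rw [← hV0', ← hW0'] at h1 ⊢
      have hW00 : 0 ≤ W0 := hW0' ▸ Wt_nonneg hθ1 _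
      have hx1 : kap b * W ≤ 1 := by
        refine le_trans (mul_le_mul_of_nonneg_left (hWV.trans hVδ) hkap.le) hκδ
      have hiR : (1 : ℝ) ≤ i := by exact_mod_cast (by omega : 1 ≤ i)
      have hi0i : (i0 : ℝ) ≤ i := by exact_mod_cast (by omega : i0 ≤ i)
      have b1 : 1 / (i : ℝ) + η ≤ 1 / i0 + η :=
        add_le_add (one_div_le_one_div_of_le (by linarith) hi0i) le_rfl
      have b4 : 1 / (i : ℝ) ^ 2 ≤ 2 / (i : ℝ) - 2 / ((i + 1 : ℕ) : ℝ) := by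
        push_cast
        rw [div_sub_div _ _ (by positivity) (by positivity),
          div_le_div_iff₀ (by positivity) (by positivity)]
        nlinarith
      have b6 : 0 ≤ 2 / (i : ℝ) - 2 / ((i + 1 : ℕ) : ℝ) := le_trans (by positivity) b4
      exact real_step hM0 hC (Nat.cast_nonneg k1) hkap hδ0 (by positivity) hV0 hW0 hWV hVδ hUδ hW00
        hx1 b1 b4 b6 h2 h1
  have hfin := key (J - i0) (by omega)
  have e1 : i0 + (J - i0) = J := by omega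
  have e2 : Bt T 0 (2 ^ J) = T := by
    unfold Bt
    rw [Finset.filter_true_of_mem]
    intro p hp
    have := hT p hp
    omega
  rw [e1, e2] at hfin
  refine hfin.trans ?_
  refine mul_le_mul_of_nonneg_right ?_ hM0.le
  have hVT := VT_nonneg T
  have q1 : 0 ≤ (δ + (1 / i0 + η)) * VT T := by positivity
  have q2 : 2 / (i0 : ℝ) - 2 / (J : ℝ) ≤ 2 * (1 / i0) := by
    have : 0 ≤ 2 / (J : ℝ) := by positivity
    have e3 : 2 / (i0 : ℝ) = 2 * (1 / i0) := by ring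
    linarith
  calc D * ((δ + (1 / i0 + η)) * VT T + (2 / i0 - 2 / (J : ℝ))) ≤
      D * (2 * ((δ + (1 / i0 + η)) * VT T) + 2 * (1 / i0)) :=
        mul_le_mul_of_nonneg_left (by linarith) hD0.le
    _ = _ := by ring

end Pool.Agent.Zk73.LW
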