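import Mathlib

set_option autoImplicit false

/-!
# Generating functions of counting variables: convergence to products of Poisson laws
-/

namespace Pool.Agent.Zk73.LW

open Finset Filter Topology

/-- convergence of generating functions on `(0, 1]` gives convergence of the probabilities -/
lemma cont {P : ℕ → ℕ → ℝ} {G : ℕ → ℝ → ℝ} {p : ℕ → ℝ} {g : ℝ → ℝ}
    (h1 : ∀ n k : ℕ, ∀ θ : ℝ, 0 < θ → θ ≤ 1 → |G n θ - ∑ l ∈ range (k + 1), P n l * θ ^ l| ≤ θ ^ (k + 1))
    (h2 : ∀ k : ℕ, ∃ C : ℝ, 0 ≤ C ∧ ∀ θ : ℝ, 0 < θ → θ ≤ 1 →
      |g θ - ∑ l ∈ range (k + 1), p l * θ ^ l| ≤ C * θ ^ (k + 1))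
    (h3 : ∀ θ : ℝ, 0 < θ → θ ≤ 1 → Tendsto (fun n => G n θ) atTop (𝓝 (g θ))) (k : ℕ) :
    Tendsto (fun n => P n k) atTop (𝓝 (p k)) := by
  induction k using Nat.strong_induction_on with
  | _ k ih =>
    obtain ⟨C, hC, hCg⟩ := h2 k
    rw [Metric.tendsto_atTop]
    intro ε hε
    obtain ⟨θ, hθ⟩ : ∃ θ, θ = min 1 (ε / (2 * (2 + C))) := ⟨_, rfl⟩
    have hθ0 : 0 < θ := by
      rw [hθ]
      exact lt_min one_pos (by positivity)
    have hθ1 : θ ≤ 1 := hθ ▸ min_le_left _ _
    have hθε : (2 + C) * θ ≤ ε / 2 := by
      calc (2 + C) * θ ≤ (2 + C) * (ε / (2 * (2 + C))) :=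
            mul_le_mul_of_nonneg_left (hθ ▸ min_le_right _ _) (by positivity)
        _ = ε / 2 := by field_simp
    have h4 : Tendsto (fun n => (G n θ - g θ) - ∑ l ∈ range k, (P n l - p l) * θ ^ l) atTop (𝓝 0) := by
      have h5 : Tendsto (fun n => G n θ - g θ) atTop (𝓝 (g θ - g θ)) := (h3 θ hθ0 hθ1).sub_const _
      have h6 : Tendsto (fun n => ∑ l ∈ range k, (P n l - p l) * θ ^ l) atTop
          (𝓝 (∑ l ∈ range k, (p l - p l) * θ ^ l)) := by
        refine tendsto_finsetSum _ fun l hl => ?_
        exact ((ih l (mem_range.1 hl)).sub_const _).mul_const _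
      have h7 := h5.sub h6
      simpa using h7
    rw [Metric.tendsto_atTop] at h4
    obtain ⟨N, hN⟩ := h4 (θ ^ (k + 1)) (by positivity)
    refine ⟨N, fun n hn => ?_⟩
    have h5 := hN n hn
    rw [Real.dist_eq, sub_zero] at h5
    have h6 := h1 n k θ hθ0 hθ1
    have h7 := hCg θ hθ0 hθ1
    rw [Finset.sum_range_succ] at h6 h7
    rw [Real.dist_eq]
    have e : (P n k - p k) * θ ^ k = ((G n θ - g θ) - ∑ l ∈ range k, (P n l - p l) * θ ^ l) -
        (G n θ - (∑ l ∈ range k, P n l * θ ^ l + P n k * θ ^ k)) +
        (g θ - (∑ l ∈ range k, p l * θ ^ l + p k * θ ^ k)) := by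
      have : ∑ l ∈ range k, (P n l - p l) * θ ^ l =
          ∑ l ∈ range k, P n l * θ ^ l - ∑ l ∈ range k, p l * θ ^ l := by
        rw [← Finset.sum_sub_distrib]
        exact Finset.sum_congr rfl fun l _ => by ring
      rw [this]
      ring
    have h8 : |(P n k - p k) * θ ^ k| ≤ θ ^ (k + 1) + θ ^ (k + 1) + C * θ ^ (k + 1) := by
      rw [e]
      exact (abs_add_le _ _).trans (add_le_add ((abs_sub _ _).trans (add_le_add h5.le h6)) h7)
    have hk0 : 0 < θ ^ k := by positivity
    rw [abs_mul, abs_of_pos hk0] at h8
    have h9 : |P n k - p k| ≤ (2 + C) * θ := by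
      have : |P n k - p k| * θ ^ k ≤ ((2 + C) * θ) * θ ^ k := by
        refine h8.trans (le_of_eq ?_)
        ring
      exact le_of_mul_le_mul_right this hk0
    linarith

/-- the Poisson law -/
noncomputable def poi (l : ℝ) (k : ℕ) : ℝ := Real.exp (-l) * l ^ k / (k.factorial : ℝ)

lemma exp_series {x : ℝ} (k : ℕ) :
    |Real.exp x - ∑ l ∈ range k, x ^ l / (l.factorial : ℝ)| ≤ |x| ^ k * Real.exp |x| := by
  have h := Complex.norm_exp_sub_sum_le_norm_mul_exp (x : ℂ) k
  rw [Complex.norm_real, Real.norm_eq_abs] at h
  refine le_trans (le_of_eq ?_) h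
  rw [← Complex.ofReal_exp]
  have : (((Real.exp x - ∑ l ∈ range k, x ^ l / (l.factorial : ℝ) : ℝ)) : ℂ) =
      ((Real.exp x : ℝ) : ℂ) - ∑ l ∈ range k, (x : ℂ) ^ l / (l.factorial : ℂ) := by
    push_cast
    rfl
  rw [← this, Complex.norm_real, Real.norm_eq_abs]

lemma poi_gen {c l : ℝ} (hl : 0 ≤ l) (k : ℕ) : ∃ C : ℝ, 0 ≤ C ∧ ∀ θ : ℝ, 0 < θ → θ ≤ 1 →
    |c * Real.exp (-((1 - θ) * l)) - ∑ i ∈ range (k + 1), (c * poi l i) * θ ^ i| ≤ C * θ ^ (k + 1) := by
  refine ⟨|c| * (Real.exp (-l) * (l ^ (k + 1) * Real.exp l)), by positivity, fun θ h0 h1 => ?_⟩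
  have e1 : c * Real.exp (-((1 - θ) * l)) - ∑ i ∈ range (k + 1), (c * poi l i) * θ ^ i =
      c * (Real.exp (-l) * (Real.exp (l * θ) - ∑ i ∈ range (k + 1), (l * θ) ^ i / (i.factorial : ℝ))) := by
    have e2 : Real.exp (-((1 - θ) * l)) = Real.exp (-l) * Real.exp (l * θ) := by
      rw [← Real.exp_add]
      congr 1
      ring
    rw [e2, mul_sub (Real.exp (-l)), mul_sub c, Finset.mul_sum, Finset.mul_sum]
    congr 1
    refine Finset.sum_congr rfl fun i _ => ?_
    unfold poi
    rw [mul_pow]
    ring
  rw [e1, abs_mul, abs_mul, abs_of_pos (Real.exp_pos _)]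
  have h2 := exp_series (x := l * θ) (k + 1)
  have hlθ : 0 ≤ l * θ := by positivity
  rw [abs_of_nonneg hlθ] at h2
  have h3 : Real.exp (l * θ) ≤ Real.exp l := Real.exp_le_exp.2 (by nlinarith)
  calc |c| * (Real.exp (-l) * |Real.exp (l * θ) - ∑ i ∈ range (k + 1), (l * θ) ^ i / (i.factorial : ℝ)|)
      ≤ |c| * (Real.exp (-l) * ((l * θ) ^ (k + 1) * Real.exp (l * θ))) := by gcongr
    _ ≤ |c| * (Real.exp (-l) * ((l * θ) ^ (k + 1) * Real.exp l)) := by gcongr
    _ = |c| * (Real.exp (-l) * (l ^ (k + 1) * Real.exp l)) * θ ^ (k + 1) := by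
        rw [mul_pow]
        ring

/-- joint convergence: `I n` is a finite set, `N n i x` are counting variables on it -/
theorem joint {r : ℕ} (I : ℕ → Finset ℕ) (hI : ∀ n, (I n).Nonempty) (N : ℕ → Fin r → ℕ → ℕ)
    (lam : Fin r → ℝ) (hlam : ∀ i, 0 ≤ lam i)
    (h : ∀ θ : Fin r → ℝ, (∀ i, 0 < θ i) → (∀ i, θ i ≤ 1) →
      Tendsto (fun n => (∑ x ∈ I n, ∏ i, θ i ^ N n i x) / ((I n).card : ℝ)) atTop
        (𝓝 (∏ i, Real.exp (-((1 - θ i) * lam i))))) (k : Fin r → ℕ) :
    Tendsto (fun n => (((I n).filter (fun x => ∀ i, N n i x = k i)).card : ℝ) / ((I n).card : ℝ)) atTop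
      (𝓝 (∏ i, poi (lam i) (k i))) := by
  classical
  have key : ∀ D : Finset (Fin r), ∀ θ : Fin r → ℝ, (∀ i, 0 < θ i) → (∀ i, θ i ≤ 1) →
      Tendsto (fun n => (∑ x ∈ I n, ∏ i, (if i ∈ D then (if N n i x = k i then (1 : ℝ) else 0)
        else θ i ^ N n i x)) / ((I n).card : ℝ)) atTop
        (𝓝 (∏ i, (if i ∈ D then poi (lam i) (k i) else Real.exp (-((1 - θ i) * lam i))))) := by
    intro D
    induction D using Finset.induction_on with
    | empty =>
      intro θ h0 h1
      simpa using h θ h0 h1
    | insert a D ha ih =>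
      intro θ h0 h1
      -- the factors other than `a`
      set F : ℕ → ℕ → ℝ := fun n x => ∏ i ∈ Finset.univ.erase a,
        (if i ∈ D then (if N n i x = k i then (1 : ℝ) else 0) else θ i ^ N n i x) with hF
      set c : ℝ := ∏ i ∈ Finset.univ.erase a,
        (if i ∈ D then poi (lam i) (k i) else Real.exp (-((1 - θ i) * lam i))) with hc
      have hF0 : ∀ n x, 0 ≤ F n x := by
        intro n x
        refine Finset.prod_nonneg fun i _ => ?_
        split_ifs
        · exact zero_le_one
        · exact le_rfl
        · exact pow_nonneg (h0 i).le _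
      have hF1 : ∀ n x, F n x ≤ 1 := by
        intro n x
        refine Finset.prod_le_one (fun i _ => ?_) fun i _ => ?_
        · split_ifs
          · exact zero_le_one
          · exact le_rfl
          · exact pow_nonneg (h0 i).le _
        · split_ifs
          · exact le_rfl
          · exact zero_le_one
          · exact pow_le_one₀ (h0 i).le (h1 i)
      have hconv := cont (P := fun n l => (∑ x ∈ I n, F n x * (if N n a x = l then 1 else 0)) /
          ((I n).card : ℝ))
        (G := fun n s => (∑ x ∈ I n, F n x * s ^ N n a x) / ((I n).card : ℝ))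
        (p := fun l => c * poi (lam a) l) (g := fun s => c * Real.exp (-((1 - s) * lam a)))
        (by
          intro n l s hs0 hs1
          have hcard : (0 : ℝ) < (I n).card := by exact_mod_cast (hI n).card_pos
          have e1 : (∑ x ∈ I n, F n x * s ^ N n a x) / ((I n).card : ℝ) -
              ∑ l' ∈ range (l + 1), (∑ x ∈ I n, F n x * (if N n a x = l' then 1 else 0)) /
                ((I n).card : ℝ) * s ^ l' =
              (∑ x ∈ I n, F n x * (if N n a x < l + 1 then 0 else s ^ N n a x)) / ((I n).card : ℝ) := by
            have e2 : ∑ l' ∈ range (l + 1), (∑ x ∈ I n, F n x * (if N n a x = l' then 1 else 0)) /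
                ((I n).card : ℝ) * s ^ l' =
                (∑ x ∈ I n, F n x * (if N n a x < l + 1 then s ^ N n a x else 0)) /
                  ((I n).card : ℝ) := by
              have e3 : ∀ l' ∈ range (l + 1), (∑ x ∈ I n, F n x * (if N n a x = l' then 1 else 0)) /
                ((I n).card : ℝ) * s ^ l' =
                (∑ x ∈ I n, F n x * (if N n a x = l' then s ^ l' else 0)) / ((I n).card : ℝ) := by
                intro l' _
                rw [div_mul_eq_mul_div, Finset.sum_mul]
                congr 1
                refine Finset.sum_congr rfl fun x _ => ?_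
                split_ifs <;> ring
              rw [Finset.sum_congr rfl e3, ← Finset.sum_div, Finset.sum_comm]
              congr 1
              refine Finset.sum_congr rfl fun x _ => ?_
              rw [← Finset.mul_sum, Finset.sum_ite_eq]
              simp only [mem_range]
            rw [e2, ← sub_div, ← Finset.sum_sub_distrib]
            congr 1
            refine Finset.sum_congr rfl fun x _ => ?_
            split_ifs <;> ring
          rw [e1]
          have h5 : ∀ x ∈ I n, 0 ≤ F n x * (if N n a x < l + 1 then 0 else s ^ N n a x) := by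
            intro x _
            refine mul_nonneg (hF0 n x) ?_
            split_ifs
            · exact le_rfl
            · positivity
          have h6 : ∀ x ∈ I n, F n x * (if N n a x < l + 1 then 0 else s ^ N n a x) ≤ s ^ (l + 1) := by
            intro x _
            have h7 : (if N n a x < l + 1 then 0 else s ^ N n a x) ≤ s ^ (l + 1) := by
              split_ifs with h8
              · positivity
              · exact pow_le_pow_of_le_one hs0.le hs1 (not_lt.1 h8)
            have h8 : 0 ≤ (if N n a x < l + 1 then 0 else s ^ N n a x) := by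
              split_ifs
              · exact le_rfl
              · positivity
            calc F n x * (if N n a x < l + 1 then 0 else s ^ N n a x) ≤
                1 * (if N n a x < l + 1 then 0 else s ^ N n a x) :=
                  mul_le_mul_of_nonneg_right (hF1 n x) h8
              _ ≤ _ := by rw [one_mul]; exact h7
          rw [abs_of_nonneg (div_nonneg (Finset.sum_nonneg h5) hcard.le), div_le_iff₀ hcard]
          refine (Finset.sum_le_sum h6).trans (le_of_eq ?_)
          rw [Finset.sum_const, nsmul_eq_mul]
          ring)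
        (fun l => poi_gen (hlam a) l)
        (by
          intro s hs0 hs1
          have h5 := ih (Function.update θ a s) (by
            intro i
            by_cases hia : i = a
            · subst hia
              rw [Function.update_self]
              exact hs0
            · rw [Function.update_of_ne hia]
              exact h0 i) (by
            intro i
            by_cases hia : i = a
            · subst hia
              rw [Function.update_self]
              exact hs1
            · rw [Function.update_of_ne hia]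
              exact h1 i)
          have e4 : ∏ i, (if i ∈ D then poi (lam i) (k i) else
              Real.exp (-((1 - Function.update θ a s i) * lam i))) =
              c * Real.exp (-((1 - s) * lam a)) := by
            rw [← Finset.mul_prod_erase _ _ (Finset.mem_univ a), if_neg ha, Function.update_self,
              mul_comm]
            congr 1
            rw [hc]
            refine Finset.prod_congr rfl fun i hi => ?_
            rw [Function.update_of_ne (Finset.ne_of_mem_erase hi)]
          rw [e4] at h5
          refine h5.congr fun n => ?_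
          congr 1
          refine Finset.sum_congr rfl fun x _ => ?_
          rw [← Finset.mul_prod_erase _ _ (Finset.mem_univ a), if_neg ha, Function.update_self,
            mul_comm]
          congr 1
          rw [hF]
          refine Finset.prod_congr rfl fun i hi => ?_
          rw [Function.update_of_ne (Finset.ne_of_mem_erase hi)])
        (k a)
      have e5 : ∏ i, (if i ∈ insert a D then poi (lam i) (k i) else
          Real.exp (-((1 - θ i) * lam i))) = c * poi (lam a) (k a) := by
        rw [← Finset.mul_prod_erase _ _ (Finset.mem_univ a), if_pos (Finset.mem_insert_self a D),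
          mul_comm]
        congr 1
        rw [hc]
        refine Finset.prod_congr rfl fun i hi => ?_
        have h6 : (i ∈ insert a D) ↔ i ∈ D := by
          rw [Finset.mem_insert]
          exact ⟨fun h7 => h7.resolve_left (Finset.ne_of_mem_erase hi), Or.inr⟩
        simp only [h6]
      rw [e5]
      refine hconv.congr fun n => ?_
      congr 1
      refine Finset.sum_congr rfl fun x _ => ?_
      rw [← Finset.mul_prod_erase _ _ (Finset.mem_univ a), if_pos (Finset.mem_insert_self a D),
        mul_comm]
      congr 1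
      rw [hF]
      refine Finset.prod_congr rfl fun i hi => ?_
      have h6 : (i ∈ insert a D) ↔ i ∈ D := by
        rw [Finset.mem_insert]
        exact ⟨fun h7 => h7.resolve_left (Finset.ne_of_mem_erase hi), Or.inr⟩
      simp only [h6]
  have hfin := key Finset.univ (fun _ => 1) (fun _ => one_pos) (fun _ => le_rfl)
  simp only [Finset.mem_univ, if_true] at hfin
  refine hfin.congr fun n => ?_
  congr 1
  rw [Finset.card_filter]
  push_cast
  refine Finset.sum_congr rfl fun x _ => ?_
  by_cases hx : ∀ i, N n i x = k i
  · rw [if_pos hx]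
    exact Finset.prod_eq_one fun i _ => if_pos (hx i)
  · rw [if_neg hx]
    obtain ⟨i, hi⟩ := not_forall.1 hx
    exact Finset.prod_eq_zero (Finset.mem_univ i) (if_neg hi)

end Pool.Agent.Zk73.LW
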