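import Mathlib
import Pool.Agent.Zk73.LW.C
import Pool.Agent.Zk73.LW.D

set_option autoImplicit false

/-!
# Pairs of exponents, shifted digits: the joint law in a cell
-/

namespace Pool.Agent.Zk73.LW

open Finset Filter Topology MeasureTheory
open Pool.Agent.N176.SH
open Pool.Agent.N176.GP (NB NB_spec NB_div)
open Pool.Agent.H305R2 (roughPart)
open Pool.Agent.N176.OW (cell kap VT)

lemma NB_eq {b : ℕ} (hb : 2 ≤ b) {β : ℝ} (hβ : 0 < β) {p n : ℕ} (h1 : (n : ℝ) < β * (b : ℝ) ^ p)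
    (h2 : β * (b : ℝ) ^ p ≤ n + 1) : NB b β p = n := by
  obtain ⟨q1, q2⟩ := NB_spec hb hβ p
  have a1 : (NB b β p : ℝ) < n + 1 := by linarith
  have a2 : (n : ℝ) < NB b β p + 1 := by linarith
  have a3 : NB b β p < n + 1 := by exact_mod_cast a1
  have a4 : n < NB b β p + 1 := by exact_mod_cast a2
  omega

open Classical in
/-- the volume of the set of amplitudes in a cell with a property of the first digits -/
lemma vol_cell {b m t j : ℕ} (hb : 2 ≤ b) (hmt : m ≤ t) (Q : ℕ → Prop) :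
    volume.real {β : ℝ | ((j : ℝ) / (b : ℝ) ^ m < β ∧ β ≤ ((j : ℝ) + 1) / (b : ℝ) ^ m) ∧ Q (NB b β t)} =
      (((cell b m t j).filter Q).card : ℝ) / (b : ℝ) ^ t := by
  have hb0 : (0 : ℝ) < b := by exact_mod_cast (by omega : 0 < b)
  have hB : b ^ t = b ^ m * b ^ (t - m) := by
    rw [← pow_add]
    congr 1
    omega
  have hBR : (b : ℝ) ^ t = (b : ℝ) ^ m * (b : ℝ) ^ (t - m) := by exact_mod_cast hB
  have hset : {β : ℝ | ((j : ℝ) / (b : ℝ) ^ m < β ∧ β ≤ ((j : ℝ) + 1) / (b : ℝ) ^ m) ∧ Q (NB b β t)} =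
      ⋃ n ∈ (cell b m t j).filter Q, Set.Ioc ((n : ℝ) / (b : ℝ) ^ t) (((n : ℝ) + 1) / (b : ℝ) ^ t) := by
    ext β
    simp only [Set.mem_ofPred_eq, Set.mem_iUnion, Set.mem_Ioc, exists_prop, mem_filter]
    constructor
    · rintro ⟨⟨h1, h2⟩, h3⟩
      have hβ : 0 < β := lt_of_le_of_lt (by positivity) h1
      obtain ⟨g1, g2⟩ := NB_spec hb hβ t
      rw [div_lt_iff₀ (by positivity)] at h1
      rw [le_div_iff₀ (by positivity)] at h2
      have hj : NB b β m = j := NB_eq hb hβ h1 h2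
      have hd := NB_div hb hβ hmt
      rw [hj] at hd
      refine ⟨NB b β t, ⟨?_, h3⟩, ?_, ?_⟩
      · unfold cell
        rw [mem_Ico]
        have h4 := Nat.div_add_mod (NB b β t) (b ^ (t - m))
        have h5 := Nat.mod_lt (NB b β t) (show 0 < b ^ (t - m) by positivity)
        rw [hd, mul_comm] at h4
        rw [add_mul, one_mul]
        obtain ⟨r', hr'⟩ : ∃ r', r' = NB b β t % b ^ (t - m) := ⟨_, rfl⟩
        obtain ⟨w, hw⟩ : ∃ w, w = j * b ^ (t - m) := ⟨_, rfl⟩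
        rw [← hr', ← hw] at h4
        rw [← hr'] at h5
        rw [← hw]
        clear hd hr' hw
        omega
      · rw [div_lt_iff₀ (by positivity)]
        exact g1
      · rw [le_div_iff₀ (by positivity)]
        exact g2
    · rintro ⟨n, ⟨hn, hQ⟩, h1, h2⟩
      have hβ : 0 < β := lt_of_le_of_lt (by positivity) h1
      unfold cell at hn
      rw [mem_Ico] at hn
      have hn1 : (j : ℝ) * (b : ℝ) ^ (t - m) ≤ n := by exact_mod_cast hn.1
      have hn2 : (n : ℝ) + 1 ≤ ((j : ℝ) + 1) * (b : ℝ) ^ (t - m) := by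
        exact_mod_cast (Nat.succ_le_of_lt hn.2)
      refine ⟨⟨lt_of_le_of_lt ?_ h1, le_trans h2 ?_⟩, ?_⟩
      · rw [div_le_div_iff₀ (by positivity) (by positivity), hBR]
        have := mul_le_mul_of_nonneg_right hn1 (show (0 : ℝ) ≤ (b : ℝ) ^ m by positivity)
        linarith
      · rw [div_le_div_iff₀ (by positivity) (by positivity), hBR]
        have := mul_le_mul_of_nonneg_right hn2 (show (0 : ℝ) ≤ (b : ℝ) ^ m by positivity)
        linarith
      · rw [div_lt_iff₀ (by positivity)] at h1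
        rw [le_div_iff₀ (by positivity)] at h2
        rw [NB_eq hb hβ h1 h2]
        exact hQ
  rw [hset, measureReal_biUnion_finset (h := fun n _ => measure_Ioc_lt_top.ne)]
  · have h5 : ∀ n ∈ (cell b m t j).filter Q,
        volume.real (Set.Ioc ((n : ℝ) / (b : ℝ) ^ t) (((n : ℝ) + 1) / (b : ℝ) ^ t)) =
          1 / (b : ℝ) ^ t := by
      intro n _
      rw [Real.volume_real_Ioc_of_le (by gcongr; linarith)]
      ring
    rw [Finset.sum_congr rfl h5, Finset.sum_const, nsmul_eq_mul]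
    ring
  · intro n _ n' _ hne
    show Disjoint (Set.Ioc ((n : ℝ) / (b : ℝ) ^ t) (((n : ℝ) + 1) / (b : ℝ) ^ t))
      (Set.Ioc ((n' : ℝ) / (b : ℝ) ^ t) (((n' : ℝ) + 1) / (b : ℝ) ^ t))
    rw [Set.disjoint_left]
    rintro β ⟨h1, h2⟩ ⟨h3, h4⟩
    have hβ : 0 < β := lt_of_le_of_lt (by positivity) h1
    rw [div_lt_iff₀ (by positivity)] at h1 h3
    rw [le_div_iff₀ (by positivity)] at h2 h4
    exact hne ((NB_eq hb hβ h1 h2).symm.trans (NB_eq hb hβ h3 h4))
  · intro n _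
    exact measurableSet_Ioc

section limit

variable {b A : ℕ} {σ : ℕ → ℤ} {r : ℕ} {T : Fin r → ℕ → Finset ℕ} {lam : Fin r → ℝ}

/-- the union of the sets -/
def Un (T : Fin r → ℕ → Finset ℕ) (n : ℕ) : Finset ℕ := Finset.univ.biUnion (fun i => T i n)

/-- the level -/
def tl (T : Fin r → ℕ → Finset ℕ) (m n : ℕ) : ℕ := 2 ^ ((Un T n).sup id + n + 1) + m

/-- the weights -/
noncomputable def wt (T : Fin r → ℕ → Finset ℕ) (θ : Fin r → ℝ) (n p : ℕ) : ℝ :=
  ∏ i, (if p ∈ T i n then θ i else 1)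

lemma wt_eq (hd : ∀ n i i', i ≠ i' → Disjoint (T i n) (T i' n)) (θ : Fin r → ℝ) {n p : ℕ} {i : Fin r}
    (hp : p ∈ T i n) : wt T θ n p = θ i := by
  classical
  unfold wt
  rw [Finset.prod_eq_single i]
  · rw [if_pos hp]
  · intro i' _ hne
    rw [if_neg]
    intro hp'
    exact Finset.disjoint_left.1 (hd n i' i hne) hp' hp
  · intro h
    exact absurd (Finset.mem_univ i) h

lemma wt_sum (hd : ∀ n i i', i ≠ i' → Disjoint (T i n) (T i' n)) (θ : Fin r → ℝ) {n p : ℕ}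
    (hp : p ∈ Un T n) : 1 - wt T θ n p = ∑ i, (1 - θ i) * (if p ∈ T i n then 1 else 0) := by
  classical
  unfold Un at hp
  rw [Finset.mem_biUnion] at hp
  obtain ⟨i, _, hi⟩ := hp
  rw [wt_eq hd θ hi, Finset.sum_eq_single i]
  · rw [if_pos hi, mul_one]
  · intro i' _ hne
    rw [if_neg, mul_zero]
    intro hp'
    exact Finset.disjoint_left.1 (hd n i' i hne) hp' hi
  · intro h
    exact absurd (Finset.mem_univ i) h

lemma sum_Un (hd : ∀ n i i', i ≠ i' → Disjoint (T i n) (T i' n)) (f : ℕ → ℝ) (n : ℕ) :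
    ∑ p ∈ Un T n, f p = ∑ i, ∑ p ∈ T i n, f p := by
  classical
  unfold Un
  rw [Finset.sum_biUnion]
  intro i _ i' _ hne
  exact hd n i i' hne

lemma Wt_Un (hd : ∀ n i i', i ≠ i' → Disjoint (T i n) (T i' n)) (θ : Fin r → ℝ) (n : ℕ) :
    Wt (wt T θ n) (Un T n) = ∑ i, (1 - θ i) * VT (T i n) := by
  unfold Wt
  rw [sum_Un hd]
  refine Finset.sum_congr rfl fun i _ => ?_
  unfold VT
  rw [Finset.mul_sum]
  refine Finset.sum_congr rfl fun p hp => ?_
  rw [wt_eq hd θ hp]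

lemma Th_Un (σ : ℕ → ℤ) (θ : Fin r → ℝ) (b t x n : ℕ) :
    Th σ (wt T θ n) (Un T n) b t x = ∏ i, θ i ^ (hits σ (T i n) b t x).card := by
  classical
  unfold Th wt
  rw [Finset.prod_comm]
  refine Finset.prod_congr rfl fun i _ => ?_
  rw [← Finset.prod_filter, Finset.prod_const]
  congr 2
  unfold hits Un
  ext p
  simp only [mem_filter, Finset.mem_biUnion, Finset.mem_univ, true_and]
  constructor
  · rintro ⟨⟨_, h2⟩, h3⟩
    exact ⟨h3, h2⟩
  · rintro ⟨h1, h2⟩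
    exact ⟨⟨⟨i, h1⟩, h2⟩, h1⟩

/-- convergence of the generating functions -/
theorem gen_limit (hE4 : S_E4) (hRB : S_RB) (hSM : S_SM) (hGC : S_GC) (hOk : Ok b A σ)
    {ρ : ℕ → ℝ} (hρ : DG b A σ ρ)
    (hη : ∀ η : ℝ, 0 < η → ∀ᶠ n in atTop, ∀ q ∈ Un T n,
      ∑ p ∈ (Un T n).filter (fun p => p ≠ q), ρ ((p - q) + (q - p)) ≤ η) (hp : ∀ i n, ∀ p ∈ T i n, p.Prime)
    (hd : ∀ n i i', i ≠ i' → Disjoint (T i n) (T i' n))
    (hmin : ∀ P : ℕ, ∀ᶠ n in atTop, ∀ i, ∀ p ∈ T i n, P ≤ p)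
    (hthin : ∀ ε : ℝ, 0 < ε → ∀ᶠ n in atTop, ∀ i, ∀ x : ℕ,
      ∑ p ∈ (T i n).filter (fun p => x < p ∧ p ≤ 2 * x), Real.log p / p ≤ ε)
    (hlam : ∀ i, Tendsto (fun n => kap b * VT (T i n)) atTop (𝓝 (lam i)))
    {m j : ℕ} (hj1 : 1 ≤ j) (hj2 : j ≤ b ^ (2 * m)) {θ : Fin r → ℝ} (h0 : ∀ i, 0 < θ i)
    (h1 : ∀ i, θ i ≤ 1) :
    Tendsto (fun n => (∑ x ∈ cell b m (tl T m n) j, ∏ i, θ i ^ (hits σ (T i n) b (tl T m n) x).card) /
      ((cell b m (tl T m n) j).card : ℝ)) atTop (𝓝 (∏ i, Real.exp (-((1 - θ i) * lam i)))) := by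
  classical
  have hb := hOk.hb
  have hbR : (2 : ℝ) ≤ b := by exact_mod_cast hb
  have hkap : 0 < kap b := by
    unfold kap
    have := Real.log_pos (by linarith : (1 : ℝ) < b)
    positivity
  obtain ⟨C, hC, P, hP⟩ := iter hE4 hRB hSM hGC hOk hρ m r
  -- the exponentials converge
  have hE : Tendsto (fun n => Real.exp (-(kap b * Wt (wt T θ n) (Un T n)))) atTop
      (𝓝 (∏ i, Real.exp (-((1 - θ i) * lam i)))) := by
    have h2 : Tendsto (fun n => ∏ i, Real.exp (-((1 - θ i) * (kap b * VT (T i n))))) atTop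
        (𝓝 (∏ i, Real.exp (-((1 - θ i) * lam i)))) := by
      refine tendsto_finsetProd _ fun i _ => ?_
      exact (Real.continuous_exp.tendsto _).comp ((hlam i).const_mul _).neg
    refine h2.congr fun n => ?_
    rw [← Real.exp_sum, Wt_Un hd]
    congr 1
    rw [Finset.mul_sum, ← Finset.sum_neg_distrib]
    refine Finset.sum_congr rfl fun i _ => ?_
    ring
  -- the total weight converges
  have hV : Tendsto (fun n => VT (Un T n)) atTop (𝓝 (∑ i, (kap b)⁻¹ * lam i)) := by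
    have h2 : Tendsto (fun n => ∑ i, (kap b)⁻¹ * (kap b * VT (T i n))) atTop
        (𝓝 (∑ i, (kap b)⁻¹ * lam i)) :=
      tendsto_finsetSum _ fun i _ => (hlam i).const_mul _
    refine h2.congr fun n => ?_
    have h3 : VT (Un T n) = ∑ i, VT (T i n) := sum_Un hd (fun p => Real.log p / p) n
    rw [h3]
    refine Finset.sum_congr rfl fun i _ => ?_
    field_simp
  obtain ⟨Λ, hΛ⟩ : ∃ Λ, Λ = |∑ i, (kap b)⁻¹ * lam i| + 1 := ⟨_, rfl⟩
  have hΛ1 : 1 ≤ Λ := by
    have := abs_nonneg (∑ i, (kap b)⁻¹ * lam i)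
    linarith
  have hVΛ : ∀ᶠ n in atTop, VT (Un T n) ≤ Λ := by
    have h2 : ∑ i, (kap b)⁻¹ * lam i < Λ := by
      have := le_abs_self (∑ i, (kap b)⁻¹ * lam i)
      linarith
    filter_upwards [hV.eventually (gt_mem_nhds h2)] with n hn
    exact hn.le
  -- the difference tends to zero
  have hdiff : Tendsto (fun n => (∑ x ∈ cell b m (tl T m n) j,
      ∏ i, θ i ^ (hits σ (T i n) b (tl T m n) x).card) / ((cell b m (tl T m n) j).card : ℝ) -
      Real.exp (-(kap b * Wt (wt T θ n) (Un T n)))) atTop (𝓝 0) := by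
    rw [Metric.tendsto_atTop]
    intro ε hε
    -- the choice of the parameters
    obtain ⟨i0, hi0⟩ := exists_nat_gt (6 * C * (Λ + 1) / ε)
    set i1 : ℕ := i0 + P + 1 with hi1
    have hi1R : 6 * C * (Λ + 1) / ε < i1 := by
      refine hi0.trans_le ?_
      exact_mod_cast (by omega : i0 ≤ i1)
    have hi1pos : (0 : ℝ) < i1 := by exact_mod_cast (by omega : 0 < i1)
    obtain ⟨δ, hδ⟩ : ∃ δ, δ = min (1 / (i1 : ℝ)) (1 / kap b) := ⟨_, rfl⟩
    have hδ0 : 0 < δ := by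
      rw [hδ]
      exact lt_min (by positivity) (by positivity)
    have hδ1 : δ ≤ 1 / i1 := hδ ▸ min_le_left _ _
    have hδ2 : kap b * δ ≤ 1 := by
      calc kap b * δ ≤ kap b * (1 / kap b) :=
            mul_le_mul_of_nonneg_left (hδ ▸ min_le_right _ _) hkap.le
        _ = 1 := by field_simp
    have hr : (0 : ℝ) < (r : ℝ) + 1 := by positivity
    have hev := (hthin (δ / ((r : ℝ) + 1)) (by positivity)).and ((hmin (2 ^ i1 + 1)).and
      (hVΛ.and ((eventually_ge_atTop i1).and (hη (1 / (i1 : ℝ)) (by positivity)))))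
    obtain ⟨n0, hn0⟩ := Filter.eventually_atTop.1 hev
    refine ⟨n0, fun n hn => ?_⟩
    obtain ⟨g1, g2, g3, g4, g5⟩ := hn0 n hn
    obtain ⟨J, hJ⟩ : ∃ J, J = (Un T n).sup id + n := ⟨_, rfl⟩
    obtain ⟨t, ht⟩ : ∃ t, t = tl T m n := ⟨_, rfl⟩
    have htJ : t = 2 ^ (J + 1) + m := by rw [ht, hJ]; rfl
    rw [← ht]
    have hUp : ∀ p ∈ Un T n, p.Prime ∧ 2 ^ i1 < p ∧ p ≤ 2 ^ J := by
      intro p hp'
      have h5 : p ≤ (Un T n).sup id := Finset.le_sup (f := id) hp'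
      have h6 : J < 2 ^ J := Nat.lt_two_pow_self
      unfold Un at hp'
      rw [Finset.mem_biUnion] at hp'
      obtain ⟨i, _, hi⟩ := hp'
      have h7 := g2 i p hi
      exact ⟨hp i n p hi, by omega, by omega⟩
    have hblock : ∀ i, VT (Bt (Un T n) (2 ^ i) (2 ^ (i + 1))) ≤ δ := by
      intro i
      have h5 : VT (Bt (Un T n) (2 ^ i) (2 ^ (i + 1))) =
          ∑ l, ∑ p ∈ (T l n).filter (fun p => 2 ^ i < p ∧ p ≤ 2 * 2 ^ i), Real.log p / p := by
        unfold VT Bt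
        rw [Finset.sum_filter, sum_Un hd]
        refine Finset.sum_congr rfl fun l _ => ?_
        rw [Finset.sum_filter]
        have e : 2 ^ (i + 1) = 2 * 2 ^ i := by ring
        rw [e]
      rw [h5]
      calc ∑ l, ∑ p ∈ (T l n).filter (fun p => 2 ^ i < p ∧ p ≤ 2 * 2 ^ i), Real.log p / p
          ≤ ∑ _l : Fin r, δ / ((r : ℝ) + 1) := Finset.sum_le_sum fun l _ => g1 l (2 ^ i)
        _ = r * (δ / ((r : ℝ) + 1)) := by
            rw [Finset.sum_const, Finset.card_univ, Fintype.card_fin, nsmul_eq_mul]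
        _ ≤ δ := by
            rw [mul_div_assoc', div_le_iff₀ hr]
            nlinarith
    have h0' : ∀ p, 0 ≤ wt T θ n p := by
      intro p
      unfold wt
      refine Finset.prod_nonneg fun i _ => ?_
      split_ifs
      · exact (h0 i).le
      · exact zero_le_one
    have h1' : ∀ p, wt T θ n p ≤ 1 := by
      intro p
      unfold wt
      refine Finset.prod_le_one (fun i _ => ?_) fun i _ => ?_
      · split_ifs
        · exact (h0 i).le
        · exact zero_le_one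
      · split_ifs
        · exact h1 i
        · exact le_rfl
    have hmain := hP i1 (by omega) J (by omega) (Un T n) hUp (1 / (i1 : ℝ)) (by positivity) g5 (wt T θ n) h0' h1'
      (fun i => 1 - θ i) (fun i => T i n) (fun i => by linarith [h1 i]) (fun i => by linarith [h0 i])
      (fun p hp' => wt_sum hd θ hp') δ hblock hδ2 t (by omega) j hj1 hj2
    have hM0 : 0 < (b : ℝ) ^ (t - m) := by positivity
    rw [Real.dist_eq, sub_zero, card_cell]
    have e1 : ∑ x ∈ cell b m t j, ∏ i, θ i ^ (hits σ (T i n) b t x).card =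
        ∑ x ∈ cell b m t j, Th σ (wt T θ n) (Un T n) b t x :=
      Finset.sum_congr rfl fun x _ => (Th_Un σ θ b t x n).symm
    rw [e1]
    have e2 : (∑ x ∈ cell b m t j, Th σ (wt T θ n) (Un T n) b t x) / (b : ℝ) ^ (t - m) -
        Real.exp (-(kap b * Wt (wt T θ n) (Un T n))) =
        (∑ x ∈ cell b m t j, Th σ (wt T θ n) (Un T n) b t x -
        Real.exp (-(kap b * Wt (wt T θ n) (Un T n))) * (b : ℝ) ^ (t - m)) / (b : ℝ) ^ (t - m) := by
      field_simp
    rw [e2, abs_div, abs_of_pos hM0, div_lt_iff₀ hM0]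
    refine lt_of_le_of_lt hmain ?_
    refine mul_lt_mul_of_pos_right ?_ hM0
    have hVn : 0 ≤ VT (Un T n) := VT_nonneg _
    have h5 : (δ + (1 / i1 + 1 / i1)) * VT (Un T n) + 1 / i1 ≤ 3 * (Λ + 1) * (1 / i1) := by
      have h6 : (0 : ℝ) < 1 / i1 := by positivity
      have h7 : (δ + (1 / i1 + 1 / i1)) * VT (Un T n) ≤ (3 * (1 / i1)) * Λ :=
        mul_le_mul (by linarith) g3 hVn (by positivity)
      linarith
    calc C * ((δ + (1 / i1 + 1 / i1)) * VT (Un T n) + 1 / i1) ≤ C * (3 * (Λ + 1) * (1 / i1)) :=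
          mul_le_mul_of_nonneg_left h5 hC.le
      _ < ε := by
          rw [div_lt_iff₀ hε] at hi1R
          have h7 : C * (3 * (Λ + 1) * (1 / i1)) = (3 * C * (Λ + 1)) / i1 := by ring
          rw [h7, div_lt_iff₀ hi1pos]
          have h8 : 0 < C * (Λ + 1) := by positivity
          nlinarith
  have h2 := hdiff.add hE
  rw [zero_add] at h2
  refine h2.congr fun n => ?_
  ring

/-- the joint law in a cell -/
theorem cell_limit (hE4 : S_E4) (hRB : S_RB) (hSM : S_SM) (hGC : S_GC) (hOk : Ok b A σ)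
    {ρ : ℕ → ℝ} (hρ : DG b A σ ρ)
    (hη : ∀ η : ℝ, 0 < η → ∀ᶠ n in atTop, ∀ q ∈ Un T n,
      ∑ p ∈ (Un T n).filter (fun p => p ≠ q), ρ ((p - q) + (q - p)) ≤ η) (hp : ∀ i n, ∀ p ∈ T i n, p.Prime)
    (hd : ∀ n i i', i ≠ i' → Disjoint (T i n) (T i' n))
    (hmin : ∀ P : ℕ, ∀ᶠ n in atTop, ∀ i, ∀ p ∈ T i n, P ≤ p)
    (hthin : ∀ ε : ℝ, 0 < ε → ∀ᶠ n in atTop, ∀ i, ∀ x : ℕ,
      ∑ p ∈ (T i n).filter (fun p => x < p ∧ p ≤ 2 * x), Real.log p / p ≤ ε)
    (hlam : ∀ i, Tendsto (fun n => kap b * VT (T i n)) atTop (𝓝 (lam i)))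
    {m j : ℕ} (hj1 : 1 ≤ j) (hj2 : j ≤ b ^ (2 * m)) (k : Fin r → ℕ) :
    Tendsto (fun n => volume.real {β : ℝ | ((j : ℝ) / (b : ℝ) ^ m < β ∧
      β ≤ ((j : ℝ) + 1) / (b : ℝ) ^ m) ∧ ∀ i, (hits σ (T i n) b (tl T m n)
        (NB b β (tl T m n))).card = k i}) atTop
      (𝓝 ((1 / (b : ℝ) ^ m) * ∏ i, poi (lam i) (k i))) := by
  classical
  have hb := hOk.hb
  have hb0 : (0 : ℝ) < b := by exact_mod_cast (by omega : 0 < b)
  have hkap : 0 < kap b := by
    unfold kap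
    have hbR : (2 : ℝ) ≤ b := by exact_mod_cast hb
    have := Real.log_pos (by linarith : (1 : ℝ) < b)
    positivity
  have hlam0 : ∀ i, 0 ≤ lam i := fun i =>
    ge_of_tendsto' (hlam i) fun n => mul_nonneg hkap.le (VT_nonneg _)
  have hI : ∀ n, (cell b m (tl T m n) j).Nonempty := by
    intro n
    unfold cell
    rw [Finset.nonempty_Ico]
    exact Nat.mul_lt_mul_of_pos_right (Nat.lt_succ_self j) (by positivity)
  have h := joint (fun n => cell b m (tl T m n) j) hI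
    (fun n i x => (hits σ (T i n) b (tl T m n) x).card) lam hlam0
    (fun θ h0 h1 => gen_limit hE4 hRB hSM hGC hOk hρ hη hp hd hmin hthin hlam hj1 hj2 h0 h1) k
  have h2 := h.const_mul (1 / (b : ℝ) ^ m)
  refine h2.congr fun n => ?_
  have hmt : m ≤ tl T m n := Nat.le_add_left _ _
  have h3 := vol_cell (j := j) hb hmt (fun x => ∀ i, (hits σ (T i n) b (tl T m n) x).card = k i)
  rw [h3, card_cell]
  have e : (b : ℝ) ^ (tl T m n) = (b : ℝ) ^ m * (b : ℝ) ^ (tl T m n - m) := by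
    rw [← pow_add, Nat.add_sub_cancel' hmt]
  rw [e]
  field_simp
  congr!

end limit

end Pool.Agent.Zk73.LW
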