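import Mathlib
import Pool.Agent.Zk73.LW.E
import Pool.Agent.N372.SH.OKP

set_option autoImplicit false

/-!
# Pairs of exponents: from the cells to all measurable sets
-/

namespace Pool.Agent.Zk73.LW

open Finset Filter Topology MeasureTheory
open Pool.Agent.N176.SH
open Pool.Agent.N176.GP (NB NB_spec NB_div)
open Pool.Agent.H305R2 (roughPart)
open Pool.Agent.N176.OW (cell kap VT)

/-- the cell -/
def Cl (b m j : ℕ) : Set ℝ := Set.Ioc ((j : ℝ) / (b : ℝ) ^ m) (((j : ℝ) + 1) / (b : ℝ) ^ m)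

lemma Cl_vol {b m j : ℕ} (hb : 2 ≤ b) : volume.real (Cl b m j) = 1 / (b : ℝ) ^ m := by
  have hb0 : (0 : ℝ) < b := by exact_mod_cast (by omega : 0 < b)
  unfold Cl
  rw [Real.volume_real_Ioc_of_le (by gcongr; linarith)]
  ring

lemma Cl_disj {b m j j' : ℕ} (hb : 2 ≤ b) (hne : j ≠ j') : Disjoint (Cl b m j) (Cl b m j') := by
  have hb0 : (0 : ℝ) < b := by exact_mod_cast (by omega : 0 < b)
  rw [Set.disjoint_left]
  rintro β ⟨h1, h2⟩ ⟨h3, h4⟩
  have hβ : 0 < β := lt_of_le_of_lt (by positivity) h1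
  rw [div_lt_iff₀ (by positivity)] at h1 h3
  rw [le_div_iff₀ (by positivity)] at h2 h4
  exact hne ((NB_eq hb hβ h1 h2).symm.trans (NB_eq hb hβ h3 h4))

open Classical in
/-- the union of the cells in a set -/
noncomputable def In (b : ℕ) (O : Set ℝ) (m : ℕ) : Finset ℕ :=
  (Icc 1 (b ^ (2 * m))).filter (fun j => Cl b m j ⊆ O)

/-- the union of the cells in a set -/
def Fm (b : ℕ) (O : Set ℝ) (m : ℕ) : Set ℝ := ⋃ j ∈ In b O m, Cl b m j

lemma Fm_sub (b : ℕ) (O : Set ℝ) (m : ℕ) : Fm b O m ⊆ O := by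
  unfold Fm In
  intro x hx
  simp only [Set.mem_iUnion, mem_filter] at hx
  obtain ⟨j, hj, hx⟩ := hx
  exact hj.2 hx

lemma Fm_meas (b : ℕ) (O : Set ℝ) (m : ℕ) : MeasurableSet (Fm b O m) :=
  Finset.measurableSet_biUnion _ fun _ _ => measurableSet_Ioc

lemma Fm_mem {b : ℕ} (hb : 2 ≤ b) {O : Set ℝ} (hO : IsOpen O) {x : ℝ} (hx0 : 0 < x) (hx : x ∈ O) :
    ∀ᶠ m in atTop, x ∈ Fm b O m := by
  classical
  have hbR : (1 : ℝ) < b := by exact_mod_cast (by omega : 1 < b)
  have hb0 : (0 : ℝ) < b := by linarith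
  obtain ⟨δ, hδ, hball⟩ := Metric.isOpen_iff.1 hO x hx
  have h1 : Tendsto (fun m : ℕ => (b : ℝ) ^ m) atTop atTop := tendsto_pow_atTop_atTop_of_one_lt hbR
  filter_upwards [h1.eventually_gt_atTop (1 / δ), h1.eventually_gt_atTop (1 / x),
    h1.eventually_ge_atTop x] with m g1 g2 g3
  have hbm : (0 : ℝ) < (b : ℝ) ^ m := by positivity
  rw [div_lt_iff₀ hδ] at g1
  rw [div_lt_iff₀ hx0] at g2
  obtain ⟨q1, q2⟩ := NB_spec hb hx0 m
  obtain ⟨j, hj⟩ : ∃ j, j = NB b x m := ⟨_, rfl⟩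
  rw [← hj] at q1 q2
  have hxcl : x ∈ Cl b m j := ⟨(div_lt_iff₀ hbm).2 q1, (le_div_iff₀ hbm).2 q2⟩
  unfold Fm
  simp only [Set.mem_iUnion]
  refine ⟨j, ?_, hxcl⟩
  unfold In
  rw [mem_filter, mem_Icc]
  refine ⟨⟨?_, ?_⟩, ?_⟩
  · have h3 : (0 : ℝ) < j := by linarith [mul_comm x ((b : ℝ) ^ m)]
    exact_mod_cast h3
  · have h3 : (j : ℝ) ≤ ((b ^ (2 * m) : ℕ) : ℝ) := by
      push_cast
      calc (j : ℝ) ≤ x * (b : ℝ) ^ m := q1.le
        _ ≤ (b : ℝ) ^ m * (b : ℝ) ^ m := mul_le_mul_of_nonneg_right g3 hbm.le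
        _ = (b : ℝ) ^ (2 * m) := by
          rw [← pow_add]
          congr 1
          omega
    exact_mod_cast h3
  · intro y hy
    refine hball ?_
    rw [Metric.mem_ball, Real.dist_eq]
    obtain ⟨y1, y2⟩ := hy
    obtain ⟨x1, x2⟩ := hxcl
    have e : ((j : ℝ) + 1) / (b : ℝ) ^ m = (j : ℝ) / (b : ℝ) ^ m + 1 / (b : ℝ) ^ m := by ring
    have h4 : |y - x| < 1 / (b : ℝ) ^ m := by
      rw [abs_lt]
      constructor <;> linarith
    refine h4.trans ?_
    rw [div_lt_iff₀ hbm]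
    linarith

/-- from the cells to all measurable sets -/
theorem transfer {b : ℕ} (hb : 2 ≤ b) (A : ℕ → Set ℝ) {c : ℝ} (hc0 : 0 ≤ c) (hc1 : c ≤ 1)
    (h : ∀ m j : ℕ, 1 ≤ j → j ≤ b ^ (2 * m) →
      Tendsto (fun n => volume.real (Cl b m j ∩ A n)) atTop (𝓝 ((1 / (b : ℝ) ^ m) * c)))
    {E : Set ℝ} (hE : MeasurableSet E) (hE0 : E ⊆ Set.Ioi 0) (hEf : volume E ≠ ⊤) :
    Tendsto (fun n => volume.real (E ∩ A n)) atTop (𝓝 (volume.real E * c)) := by
  classical
  rw [Metric.tendsto_atTop]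
  intro ε hε
  obtain ⟨U, hUE, hUo, hUf, hUd⟩ := hE.exists_isOpen_sdiff_lt hEf
    (ε := ENNReal.ofReal (ε / 8)) (by simpa using hε)
  obtain ⟨O, hO⟩ : ∃ O, O = U ∩ Set.Ioi (0 : ℝ) := ⟨_, rfl⟩
  have hOo : IsOpen O := hO ▸ hUo.inter isOpen_Ioi
  have hEO : E ⊆ O := hO ▸ Set.subset_inter hUE hE0
  have hOU : O ⊆ U := hO ▸ Set.inter_subset_left
  have hOf : volume O < ⊤ := (measure_mono hOU).trans_lt hUf
  have hOd : volume (O \ E) < ENNReal.ofReal (ε / 8) :=
    (measure_mono (Set.sdiff_subset_sdiff_left hOU)).trans_lt hUd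
  have hlim : Tendsto (fun m => volume (O \ Fm b O m)) atTop (𝓝 (volume (∅ : Set ℝ))) := by
    refine tendsto_measure_of_tendsto_indicator atTop
      (fun m => hOo.measurableSet.diff (Fm_meas b O m)) hOo.measurableSet hOf.ne
      (Eventually.of_forall fun m => Set.sdiff_subset) fun x => ?_
    by_cases hx : x ∈ O
    · have hx0 : 0 < x := by
        rw [hO] at hx
        exact hx.2
      filter_upwards [Fm_mem hb hOo hx0 hx] with m hm
      simp [hm]
    · exact Eventually.of_forall fun m => by simp [hx]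
  rw [measure_empty] at hlim
  have hlt : (0 : ENNReal) < ENNReal.ofReal (ε / 8) := by simpa using hε
  obtain ⟨m, hm⟩ := (hlim.eventually (gt_mem_nhds hlt)).exists
  obtain ⟨F, hF⟩ : ∃ F, F = Fm b O m := ⟨_, rfl⟩
  rw [← hF] at hm
  have hFO : F ⊆ O := hF ▸ Fm_sub b O m
  have hFmeas : MeasurableSet F := hF ▸ Fm_meas b O m
  have hFf : volume F < ⊤ := (measure_mono hFO).trans_lt hOf
  have r1 : volume.real (E \ F) ≤ ε / 8 := by
    have : volume (E \ F) ≤ ENNReal.ofReal (ε / 8) :=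
      (measure_mono (Set.sdiff_subset_sdiff_left hEO)).trans hm.le
    exact ENNReal.toReal_le_of_le_ofReal (by positivity) this
  have r2 : volume.real (F \ E) ≤ ε / 8 := by
    have : volume (F \ E) ≤ ENNReal.ofReal (ε / 8) :=
      (measure_mono (Set.sdiff_subset_sdiff_left hFO)).trans hOd.le
    exact ENNReal.toReal_le_of_le_ofReal (by positivity) this
  have gen : ∀ {X Y S : Set ℝ}, volume X ≠ ⊤ → volume Y ≠ ⊤ →
      volume.real (X ∩ S) ≤ volume.real (Y ∩ S) + volume.real (X \ Y) := by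
    intro X Y S hX hY
    have h1 : X ∩ S ⊆ (Y ∩ S) ∪ (X \ Y) := by
      rintro x ⟨hx1, hx2⟩
      by_cases hy : x ∈ Y
      · exact Or.inl ⟨hy, hx2⟩
      · exact Or.inr ⟨hx1, hy⟩
    refine (measureReal_mono h1 ?_).trans (measureReal_union_le _ _)
    refine ne_top_of_le_ne_top ?_ (measure_union_le _ _)
    rw [ENNReal.add_ne_top]
    exact ⟨ne_top_of_le_ne_top hY (measure_mono Set.inter_subset_left),
      ne_top_of_le_ne_top hX (measure_mono Set.sdiff_subset)⟩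
  -- the sum over the cells
  have hsumA : ∀ S : Set ℝ, volume.real (F ∩ S) = ∑ j ∈ In b O m, volume.real (Cl b m j ∩ S) := by
    intro S
    rw [← measureReal_restrict_apply hFmeas, hF]
    unfold Fm
    rw [measureReal_biUnion_finset (fun j _ j' _ hne => Cl_disj hb hne)
      (fun j _ => measurableSet_Ioc)
      (fun j _ => ((Measure.restrict_apply_le _ _).trans_lt measure_Ioc_lt_top).ne)]
    refine Finset.sum_congr rfl fun j _ => ?_
    exact measureReal_restrict_apply (show MeasurableSet (Cl b m j) from measurableSet_Ioc)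
  have hF1 : volume.real F = ∑ _j ∈ In b O m, 1 / (b : ℝ) ^ m := by
    have := hsumA Set.univ
    rw [Set.inter_univ] at this
    rw [this]
    refine Finset.sum_congr rfl fun j _ => ?_
    rw [Set.inter_univ, Cl_vol hb]
  have hlimF : Tendsto (fun n => volume.real (F ∩ A n)) atTop (𝓝 (volume.real F * c)) := by
    have h1 : Tendsto (fun n => ∑ j ∈ In b O m, volume.real (Cl b m j ∩ A n)) atTop
        (𝓝 (∑ _j ∈ In b O m, (1 / (b : ℝ) ^ m) * c)) := by
      refine tendsto_finsetSum _ fun j hj => ?_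
      unfold In at hj
      rw [mem_filter, mem_Icc] at hj
      exact h m j hj.1.1 hj.1.2
    rw [← Finset.sum_mul, ← hF1] at h1
    exact h1.congr fun n => (hsumA (A n)).symm
  obtain ⟨N, hN⟩ := (Metric.tendsto_atTop.1 hlimF) (ε / 4) (by positivity)
  refine ⟨N, fun n hn => ?_⟩
  have h1 := hN n hn
  rw [Real.dist_eq] at h1 ⊢
  have g1 := gen (S := A n) hEf hFf.ne
  have g2 := gen (S := A n) hFf.ne hEf
  have g3 := gen (S := Set.univ) hEf hFf.ne
  have g4 := gen (S := Set.univ) hFf.ne hEf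
  rw [Set.inter_univ, Set.inter_univ] at g3 g4
  have k1 : |volume.real (E ∩ A n) - volume.real (F ∩ A n)| ≤ ε / 8 := by
    rw [abs_le]
    constructor <;> linarith
  have k2 : |volume.real F * c - volume.real E * c| ≤ ε / 8 := by
    rw [← sub_mul, abs_mul, abs_of_nonneg hc0]
    have : |volume.real F - volume.real E| ≤ ε / 8 := by
      rw [abs_le]
      constructor <;> linarith
    calc |volume.real F - volume.real E| * c ≤ |volume.real F - volume.real E| * 1 :=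
          mul_le_mul_of_nonneg_left hc1 (abs_nonneg _)
      _ ≤ ε / 8 := by rw [mul_one]; exact this
  have e : volume.real (E ∩ A n) - volume.real E * c =
      (volume.real (E ∩ A n) - volume.real (F ∩ A n)) +
      (volume.real (F ∩ A n) - volume.real F * c) + (volume.real F * c - volume.real E * c) := by ring
  rw [e]
  calc _ ≤ |volume.real (E ∩ A n) - volume.real (F ∩ A n)| +
      |volume.real (F ∩ A n) - volume.real F * c| + |volume.real F * c - volume.real E * c| :=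
        (abs_add_le _ _).trans (add_le_add (abs_add_le _ _) le_rfl)
    _ < ε := by linarith

lemma poi_nonneg {l : ℝ} (hl : 0 ≤ l) (k : ℕ) : 0 ≤ poi l k := by
  unfold poi
  positivity

lemma poi_le {l : ℝ} (hl : 0 ≤ l) (k : ℕ) : poi l k ≤ 1 := by
  unfold poi
  have h1 : l ^ k / (k.factorial : ℝ) ≤ Real.exp l := Real.pow_div_factorial_le_exp l hl k
  calc Real.exp (-l) * l ^ k / (k.factorial : ℝ) = Real.exp (-l) * (l ^ k / (k.factorial : ℝ)) := by ring
    _ ≤ Real.exp (-l) * Real.exp l := mul_le_mul_of_nonneg_left h1 (Real.exp_pos _).le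
    _ = 1 := by rw [← Real.exp_add, neg_add_cancel, Real.exp_zero]

/-- the shifts of a pair with `2 ≤ |b|` are not degenerate -/
lemma nd_cc {a : ℕ} {b : ℤ} (hb : 2 ≤ |b|) (hba : |b| < a) {A : ℕ} (hOk : Ok a A (cc a b)) :
    ND a A (cc a b) := by
  obtain ⟨q, hq⟩ : ∃ q : ℕ, q = a + b.natAbs := ⟨_, rfl⟩
  have hab : (0 : ℝ) < (a : ℝ) - b := by
    have h1 : b < (a : ℤ) := (abs_lt.1 hba).2
    have h2 : (b : ℝ) < (a : ℝ) := by exact_mod_cast h1
    linarith
  have hB2 : 2 ≤ b.natAbs := by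
    rw [Int.abs_eq_natAbs] at hb
    exact_mod_cast hb
  have hBq : q < b.natAbs ^ q :=
    lt_of_lt_of_le Nat.lt_two_pow_self (Nat.pow_le_pow_left hB2 q)
  have hpow : ((a : ℝ) - b) < (|b| : ℝ) ^ q := by
    have h1 : ((b.natAbs : ℕ) : ℝ) = |(b : ℝ)| := by
      rw [← Int.cast_abs, Int.abs_eq_natAbs]
      simp
    have h2 : ((q : ℕ) : ℝ) < ((b.natAbs ^ q : ℕ) : ℝ) := by exact_mod_cast hBq
    push_cast at h2
    rw [hq] at h2
    push_cast at h2
    have h3 : -(b : ℝ) ≤ |(b : ℝ)| := neg_le_abs _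
    rw [← hq] at h2
    have h4 : (a : ℝ) - b ≤ a + |(b : ℝ)| := by linarith
    simp only [Nat.cast_natAbs, Int.cast_abs] at h2
    linarith
  have hc : cc a b q ≠ 0 ∧ cc a b q ≠ 1 := by
    unfold cc
    split_ifs with h0
    · have h1 : 1 < ⌈(b : ℝ) ^ q / ((a : ℝ) - b)⌉ := by
        rw [Int.lt_ceil]
        push_cast
        rw [lt_div_iff₀ hab, one_mul]
        have h2 : |(b : ℝ)| = b := abs_of_pos (by exact_mod_cast h0)
        rw [h2] at hpow
        exact hpow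
      constructor <;> omega
    · have h1 : 1 ≤ ⌊(|b| : ℝ) ^ q / ((a : ℝ) - b)⌋ := by
        rw [Int.le_floor]
        push_cast
        rw [le_div_iff₀ hab, one_mul]
        exact hpow.le
      constructor <;> omega
  rcases hOk.deg with h | h | h
  · exact absurd (h q) hc.1
  · exact absurd (h q) hc.2
  · exact h

lemma geoD {g : ℕ} {D : Finset ℕ} (hD : ∀ d ∈ D, g ≤ d) : ∑ d ∈ D, (1 / 2 : ℝ) ^ d ≤ 2 * (1 / 2) ^ g := by
  have h1 : D ⊆ Ico g (g + (D.sup id + 1)) := by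
    intro d hd
    have h2 : d ≤ D.sup id := Finset.le_sup (f := id) hd
    have h3 := hD d hd
    rw [mem_Ico]
    omega
  calc ∑ d ∈ D, (1 / 2 : ℝ) ^ d ≤ ∑ d ∈ Ico g (g + (D.sup id + 1)), (1 / 2 : ℝ) ^ d :=
        Finset.sum_le_sum_of_subset_of_nonneg h1 fun _ _ _ => by positivity
    _ = (1 / 2 : ℝ) ^ g * ∑ d ∈ range (D.sup id + 1), (1 / 2 : ℝ) ^ d := by
        rw [Finset.sum_Ico_eq_sum_range, Nat.add_sub_cancel_left, Finset.mul_sum]
        exact Finset.sum_congr rfl fun d _ => by rw [pow_add]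
    _ ≤ (1 / 2 : ℝ) ^ g * 2 := mul_le_mul_of_nonneg_left (sum_geometric_two_le _) (by positivity)
    _ = _ := by ring

lemma geo {g q : ℕ} {S : Finset ℕ} (hS : ∀ p ∈ S, p ≠ q → g ≤ (p - q) + (q - p)) :
    ∑ p ∈ S.filter (fun p => p ≠ q), (1 / 2 : ℝ) ^ ((p - q) + (q - p)) ≤ 4 * (1 / 2) ^ g := by
  classical
  have h1 := Finset.sum_filter_add_sum_filter_not (S.filter (fun p => p ≠ q)) (fun p => p < q)
    (fun p => (1 / 2 : ℝ) ^ ((p - q) + (q - p)))
  have h2 : ∑ p ∈ (S.filter (fun p => p ≠ q)).filter (fun p => p < q),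
      (1 / 2 : ℝ) ^ ((p - q) + (q - p)) ≤ 2 * (1 / 2) ^ g := by
    have e : ∑ p ∈ (S.filter (fun p => p ≠ q)).filter (fun p => p < q),
        (1 / 2 : ℝ) ^ ((p - q) + (q - p)) =
        ∑ d ∈ ((S.filter (fun p => p ≠ q)).filter (fun p => p < q)).image
          (fun p => (p - q) + (q - p)), (1 / 2 : ℝ) ^ d := by
      rw [Finset.sum_image]
      intro p hp p' hp' he
      simp only [Finset.coe_filter, mem_filter, Set.mem_ofPred_eq] at hp hp' he
      omega
    rw [e]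
    refine geoD fun d hd => ?_
    rw [mem_image] at hd
    obtain ⟨p, hp, rfl⟩ := hd
    rw [mem_filter, mem_filter] at hp
    exact hS p hp.1.1 hp.1.2
  have h3 : ∑ p ∈ (S.filter (fun p => p ≠ q)).filter (fun p => ¬ p < q),
      (1 / 2 : ℝ) ^ ((p - q) + (q - p)) ≤ 2 * (1 / 2) ^ g := by
    have e : ∑ p ∈ (S.filter (fun p => p ≠ q)).filter (fun p => ¬ p < q),
        (1 / 2 : ℝ) ^ ((p - q) + (q - p)) =
        ∑ d ∈ ((S.filter (fun p => p ≠ q)).filter (fun p => ¬ p < q)).image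
          (fun p => (p - q) + (q - p)), (1 / 2 : ℝ) ^ d := by
      rw [Finset.sum_image]
      intro p hp p' hp' he
      simp only [Finset.coe_filter, mem_filter, Set.mem_ofPred_eq] at hp hp' he
      omega
    rw [e]
    refine geoD fun d hd => ?_
    rw [mem_image] at hd
    obtain ⟨p, hp, rfl⟩ := hd
    rw [mem_filter, mem_filter] at hp
    exact hS p hp.1.1 hp.1.2
  linarith

/-- the joint law -/
theorem law {a : ℕ} {b : ℤ} (hb : 1 ≤ |b|) (hba : |b| < a) {r : ℕ} {T : Fin r → ℕ → Finset ℕ}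
    {lam : Fin r → ℝ} (hp : ∀ i n, ∀ p ∈ T i n, p.Prime)
    (hd : ∀ n i i', i ≠ i' → Disjoint (T i n) (T i' n))
    (hmin : ∀ P : ℕ, ∀ᶠ n in atTop, ∀ i, ∀ p ∈ T i n, P ≤ p)
    (hthin : ∀ ε : ℝ, 0 < ε → ∀ᶠ n in atTop, ∀ i, ∀ x : ℕ,
      ∑ p ∈ (T i n).filter (fun p => x < p ∧ p ≤ 2 * x), Real.log p / p ≤ ε)
    (hgap : |b| = 1 → ∀ g : ℕ, ∀ᶠ n in atTop, ∀ i i', ∀ p ∈ T i n, ∀ q ∈ T i' n, p < q → g ≤ q - p)
    (hlam : ∀ i, Tendsto (fun n => kap a * VT (T i n)) atTop (𝓝 (lam i))) (k : Fin r → ℕ)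
    {E : Set ℝ} (hE : MeasurableSet E) (hE0 : E ⊆ Set.Ioi 0) (hEf : volume E ≠ ⊤) :
    Tendsto (fun n => volume.real (E ∩
      {β : ℝ | ∀ i, ((T i n).filter (fun p => (WW a b β p).Prime)).card = k i})) atTop
      (𝓝 (volume.real E * ∏ i, poi (lam i) (k i))) := by
  classical
  obtain ⟨A, hOk⟩ := Pool.Agent.N372.SH.okp a b hb hba
  have ha2 : 2 ≤ a := hOk.hb
  have haR : (2 : ℝ) ≤ a := by exact_mod_cast ha2
  have hkap : 0 < kap a := by
    unfold kap
    have := Real.log_pos (by linarith : (1 : ℝ) < a)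
    positivity
  have hlam0 : ∀ i, 0 ≤ lam i := fun i =>
    ge_of_tendsto' (hlam i) fun n => mul_nonneg hkap.le (VT_nonneg _)
  obtain ⟨ρ, hρ, hη⟩ : ∃ ρ : ℕ → ℝ, DG a A (cc a b) ρ ∧
      ∀ η : ℝ, 0 < η → ∀ᶠ n in atTop, ∀ q ∈ Un T n,
        ∑ p ∈ (Un T n).filter (fun p => p ≠ q), ρ ((p - q) + (q - p)) ≤ η := by
    rcases lt_or_ge 1 |b| with h2 | h2
    · refine ⟨fun _ => 0, dg_nd ha2 (nd_cc (by omega) hba hOk), fun η hη => ?_⟩
      refine Eventually.of_forall fun n q _ => ?_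
      rw [Finset.sum_const_zero]
      exact hη.le
    · refine ⟨fun d => (1 / (a : ℝ)) ^ d, dg_all ha2, fun η hη => ?_⟩
      have h1 : Tendsto (fun g : ℕ => 4 * (1 / 2 : ℝ) ^ g) atTop (𝓝 (4 * 0)) :=
        (tendsto_pow_atTop_nhds_zero_of_lt_one (by norm_num) (by norm_num)).const_mul 4
      rw [mul_zero] at h1
      obtain ⟨g, hg⟩ := (h1.eventually (gt_mem_nhds hη)).exists
      filter_upwards [hgap (by omega) g] with n hn q hq
      have hdist : ∀ p ∈ Un T n, p ≠ q → g ≤ (p - q) + (q - p) := by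
        intro p hp' hne
        unfold Un at hp' hq
        rw [Finset.mem_biUnion] at hp' hq
        obtain ⟨i, _, hi⟩ := hp'
        obtain ⟨i', _, hi'⟩ := hq
        rcases lt_or_gt_of_ne hne with h3 | h3
        · have := hn i i' p hi q hi' h3
          omega
        · have := hn i' i q hi' p hi h3
          omega
      refine le_trans ?_ ((geo hdist).trans hg.le)
      refine Finset.sum_le_sum fun p _ => ?_
      exact pow_le_pow_left₀ (by positivity) (one_div_le_one_div_of_le (by norm_num) haR) _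
  refine transfer ha2 _ (Finset.prod_nonneg fun i _ => poi_nonneg (hlam0 i) _)
    (Finset.prod_le_one (fun i _ => poi_nonneg (hlam0 i) _) fun i _ => poi_le (hlam0 i) _)
    (fun m j hj1 hj2 => ?_) hE hE0 hEf
  have h := cell_limit All.e4 Pool.Agent.N897.SH.rb All.sm All.gc hOk hρ hη hp hd hmin hthin hlam
    hj1 hj2 k
  refine h.congr' ?_
  filter_upwards [hmin 3] with n hn
  congr 1
  ext β
  simp only [Set.mem_ofPred_eq, Set.mem_inter_iff]
  have hcl : β ∈ Cl a m j ↔ ((j : ℝ) / (a : ℝ) ^ m < β ∧ β ≤ ((j : ℝ) + 1) / (a : ℝ) ^ m) := Iff.rfl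
  rw [hcl]
  refine and_congr_right fun hβ => ?_
  have ha0 : (0 : ℝ) < a := by linarith
  have hβ0 : 0 < β := lt_of_le_of_lt (by positivity) hβ.1
  have e : ∀ i, hits (cc a b) (T i n) a (tl T m n) (NB a β (tl T m n)) =
      (T i n).filter (fun p => (WW a b β p).Prime) := by
    intro i
    unfold hits
    refine Finset.filter_congr fun p hpT => ?_
    have hpp := hp i n p hpT
    have hp3 := hn i p hpT
    have hpt : p ≤ tl T m n := by
      have h1 : p ≤ (Un T n).sup id := by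
        refine Finset.le_sup (f := id) ?_
        unfold Un
        rw [Finset.mem_biUnion]
        exact ⟨i, Finset.mem_univ i, hpT⟩
      have h2 : (Un T n).sup id + n + 1 < 2 ^ ((Un T n).sup id + n + 1) := Nat.lt_two_pow_self
      unfold tl
      omega
    rw [NB_div ha2 hβ0 hpt, WW_eq ha2 hb hβ0 (Or.inl (hpp.odd_of_ne_two (by omega)))]
  simp only [e]

end Pool.Agent.Zk73.LW
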