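import Mathlib
import Pool.Agent.Zk73.LW.F
import Pool.Agent.Helper601.BT

set_option autoImplicit false

/-!
# Pairs of exponents, shifted digits: clusters
-/

namespace Pool.Agent.Zk73.LW

open Finset Filter Topology MeasureTheory
open Pool.Agent.N176.SH
open Pool.Agent.N176.GP (NB NB_spec NB_div)
open Pool.Agent.H305R2 (roughPart)
open Pool.Agent.N176.OW (cell kap VT)

/-- the elementary bound -/
lemma exp_small_k {d : ℝ} (hd : 0 < d) (k : ℕ) : ∃ P : ℕ, ∀ x ≥ P,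
    Real.exp (-(d * (x : ℝ))) ≤ (Real.log x / x) ^ k := by
  have h1 := Real.tendsto_pow_mul_exp_neg_atTop_nhds_zero k
  have h2 : Tendsto (fun x : ℕ => d * (x : ℝ)) atTop atTop :=
    (tendsto_natCast_atTop_atTop (R := ℝ)).const_mul_atTop hd
  have h3 := (h1.comp h2).eventually (gt_mem_nhds (show (0 : ℝ) < d ^ k by positivity))
  obtain ⟨P, hP⟩ := Filter.eventually_atTop.1 h3
  refine ⟨P + 3, fun x hx => ?_⟩
  have h4 := hP x (by omega)
  simp only [Function.comp] at h4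
  have hx0 : (3 : ℝ) ≤ x := by exact_mod_cast (by omega : 3 ≤ x)
  have hlx : (1 : ℝ) ≤ Real.log x := by
    have h5 : Real.exp 1 < 2.7182818286 := Real.exp_one_lt_d9
    have h6 := Real.log_le_log (Real.exp_pos _) (by linarith : Real.exp 1 ≤ x)
    rwa [Real.log_exp] at h6
  have h5 : (x : ℝ) ^ k * Real.exp (-(d * x)) ≤ 1 := by
    have : d ^ k * ((x : ℝ) ^ k * Real.exp (-(d * x))) < d ^ k * 1 := by
      calc d ^ k * ((x : ℝ) ^ k * Real.exp (-(d * x))) = (d * x) ^ k * Real.exp (-(d * x)) := by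
            rw [mul_pow]
            ring
        _ < d ^ k * 1 := by rw [mul_one]; exact h4
    exact (lt_of_mul_lt_mul_left this (by positivity)).le
  rw [div_pow, le_div_iff₀ (by positivity)]
  calc Real.exp (-(d * x)) * (x : ℝ) ^ k = (x : ℝ) ^ k * Real.exp (-(d * x)) := by ring
    _ ≤ 1 := h5
    _ ≤ Real.log x ^ k := one_le_pow₀ hlx

/-- several near exponents -/
theorem kbound (hE4 : S_E4) (hRB : S_RB) {b A : ℕ} {σ : ℕ → ℤ} (hOk : Ok b A σ) (hnd : ND b A σ)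
    (k : ℕ) (hk : 1 ≤ k) : ∃ C : ℝ, 0 < C ∧ ∃ P : ℕ, ∀ x ≥ P, ∀ F : Finset ℕ, F.card = k →
    (∀ p ∈ F, x < p ∧ p ≤ 2 * x) → ∀ m : ℕ, A * m ≤ x → ∀ t : ℕ, 2 * x ≤ t → ∀ j : ℕ, 1 ≤ j →
    j ≤ b ^ (2 * m) →
    (((cell b m t j).filter (fun n => F ⊆ hits σ F b t n)).card : ℝ) ≤
      C * (Real.log x / x) ^ k * (b : ℝ) ^ (t - m) := by
  classical
  obtain ⟨C, hC, P1, h1⟩ := hE4 b A σ hOk
  obtain ⟨d, hd, P2, h2⟩ := hRB b A σ hOk
  obtain ⟨P3, h3⟩ := exp_small_k hd k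
  obtain ⟨P4, hP4⟩ := exists_nat_ge (Real.exp ((k : ℝ) ^ 2))
  refine ⟨(C * k) ^ k + 1, by positivity, P1 + P2 + P3 + P4 + A + 3,
    fun x hx F hF hFx m hm t ht j hj1 hj2 => ?_⟩
  have hFne : F.Nonempty := Finset.card_pos.1 (by omega)
  have hlog : (F.card : ℝ) ^ 2 ≤ Real.log x := by
    rw [hF, Real.le_log_iff_exp_le (by exact_mod_cast (by omega : 0 < x))]
    exact hP4.trans (by exact_mod_cast (by omega : P4 ≤ x))
  have hA := h1 x (by omega) F hFx m hm t ht j hj1 (1 / 2) (by norm_num) le_rfl F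
    (Finset.Subset.refl _) hFne hlog
  have hB := h2 x (by omega) F hFx m hm t ht j hj1 hj2
  set G := (cell b m t j).filter (fun n => ¬ Big σ F b t x n ∧ F ⊆ mhits σ F b t n) with hG
  have hGc : (G.card : ℝ) ≤ (C * k) ^ k * (Real.log x / x) ^ k * (b : ℝ) ^ (t - m) := by
    have h3 : (G.card : ℝ) * (1 / 2) ^ k ≤
        ∑ n ∈ G, ∏ p ∈ F, ((1 + 1 / 2 : ℝ) ^ (1 + run σ b t p n) - 1) := by
      rw [← nsmul_eq_mul, ← Finset.sum_const]
      refine Finset.sum_le_sum fun n _ => ?_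
      rw [← hF, ← Finset.prod_const]
      refine Finset.prod_le_prod (fun _ _ => by norm_num) fun r _ => ?_
      have h5 : (1 + 1 / 2 : ℝ) ^ 1 ≤ (1 + 1 / 2 : ℝ) ^ (1 + run σ b t r n) :=
        pow_le_pow_right₀ (by norm_num) (by omega)
      linarith
    have h4 := h3.trans hA
    rw [hF] at h4
    have h5 : (C * (1 / 2) * (k : ℝ) * (Real.log x / x)) ^ k =
        (1 / 2) ^ k * ((C * k) ^ k * (Real.log x / x) ^ k) := by
      rw [← mul_pow, ← mul_pow]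
      congr 1
      ring
    rw [h5] at h4
    have h6 : (0 : ℝ) < (1 / 2) ^ k := by positivity
    have h7 : (1 / 2 : ℝ) ^ k * (G.card : ℝ) ≤
        (1 / 2) ^ k * ((C * k) ^ k * (Real.log x / x) ^ k * (b : ℝ) ^ (t - m)) := by
      calc (1 / 2 : ℝ) ^ k * (G.card : ℝ) = (G.card : ℝ) * (1 / 2) ^ k := mul_comm _ _
        _ ≤ _ := h4
        _ = _ := by ring
    exact le_of_mul_le_mul_left h7 h6
  have hsub : (cell b m t j).filter (fun n => F ⊆ hits σ F b t n) ⊆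
      G ∪ (cell b m t j).filter (fun n => Big σ F b t x n) := by
    intro n hn
    rw [mem_filter] at hn
    rw [mem_union, hG, mem_filter, mem_filter]
    by_cases hbig : Big σ F b t x n
    · exact Or.inr ⟨hn.1, hbig⟩
    · refine Or.inl ⟨hn.1, hbig, fun r hr => ?_⟩
      unfold mhits
      rw [mem_filter]
      refine ⟨hn.2 hr, fun r' hr' hlt => ?_⟩
      have h5 : r' ∈ F := (mem_filter.1 hr').1
      have h6 := hFx r' h5
      have h7 := hFx r hr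
      exact not_deg hOk.hb hnd (by omega) hlt (by omega)
  have h5 := (Finset.card_le_card hsub).trans (Finset.card_union_le _ _)
  have h6 : (((cell b m t j).filter (fun n => F ⊆ hits σ F b t n)).card : ℝ) ≤
      (G.card : ℝ) + (((cell b m t j).filter (fun n => Big σ F b t x n)).card : ℝ) := by
    exact_mod_cast h5
  refine h6.trans ?_
  have h7 := h3 x (by omega)
  have h8 : (0 : ℝ) ≤ (b : ℝ) ^ (t - m) := by positivity
  have h9 := mul_le_mul_of_nonneg_right h7 h8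
  calc (G.card : ℝ) + (((cell b m t j).filter (fun n => Big σ F b t x n)).card : ℝ) ≤
      (C * k) ^ k * (Real.log x / x) ^ k * (b : ℝ) ^ (t - m) +
        (Real.log x / x) ^ k * (b : ℝ) ^ (t - m) := add_le_add hGc (hB.trans h9)
    _ = _ := by ring

/-- primes in short intervals -/
lemma bt : ∃ C : ℝ, 1 ≤ C ∧ ∀ y N : ℕ, 2 ≤ N →
    (((Ioc y (y + N)).filter Nat.Prime).card : ℝ) ≤ C * N / Real.log N := by
  obtain ⟨C, hC, h⟩ := Pool.Agent.Helper601.brun_titchmarsh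
  refine ⟨C, hC, fun y N hN => le_trans ?_ (h (y + 1) 1 N hN (Or.inl rfl))⟩
  have h1 : ((Ioc y (y + N)).filter Nat.Prime).card ≤
      ((Finset.range N).filter (fun k => (y + 1 + k * 1).Prime)).card := by
    refine Finset.card_le_card_of_injOn (fun p => p - (y + 1)) ?_ ?_
    · intro p hp
      rw [mem_coe, mem_filter, mem_Ioc] at hp
      rw [mem_coe, mem_filter, mem_range]
      have e : y + 1 + (p - (y + 1)) * 1 = p := by omega
      refine ⟨show p - (y + 1) < N by omega, ?_⟩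
      show (y + 1 + (p - (y + 1)) * 1).Prime
      rw [e]
      exact hp.2
    · intro p hp p' hp' he
      rw [mem_coe, mem_filter, mem_Ioc] at hp hp'
      simp only at he
      omega
  exact_mod_cast h1

/-- the families of sets -/
def Fam (k i H : ℕ) : Finset (Finset ℕ) :=
  ((Ioc (2 ^ i) (2 ^ i + 3 * 2 ^ i)).filter Nat.Prime).biUnion (fun p =>
    (((Ioc p (p + H)).filter Nat.Prime).powersetCard (k - 1)).image (fun G => insert p G))

lemma Fam_mem {k i H : ℕ} {F : Finset ℕ} (hk : 1 ≤ k) (hF : F ∈ Fam k i H) : F.card = k ∧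
    ∃ p, 2 ^ i < p ∧ p ∈ F ∧ ∀ q ∈ F, p ≤ q ∧ q ≤ p + H := by
  unfold Fam at hF
  rw [Finset.mem_biUnion] at hF
  obtain ⟨p, hp, hF⟩ := hF
  rw [mem_filter, mem_Ioc] at hp
  rw [mem_image] at hF
  obtain ⟨G, hG, rfl⟩ := hF
  rw [Finset.mem_powersetCard] at hG
  obtain ⟨hG1, hG2⟩ := hG
  have hpG : p ∉ G := by
    intro h
    have := hG1 h
    rw [mem_filter, mem_Ioc] at this
    omega
  refine ⟨?_, p, hp.1.1, mem_insert_self _ _, fun q hq => ?_⟩
  · rw [Finset.card_insert_of_notMem hpG, hG2]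
    omega
  · rw [mem_insert] at hq
    rcases hq with rfl | hq
    · omega
    · have := hG1 hq
      rw [mem_filter, mem_Ioc] at this
      omega

lemma Fam_card {k i H : ℕ} {B1 B2 : ℝ} (hB2 : 0 ≤ B2)
    (h1 : (((Ioc (2 ^ i) (2 ^ i + 3 * 2 ^ i)).filter Nat.Prime).card : ℝ) ≤ B1)
    (h2 : ∀ p, (((Ioc p (p + H)).filter Nat.Prime).card : ℝ) ≤ B2) :
    ((Fam k i H).card : ℝ) ≤ B1 * B2 ^ (k - 1) := by
  have h3 : ((Fam k i H).card : ℝ) ≤ ∑ p ∈ (Ioc (2 ^ i) (2 ^ i + 3 * 2 ^ i)).filter Nat.Prime,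
      B2 ^ (k - 1) := by
    unfold Fam
    have h4 := Finset.card_biUnion_le (s := (Ioc (2 ^ i) (2 ^ i + 3 * 2 ^ i)).filter Nat.Prime)
      (t := fun p => (((Ioc p (p + H)).filter Nat.Prime).powersetCard (k - 1)).image
        (fun G => insert p G))
    refine le_trans (Nat.cast_le.2 h4) ?_
    push_cast
    refine Finset.sum_le_sum fun p _ => ?_
    have h5 : ((((Ioc p (p + H)).filter Nat.Prime).powersetCard (k - 1)).image
        (fun G => insert p G)).card ≤ ((Ioc p (p + H)).filter Nat.Prime).card ^ (k - 1) := by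
      refine Finset.card_image_le.trans ?_
      rw [Finset.card_powersetCard]
      exact Nat.choose_le_pow _ _
    have h6 : (((((Ioc p (p + H)).filter Nat.Prime).powersetCard (k - 1)).image
        (fun G => insert p G)).card : ℝ) ≤
        (((Ioc p (p + H)).filter Nat.Prime).card : ℝ) ^ (k - 1) := by exact_mod_cast h5
    exact h6.trans (pow_le_pow_left₀ (Nat.cast_nonneg _) (h2 p) _)
  refine h3.trans ?_
  rw [Finset.sum_const, nsmul_eq_mul]
  exact mul_le_mul_of_nonneg_right h1 (by positivity)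

/-- the length of the windows -/
noncomputable def Hc (c : ℝ) (i : ℕ) : ℕ := ⌈(2 : ℝ) ^ (i + 1) / (Real.log ((2 : ℝ) ^ i)) ^ c⌉₊

/-- the number of bad integers in a cell -/
theorem bad_count (hE4 : S_E4) (hRB : S_RB) {b A : ℕ} {σ : ℕ → ℤ} (hOk : Ok b A σ)
    (hnd : ND b A σ) (k : ℕ) (hk : 2 ≤ k) {c : ℝ} (hc : 0 < c) (m : ℕ) : ∃ K : ℝ, 0 < K ∧ ∃ P : ℕ,
    ∀ i ≥ P, ∀ j : ℕ, 1 ≤ j → j ≤ b ^ (2 * m) →
    (((cell b m (2 ^ (i + 4)) j).filter (fun n => ∃ F ∈ Fam k i (Hc c i),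
      F ⊆ hits σ F b (2 ^ (i + 4)) n)).card : ℝ) ≤
      K * ((Real.log ((2 : ℝ) ^ i)) ^ (-c)) ^ (k - 1) * (b : ℝ) ^ (2 ^ (i + 4) - m) := by
  classical
  obtain ⟨C1, hC1, P1, h1⟩ := kbound hE4 hRB hOk hnd k (by omega)
  obtain ⟨C2, hC2, h2⟩ := bt
  -- asymptotics
  have hl2 : 0 < Real.log 2 := Real.log_pos one_lt_two
  have hℓ : Tendsto (fun i : ℕ => Real.log ((2 : ℝ) ^ i)) atTop atTop := by
    have : (fun i : ℕ => Real.log ((2 : ℝ) ^ i)) = fun i : ℕ => (i : ℝ) * Real.log 2 := by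
      funext i
      rw [Real.log_pow]
    rw [this]
    exact (tendsto_natCast_atTop_atTop (R := ℝ)).atTop_mul_const hl2
  have ev1 := (hℓ.eventually ((isLittleO_rpow_exp_pos_mul_atTop c (by norm_num : (0 : ℝ) < 1 / 2)).bound
    (by norm_num : (0 : ℝ) < 1)))
  have ev2 := ((tendsto_rpow_atTop hc).comp hℓ).eventually_ge_atTop 8
  have ev3 := hℓ.eventually_ge_atTop 1
  obtain ⟨P5, hP5⟩ := Filter.eventually_atTop.1 (ev1.and (ev2.and ev3))
  refine ⟨(3 * C2) * (8 * C2) ^ (k - 1) * C1, by positivity, P1 + P5 + A * m + 10,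
    fun i hi j hj1 hj2 => ?_⟩
  obtain ⟨g1, g2, g3⟩ := hP5 i (by omega)
  simp only [Function.comp] at g2
  obtain ⟨ℓ, hℓd⟩ : ∃ ℓ, ℓ = Real.log ((2 : ℝ) ^ i) := ⟨_, rfl⟩
  rw [← hℓd] at g1 g2 g3 ⊢
  have hℓ0 : 0 < ℓ := by linarith
  have hℓc : 0 < ℓ ^ c := Real.rpow_pos_of_pos hℓ0 c
  have hexp : Real.exp ℓ = (2 : ℝ) ^ i := by rw [hℓd, Real.exp_log (by positivity)]
  rw [one_mul, Real.norm_eq_abs, Real.norm_eq_abs, abs_of_pos hℓc, abs_of_pos (Real.exp_pos _)] at g1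
  have h2i : (1 : ℝ) ≤ (2 : ℝ) ^ i := one_le_pow₀ (by norm_num)
  have h2i2 : (2 : ℝ) ≤ (2 : ℝ) ^ i := by
    calc (2 : ℝ) = 2 ^ 1 := (pow_one _).symm
      _ ≤ 2 ^ i := pow_le_pow_right₀ (by norm_num) (by omega)
  -- the length
  obtain ⟨H, hH⟩ : ∃ H, H = Hc c i := ⟨_, rfl⟩
  rw [← hH]
  have hH1 : (2 : ℝ) ^ (i + 1) / ℓ ^ c ≤ H := by
    rw [hH, hℓd]
    exact Nat.le_ceil _
  have hlow : 2 * Real.exp (1 / 2 * ℓ) ≤ (2 : ℝ) ^ (i + 1) / ℓ ^ c := by
    rw [le_div_iff₀ hℓc, pow_succ, ← hexp]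
    have e1 : Real.exp ℓ = Real.exp (1 / 2 * ℓ) * Real.exp (1 / 2 * ℓ) := by
      rw [← Real.exp_add]
      congr 1
      ring
    rw [e1]
    have := mul_le_mul_of_nonneg_left g1 (Real.exp_pos (1 / 2 * ℓ)).le
    linarith
  have hexp1 : 1 ≤ Real.exp (1 / 2 * ℓ) := Real.one_le_exp (by linarith)
  have hH2 : (H : ℝ) ≤ 4 * (2 : ℝ) ^ i / ℓ ^ c := by
    have h3 : (H : ℝ) < (2 : ℝ) ^ (i + 1) / ℓ ^ c + 1 := by
      rw [hH]
      unfold Hc
      rw [← hℓd]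
      exact Nat.ceil_lt_add_one (by positivity)
    have h4 : (1 : ℝ) ≤ (2 : ℝ) ^ (i + 1) / ℓ ^ c := by linarith
    have h5 : 4 * (2 : ℝ) ^ i / ℓ ^ c = 2 * ((2 : ℝ) ^ (i + 1) / ℓ ^ c) := by
      rw [pow_succ]
      ring
    rw [h5]
    linarith
  have hHR : 2 * Real.exp (1 / 2 * ℓ) ≤ H := hlow.trans hH1
  have hHn : 2 ≤ H := by
    have : (2 : ℝ) ≤ H := by linarith
    exact_mod_cast this
  have hlogH : 1 / 2 * ℓ ≤ Real.log H := by
    rw [Real.le_log_iff_exp_le (by linarith)]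
    have := (Real.exp_pos (1 / 2 * ℓ)).le
    linarith
  have hHi : (H : ℝ) ≤ (2 : ℝ) ^ i / 2 := by
    refine hH2.trans ?_
    rw [div_le_iff₀ hℓc]
    nlinarith
  have hHi' : H + 1 ≤ 2 ^ i := by
    have h3 : (H : ℝ) + 1 ≤ (2 : ℝ) ^ i := by linarith
    exact_mod_cast h3
  -- the number of sets
  have hc1 : (((Ioc (2 ^ i) (2 ^ i + 3 * 2 ^ i)).filter Nat.Prime).card : ℝ) ≤
      3 * C2 * (2 : ℝ) ^ i / ℓ := by
    have h3 := h2 (2 ^ i) (3 * 2 ^ i) (by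
      have : 1 ≤ 2 ^ i := Nat.one_le_two_pow
      omega)
    refine h3.trans ?_
    push_cast
    have h4 : ℓ ≤ Real.log (3 * (2 : ℝ) ^ i) := by
      rw [hℓd]
      exact Real.log_le_log (by positivity) (by linarith)
    rw [div_le_div_iff₀ (by linarith) hℓ0]
    have h5 : 0 ≤ C2 * (3 * (2 : ℝ) ^ i) := by positivity
    have h6 := mul_le_mul_of_nonneg_left h4 h5
    linarith
  have hc2 : ∀ p, (((Ioc p (p + H)).filter Nat.Prime).card : ℝ) ≤
      8 * C2 * ((2 : ℝ) ^ i / ℓ) * ℓ ^ (-c) := by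
    intro p
    refine (h2 p H hHn).trans ?_
    have h3 : C2 * (H : ℝ) / Real.log H ≤ C2 * (4 * (2 : ℝ) ^ i / ℓ ^ c) / (1 / 2 * ℓ) := by
      gcongr
    refine h3.trans (le_of_eq ?_)
    rw [Real.rpow_neg hℓ0.le]
    field_simp
    ring
  have hfam := Fam_card (k := k) (by positivity) hc1 hc2
  -- the union bound
  obtain ⟨t, ht⟩ : ∃ t, t = 2 ^ (i + 4) := ⟨_, rfl⟩
  rw [← ht]
  have ht4 : t = 16 * 2 ^ i := by rw [ht, pow_add]; ring
  have hi2 : i < 2 ^ i := Nat.lt_two_pow_self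
  have hM0 : 0 < (b : ℝ) ^ (t - m) := by
    have := hOk.hb
    positivity
  have hone : ∀ F ∈ Fam k i H, (((cell b m t j).filter (fun n => F ⊆ hits σ F b t n)).card : ℝ) ≤
      C1 * (ℓ / (2 : ℝ) ^ i) ^ k * (b : ℝ) ^ (t - m) := by
    intro F hF
    obtain ⟨hFk, p, hp1, hpF, hp2⟩ := Fam_mem (by omega) hF
    have h3 := h1 (p - 1) (by omega) F hFk (fun q hq => by
      have := hp2 q hq
      omega) m (by omega) t (by
        have hp3 : p ≤ 4 * 2 ^ i := by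
          unfold Fam at hF
          rw [Finset.mem_biUnion] at hF
          obtain ⟨p', hp', hF⟩ := hF
          rw [mem_filter, mem_Ioc] at hp'
          rw [mem_image] at hF
          obtain ⟨G, hG, rfl⟩ := hF
          have := hp2 p' (mem_insert_self _ _)
          omega
        omega) j hj1 hj2
    refine h3.trans (mul_le_mul_of_nonneg_right (mul_le_mul_of_nonneg_left ?_ hC1.le) hM0.le)
    have h4 : Real.log ((p - 1 : ℕ) : ℝ) / ((p - 1 : ℕ) : ℝ) ≤ ℓ / (2 : ℝ) ^ i := by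
      rw [hℓd]
      have h5 : (2 : ℝ) ^ i ≤ ((p - 1 : ℕ) : ℝ) := by exact_mod_cast (by omega : 2 ^ i ≤ p - 1)
      have h6 : Real.exp 1 ≤ (2 : ℝ) ^ i := by
        rw [← hexp]
        exact Real.exp_le_exp.2 g3
      exact Real.log_div_self_antitoneOn h6 (h6.trans h5) h5
    refine pow_le_pow_left₀ ?_ h4 k
    exact w_nonneg _
  have hsub : (cell b m t j).filter (fun n => ∃ F ∈ Fam k i H, F ⊆ hits σ F b t n) ⊆
      (Fam k i H).biUnion (fun F => (cell b m t j).filter (fun n => F ⊆ hits σ F b t n)) := by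
    intro n hn
    rw [mem_filter] at hn
    obtain ⟨hn1, F, hF, hn2⟩ := hn
    rw [Finset.mem_biUnion]
    exact ⟨F, hF, mem_filter.2 ⟨hn1, hn2⟩⟩
  have h3 := (Finset.card_le_card hsub).trans Finset.card_biUnion_le
  have h4 : (((cell b m t j).filter (fun n => ∃ F ∈ Fam k i H, F ⊆ hits σ F b t n)).card : ℝ) ≤
      ∑ F ∈ Fam k i H, (((cell b m t j).filter (fun n => F ⊆ hits σ F b t n)).card : ℝ) := by
    exact_mod_cast h3
  refine h4.trans ((Finset.sum_le_sum hone).trans ?_)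
  rw [Finset.sum_const, nsmul_eq_mul]
  have h5 : 0 ≤ C1 * (ℓ / (2 : ℝ) ^ i) ^ k * (b : ℝ) ^ (t - m) := by positivity
  refine (mul_le_mul_of_nonneg_right hfam h5).trans (le_of_eq ?_)
  obtain ⟨k', rfl⟩ : ∃ k', k = k' + 1 := ⟨k - 1, by omega⟩
  rw [Nat.add_sub_cancel]
  have h6 : (2 : ℝ) ^ i / ℓ * (ℓ / (2 : ℝ) ^ i) = 1 := by field_simp
  have e7 : (8 * C2 * ((2 : ℝ) ^ i / ℓ) * ℓ ^ (-c)) ^ k' =
      (8 * C2) ^ k' * ((2 : ℝ) ^ i / ℓ) ^ k' * (ℓ ^ (-c)) ^ k' := by rw [mul_pow, mul_pow]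
  have e8 : 3 * C2 * (2 : ℝ) ^ i / ℓ = 3 * C2 * ((2 : ℝ) ^ i / ℓ) := by ring
  rw [e7, e8]
  generalize (2 : ℝ) ^ i / ℓ = X at *
  generalize ℓ / (2 : ℝ) ^ i = Y at *
  calc 3 * C2 * X * ((8 * C2) ^ k' * X ^ k' * (ℓ ^ (-c)) ^ k') *
      (C1 * Y ^ (k' + 1) * (b : ℝ) ^ (t - m))
      = 3 * C2 * (8 * C2) ^ k' * C1 * (ℓ ^ (-c)) ^ k' * (b : ℝ) ^ (t - m) *
        (X * Y) ^ (k' + 1) := by ring
    _ = _ := by rw [h6, one_pow, mul_one]

end Pool.Agent.Zk73.LW
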