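import Mathlib
import Pool.Agent.Zk73.LW.G

set_option autoImplicit false

/-!
# Pairs of exponents: clusters, almost every amplitude
-/

namespace Pool.Agent.Zk73.LW

open Finset Filter Topology MeasureTheory
open Pool.Agent.N176.SH
open Pool.Agent.N176.GP (NB NB_spec NB_div)
open Pool.Agent.H305R2 (roughPart)
open Pool.Agent.N176.OW (cell kap VT)

lemma summ {k : ℕ} {c : ℝ} (hc : 1 < c * ((k - 1 : ℕ) : ℝ)) :
    Summable (fun i : ℕ => ((Real.log ((2 : ℝ) ^ i)) ^ (-c)) ^ (k - 1)) := by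
  have hl2 : 0 < Real.log 2 := Real.log_pos one_lt_two
  have h1 : (fun i : ℕ => ((Real.log ((2 : ℝ) ^ i)) ^ (-c)) ^ (k - 1)) =
      fun i : ℕ => ((Real.log 2) ^ (-c)) ^ (k - 1) * (i : ℝ) ^ ((-c) * ((k - 1 : ℕ) : ℝ)) := by
    funext i
    rw [Real.log_pow, Real.mul_rpow (Nat.cast_nonneg i) hl2.le, mul_pow,
      Real.rpow_mul_natCast (Nat.cast_nonneg i), mul_comm]
  rw [h1]
  refine Summable.mul_left _ ?_
  rw [Real.summable_nat_rpow]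
  linarith

/-- the bad event -/
def Bad (σ : ℕ → ℤ) (b k : ℕ) (c : ℝ) (i n : ℕ) : Prop :=
  ∃ F ∈ Fam k i (Hc c i), F ⊆ hits σ F b (2 ^ (i + 4)) n

/-- almost every amplitude in a cell -/
theorem bad_cell {b A : ℕ} {σ : ℕ → ℤ} (hOk : Ok b A σ)
    (hnd : ND b A σ) (k : ℕ) (hk : 2 ≤ k) {c : ℝ} (hc0 : 0 < c) (hc : 1 < c * ((k - 1 : ℕ) : ℝ))
    (m j : ℕ) (hj1 : 1 ≤ j) (hj2 : j ≤ b ^ (2 * m)) :
    ∀ᵐ β : ℝ, β ∈ Cl b m j → ∀ᶠ i in atTop, ¬ Bad σ b k c i (NB b β (2 ^ (i + 4))) := by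
  classical
  have hb := hOk.hb
  have hb0 : (0 : ℝ) < b := by exact_mod_cast (by omega : 0 < b)
  obtain ⟨K, hK, P, hP⟩ := bad_count All.e4 Pool.Agent.N897.SH.rb hOk hnd k hk hc0 m
  set a : ℕ → ℝ := fun i => ((Real.log ((2 : ℝ) ^ i)) ^ (-c)) ^ (k - 1) with ha
  have ha0 : ∀ i, 0 ≤ a i := by
    intro i
    have h1 : 0 ≤ Real.log ((2 : ℝ) ^ i) := Real.log_nonneg (one_le_pow₀ (by norm_num))
    exact pow_nonneg (Real.rpow_nonneg h1 _) _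
  have hs : Summable (fun i => K / (b : ℝ) ^ m * a i) := (summ hc).mul_left _
  set B : ℕ → Set ℝ := fun i => {β | (P + m ≤ i ∧ β ∈ Cl b m j) ∧ Bad σ b k c i (NB b β (2 ^ (i + 4)))}
    with hB
  have hBm : ∀ i, volume (B i) ≤ ENNReal.ofReal (K / (b : ℝ) ^ m * a i) := by
    intro i
    by_cases hi : P + m ≤ i
    · have hsub : B i ⊆ {β : ℝ | ((j : ℝ) / (b : ℝ) ^ m < β ∧ β ≤ ((j : ℝ) + 1) / (b : ℝ) ^ m) ∧
          Bad σ b k c i (NB b β (2 ^ (i + 4)))} := by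
        intro β hβ
        exact ⟨hβ.1.2, hβ.2⟩
      have h2i : i < 2 ^ i := Nat.lt_two_pow_self
      have hpw : 2 ^ (i + 4) = 16 * 2 ^ i := by rw [pow_add]; ring
      have hmt : m ≤ 2 ^ (i + 4) := by omega
      have h2 := vol_cell (j := j) hb hmt (Bad σ b k c i)
      have hfin : volume {β : ℝ | ((j : ℝ) / (b : ℝ) ^ m < β ∧ β ≤ ((j : ℝ) + 1) / (b : ℝ) ^ m) ∧
          Bad σ b k c i (NB b β (2 ^ (i + 4)))} ≠ ⊤ := by
        refine ne_top_of_le_ne_top (measure_Ioc_lt_top (a := (j : ℝ) / (b : ℝ) ^ m)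
          (b := ((j : ℝ) + 1) / (b : ℝ) ^ m)).ne (measure_mono ?_)
        intro β hβ
        exact hβ.1
      refine (measure_mono hsub).trans ?_
      rw [← ENNReal.ofReal_toReal hfin]
      refine ENNReal.ofReal_le_ofReal ?_
      have h3 : (volume {β : ℝ | ((j : ℝ) / (b : ℝ) ^ m < β ∧ β ≤ ((j : ℝ) + 1) / (b : ℝ) ^ m) ∧
          Bad σ b k c i (NB b β (2 ^ (i + 4)))}).toReal =
          (((cell b m (2 ^ (i + 4)) j).filter (Bad σ b k c i)).card : ℝ) / (b : ℝ) ^ (2 ^ (i + 4)) := h2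
      rw [h3, div_le_iff₀ (by positivity)]
      have h4 := hP i (by omega) j hj1 hj2
      have h5 : (((cell b m (2 ^ (i + 4)) j).filter (Bad σ b k c i)).card : ℝ) ≤
          K * a i * (b : ℝ) ^ (2 ^ (i + 4) - m) := by
        refine le_trans (le_of_eq ?_) h4
        congr 2
        ext n
        rw [mem_filter, mem_filter]
        exact Iff.rfl
      refine h5.trans (le_of_eq ?_)
      have e : (b : ℝ) ^ (2 ^ (i + 4)) = (b : ℝ) ^ m * (b : ℝ) ^ (2 ^ (i + 4) - m) := by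
        rw [← pow_add, Nat.add_sub_cancel' hmt]
      rw [e]
      field_simp
    · have : B i = ∅ := by
        ext β
        simp only [hB, Set.mem_ofPred_eq, Set.mem_empty_iff_false, iff_false]
        rintro ⟨⟨h1, _⟩, _⟩
        exact hi h1
      rw [this, measure_empty]
      exact zero_le
  have hsum : ∑' i, volume (B i) ≠ ⊤ := by
    refine ne_top_of_le_ne_top ?_ (ENNReal.tsum_le_tsum hBm)
    exact hs.tsum_ofReal_ne_top
  have h0 := measure_setOfPred_frequently_eq_zero (p := fun i β => β ∈ B i) hsum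
  have h1 : ∀ᵐ β : ℝ, ¬ ∃ᶠ i in atTop, β ∈ B i := by
    rw [ae_iff]
    simp only [not_not]
    exact h0
  filter_upwards [h1] with β hβ hcl
  rw [not_frequently] at hβ
  filter_upwards [hβ, eventually_ge_atTop (P + m)] with i hi hPi hbad
  exact hi ⟨⟨hPi, hcl⟩, hbad⟩

/-- almost every amplitude -/
theorem bad_ae {b A : ℕ} {σ : ℕ → ℤ} (hOk : Ok b A σ)
    (hnd : ND b A σ) (k : ℕ) (hk : 2 ≤ k) {c : ℝ} (hc0 : 0 < c) (hc : 1 < c * ((k - 1 : ℕ) : ℝ)) :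
    ∀ᵐ β : ℝ, 0 < β → ∀ᶠ i in atTop, ¬ Bad σ b k c i (NB b β (2 ^ (i + 4))) := by
  have h1 : ∀ᵐ β : ℝ, ∀ m j : ℕ, 1 ≤ j → j ≤ b ^ (2 * m) → β ∈ Cl b m j →
      ∀ᶠ i in atTop, ¬ Bad σ b k c i (NB b β (2 ^ (i + 4))) := by
    rw [ae_all_iff]
    intro m
    rw [ae_all_iff]
    intro j
    by_cases hj : 1 ≤ j ∧ j ≤ b ^ (2 * m)
    · filter_upwards [bad_cell hOk hnd k hk hc0 hc m j hj.1 hj.2] with β hβ _ _
      exact hβ
    · exact Eventually.of_forall fun β h1 h2 => absurd ⟨h1, h2⟩ hj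
  filter_upwards [h1] with β hβ hβ0
  obtain ⟨m, hm⟩ := (Fm_mem hOk.hb (isOpen_Ioi (a := (0 : ℝ))) hβ0 hβ0).exists
  unfold Fm In at hm
  simp only [Set.mem_iUnion, mem_filter, mem_Icc] at hm
  obtain ⟨j, ⟨⟨hj1, hj2⟩, _⟩, hj⟩ := hm
  exact hβ m j hj1 hj2 hj

/-- windows with few exponents -/
theorem windows {a : ℕ} {b : ℤ} (hb : 2 ≤ |b|) (hba : |b| < a) (k : ℕ) (hk : 2 ≤ k) {c : ℝ}
    (hc0 : 0 < c) (hc : 1 < c * ((k - 1 : ℕ) : ℝ)) :
    ∀ᵐ β : ℝ, 0 < β → ∀ᶠ x : ℝ in atTop, ∀ S : Finset ℕ,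
      (∀ p ∈ S, p.Prime ∧ (WW a b β p).Prime ∧ x < p ∧ (p : ℝ) ≤ x + x / Real.log x ^ c) →
      S.card < k := by
  classical
  obtain ⟨A, hOk⟩ := Pool.Agent.N372.SH.okp a b (by omega) hba
  have ha2 : 2 ≤ a := hOk.hb
  filter_upwards [bad_ae hOk (nd_cc hb hba hOk) k hk hc0 hc] with β hβ hβ0
  obtain ⟨I0, hI0⟩ := Filter.eventually_atTop.1 (hβ hβ0)
  filter_upwards [eventually_ge_atTop ((2 : ℝ) ^ (I0 + 2))] with x hx S hS
  by_contra hcon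
  obtain ⟨F, hFS, hFk⟩ := Finset.exists_subset_card_eq (not_lt.1 hcon)
  -- the block
  have h4x : (4 : ℝ) ≤ x := by
    refine le_trans ?_ hx
    rw [pow_add]
    have : (1 : ℝ) ≤ 2 ^ I0 := one_le_pow₀ (by norm_num)
    linarith
  obtain ⟨N, hN⟩ : ∃ N, N = ⌊x⌋₊ := ⟨_, rfl⟩
  have hNx : (N : ℝ) ≤ x := hN ▸ Nat.floor_le (by linarith)
  have hxN : x < N + 1 := hN ▸ Nat.lt_floor_add_one x
  have hN0 : N ≠ 0 := by
    have : (0 : ℝ) < N := by linarith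
    exact_mod_cast this.ne'
  obtain ⟨i, hi⟩ : ∃ i, i = Nat.log 2 N := ⟨_, rfl⟩
  have hi1 : 2 ^ i ≤ N := hi ▸ Nat.pow_log_le_self 2 hN0
  have hi2 : N < 2 ^ (i + 1) := hi ▸ Nat.lt_pow_succ_log_self (by norm_num) N
  have hi1R : (2 : ℝ) ^ i ≤ x := by
    have : ((2 ^ i : ℕ) : ℝ) ≤ N := by exact_mod_cast hi1
    push_cast at this
    linarith
  have hi2R : x ≤ (2 : ℝ) ^ (i + 1) := by
    have : ((N + 1 : ℕ) : ℝ) ≤ ((2 ^ (i + 1) : ℕ) : ℝ) := by exact_mod_cast hi2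
    push_cast at this
    linarith
  have hiI : I0 + 1 ≤ i := by
    by_contra h
    have h1 : (2 : ℝ) ^ (i + 1) ≤ 2 ^ (I0 + 1) := pow_le_pow_right₀ (by norm_num) (by omega)
    have h2 : (2 : ℝ) ^ (I0 + 2) = 2 * 2 ^ (I0 + 1) := by ring
    have h3 : (0 : ℝ) < 2 ^ (I0 + 1) := by positivity
    linarith
  have hlog2 : 0 < Real.log ((2 : ℝ) ^ i) := by
    refine Real.log_pos ?_
    calc (1 : ℝ) < 2 ^ 1 := by norm_num
      _ ≤ 2 ^ i := pow_le_pow_right₀ (by norm_num) (by omega)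
  have hlogx : Real.log ((2 : ℝ) ^ i) ≤ Real.log x := Real.log_le_log (by positivity) hi1R
  have hlogx1 : 1 ≤ Real.log x := by
    have h5 : Real.exp 1 < 2.7182818286 := Real.exp_one_lt_d9
    have h6 := Real.log_le_log (Real.exp_pos _) (by linarith : Real.exp 1 ≤ x)
    rwa [Real.log_exp] at h6
  have hlen : x / Real.log x ^ c ≤ Hc c i := by
    calc x / Real.log x ^ c ≤ (2 : ℝ) ^ (i + 1) / Real.log ((2 : ℝ) ^ i) ^ c := by
          have h1 : Real.log ((2 : ℝ) ^ i) ^ c ≤ Real.log x ^ c :=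
            Real.rpow_le_rpow hlog2.le hlogx hc0.le
          have h2 : 0 < Real.log ((2 : ℝ) ^ i) ^ c := Real.rpow_pos_of_pos hlog2 c
          gcongr
      _ ≤ Hc c i := Nat.le_ceil _
  have hlen2 : x / Real.log x ^ c ≤ x := by
    rw [div_le_iff₀ (Real.rpow_pos_of_pos (by linarith) c)]
    have : 1 ≤ Real.log x ^ c := Real.one_le_rpow hlogx1 hc0.le
    nlinarith
  -- the smallest element
  have hFne : F.Nonempty := Finset.card_pos.1 (by omega)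
  obtain ⟨p, hp⟩ : ∃ p, p = F.min' hFne := ⟨_, rfl⟩
  have hpF : p ∈ F := hp ▸ F.min'_mem hFne
  have hmin : ∀ q ∈ F, p ≤ q := fun q hq => hp ▸ F.min'_le q hq
  have hq1 : ∀ q ∈ F, q.Prime ∧ 2 ^ i < q ∧ q ≤ 2 ^ i + 3 * 2 ^ i := by
    intro q hq
    obtain ⟨s1, s2, s3, s4⟩ := hS q (hFS hq)
    refine ⟨s1, ?_, ?_⟩
    · have : ((2 ^ i : ℕ) : ℝ) < q := by
        push_cast
        linarith
      exact_mod_cast this
    · have : (q : ℝ) ≤ ((2 ^ i + 3 * 2 ^ i : ℕ) : ℝ) := by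
        push_cast
        rw [pow_succ] at hi2R
        linarith
      exact_mod_cast this
  have hFam : F ∈ Fam k i (Hc c i) := by
    unfold Fam
    rw [Finset.mem_biUnion]
    refine ⟨p, ?_, ?_⟩
    · rw [mem_filter, mem_Ioc]
      obtain ⟨s1, s2, s3⟩ := hq1 p hpF
      exact ⟨⟨s2, s3⟩, s1⟩
    · rw [mem_image]
      refine ⟨F.erase p, ?_, Finset.insert_erase hpF⟩
      rw [Finset.mem_powersetCard]
      refine ⟨fun q hq => ?_, by rw [Finset.card_erase_of_mem hpF, hFk]⟩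
      rw [Finset.mem_erase] at hq
      rw [mem_filter, mem_Ioc]
      have h1 := hmin q hq.2
      obtain ⟨s1, s2, s3, s4⟩ := hS q (hFS hq.2)
      obtain ⟨u1, u2, u3, u4⟩ := hS p (hFS hpF)
      refine ⟨⟨lt_of_le_of_ne h1 (Ne.symm hq.1), ?_⟩, s1⟩
      have : (q : ℝ) ≤ ((p + Hc c i : ℕ) : ℝ) := by
        push_cast
        linarith
      exact_mod_cast this
  refine hI0 i (by omega) ⟨F, hFam, fun q hq => ?_⟩
  unfold hits
  rw [mem_filter]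
  refine ⟨hq, ?_⟩
  obtain ⟨s1, s2, s3, s4⟩ := hS q (hFS hq)
  obtain ⟨u1, u2, u3⟩ := hq1 q hq
  have hpw : 2 ^ (i + 4) = 16 * 2 ^ i := by rw [pow_add]; ring
  rw [NB_div ha2 hβ0 (by omega), WW_eq ha2 (by omega) hβ0 (Or.inl (s1.odd_of_ne_two ?_))]
  · exact s2
  · have : (2 : ℝ) < q := by linarith
    have h2 : 2 < q := by exact_mod_cast this
    omega

/-- all pairs, all sizes of the clusters -/
theorem clusters : ∀ᵐ β : ℝ, 0 < β → ∀ (a : ℕ) (b : ℤ), 2 ≤ |b| → |b| < a → ∀ k : ℕ, 2 ≤ k →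
    ∀ ε : ℝ, 0 < ε → ∀ᶠ x : ℝ in atTop, ∀ S : Finset ℕ,
      (∀ p ∈ S, p.Prime ∧ (WW a b β p).Prime ∧ x < p ∧
        (p : ℝ) ≤ x + x / Real.log x ^ (1 / ((k : ℝ) - 1) + ε)) → S.card < k := by
  have h1 : ∀ (a : ℕ) (b : ℤ) (k N : ℕ), ∀ᵐ β : ℝ, 2 ≤ |b| → |b| < a → 2 ≤ k → 0 < β →
      ∀ᶠ x : ℝ in atTop, ∀ S : Finset ℕ,
      (∀ p ∈ S, p.Prime ∧ (WW a b β p).Prime ∧ x < p ∧
        (p : ℝ) ≤ x + x / Real.log x ^ (1 / ((k : ℝ) - 1) + 1 / ((N : ℝ) + 1))) → S.card < k := by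
    intro a b k N
    by_cases h : 2 ≤ |b| ∧ |b| < a ∧ 2 ≤ k
    · obtain ⟨h2, h3, h4⟩ := h
      have hkR : (2 : ℝ) ≤ k := by exact_mod_cast h4
      have hk1 : (0 : ℝ) < (k : ℝ) - 1 := by linarith
      have hN : (0 : ℝ) < 1 / ((N : ℝ) + 1) := by positivity
      have h5 := windows h2 h3 k h4 (c := 1 / ((k : ℝ) - 1) + 1 / ((N : ℝ) + 1)) (by positivity) (by
        rw [Nat.cast_sub (by omega), Nat.cast_one, add_mul, one_div, inv_mul_cancel₀ hk1.ne']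
        have : 0 < 1 / ((N : ℝ) + 1) * ((k : ℝ) - 1) := by positivity
        linarith)
      filter_upwards [h5] with β hβ _ _ _ hβ0
      exact hβ hβ0
    · exact Eventually.of_forall fun β h2 h3 h4 => absurd ⟨h2, h3, h4⟩ h
  have h2 : ∀ᵐ β : ℝ, ∀ (a : ℕ) (b : ℤ) (k N : ℕ), 2 ≤ |b| → |b| < a → 2 ≤ k → 0 < β →
      ∀ᶠ x : ℝ in atTop, ∀ S : Finset ℕ,
      (∀ p ∈ S, p.Prime ∧ (WW a b β p).Prime ∧ x < p ∧
        (p : ℝ) ≤ x + x / Real.log x ^ (1 / ((k : ℝ) - 1) + 1 / ((N : ℝ) + 1))) → S.card < k := by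
    rw [ae_all_iff]
    intro a
    rw [ae_all_iff]
    intro b
    rw [ae_all_iff]
    intro k
    rw [ae_all_iff]
    intro N
    exact h1 a b k N
  filter_upwards [h2] with β hβ hβ0 a b hb hba k hk ε hε
  obtain ⟨N, hN⟩ := exists_nat_one_div_lt hε
  filter_upwards [hβ a b k N hb hba hk hβ0, eventually_ge_atTop (3 : ℝ)] with x hx hx3 S hS
  refine hx S fun p hp => ?_
  obtain ⟨s1, s2, s3, s4⟩ := hS p hp
  refine ⟨s1, s2, s3, s4.trans ?_⟩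
  have hlogx1 : 1 ≤ Real.log x := by
    have h5 : Real.exp 1 < 2.7182818286 := Real.exp_one_lt_d9
    have h6 := Real.log_le_log (Real.exp_pos _) (by linarith : Real.exp 1 ≤ x)
    rwa [Real.log_exp] at h6
  have h3 : Real.log x ^ (1 / ((k : ℝ) - 1) + 1 / ((N : ℝ) + 1)) ≤
      Real.log x ^ (1 / ((k : ℝ) - 1) + ε) :=
    Real.rpow_le_rpow_of_exponent_le hlogx1 (by linarith)
  have h4 : 0 < Real.log x ^ (1 / ((k : ℝ) - 1) + 1 / ((N : ℝ) + 1)) :=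
    Real.rpow_pos_of_pos (by linarith) _
  have h5 : x / Real.log x ^ (1 / ((k : ℝ) - 1) + ε) ≤
      x / Real.log x ^ (1 / ((k : ℝ) - 1) + 1 / ((N : ℝ) + 1)) :=
    div_le_div_of_nonneg_left (by linarith) h4 h3
  linarith

end Pool.Agent.Zk73.LW
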