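import Mathlib
import Pool.Agent.Zk73.LW.H

set_option autoImplicit false

/-!
# Pairs of exponents: the gaps, all pairs
-/

namespace Pool.Agent.Zk73.LW

open Finset Filter Topology MeasureTheory
open Pool.Agent.N176.SH
open Pool.Agent.N176.GP (NB NB_spec NB_div)
open Pool.Agent.H305R2 (roughPart)
open Pool.Agent.N176.OW (cell kap VT)

/-- Borel-Cantelli -/
theorem bc {b : ℕ} (hb : 2 ≤ b) (Q : ℕ → ℕ → Prop) (a : ℕ → ℝ) (ha : Summable a)
    (h : ∀ m : ℕ, ∃ K : ℝ, 0 < K ∧ ∃ P : ℕ, ∀ i ≥ P, ∀ j : ℕ, 1 ≤ j → j ≤ b ^ (2 * m) →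
      ∀ C : Finset ℕ, C ⊆ cell b m (2 ^ (i + 4)) j → (∀ n ∈ C, Q i n) →
      (C.card : ℝ) ≤ K * a i * (b : ℝ) ^ (2 ^ (i + 4) - m)) :
    ∀ᵐ β : ℝ, 0 < β → ∀ᶠ i in atTop, ¬ Q i (NB b β (2 ^ (i + 4))) := by
  classical
  have hb0 : (0 : ℝ) < b := by exact_mod_cast (by omega : 0 < b)
  have hcell : ∀ m j : ℕ, 1 ≤ j → j ≤ b ^ (2 * m) →
      ∀ᵐ β : ℝ, β ∈ Cl b m j → ∀ᶠ i in atTop, ¬ Q i (NB b β (2 ^ (i + 4))) := by
    intro m j hj1 hj2
    obtain ⟨K, hK, P, hP⟩ := h m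
    have hs : Summable (fun i => K / (b : ℝ) ^ m * a i) := ha.mul_left _
    set B : ℕ → Set ℝ := fun i => {β | (P + m ≤ i ∧ β ∈ Cl b m j) ∧ Q i (NB b β (2 ^ (i + 4)))}
      with hB
    have hBm : ∀ i, volume (B i) ≤ ENNReal.ofReal (K / (b : ℝ) ^ m * a i) := by
      intro i
      by_cases hi : P + m ≤ i
      · have hsub : B i ⊆ {β : ℝ | ((j : ℝ) / (b : ℝ) ^ m < β ∧ β ≤ ((j : ℝ) + 1) / (b : ℝ) ^ m) ∧
            Q i (NB b β (2 ^ (i + 4)))} := by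
          intro β hβ
          exact ⟨hβ.1.2, hβ.2⟩
        have h2i : i < 2 ^ i := Nat.lt_two_pow_self
        have hpw : 2 ^ (i + 4) = 16 * 2 ^ i := by rw [pow_add]; ring
        have hmt : m ≤ 2 ^ (i + 4) := by omega
        have h2 := vol_cell (j := j) hb hmt (Q i)
        have hfin : volume {β : ℝ | ((j : ℝ) / (b : ℝ) ^ m < β ∧ β ≤ ((j : ℝ) + 1) / (b : ℝ) ^ m) ∧
            Q i (NB b β (2 ^ (i + 4)))} ≠ ⊤ := by
          refine ne_top_of_le_ne_top (measure_Ioc_lt_top (a := (j : ℝ) / (b : ℝ) ^ m)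
            (b := ((j : ℝ) + 1) / (b : ℝ) ^ m)).ne (measure_mono ?_)
          intro β hβ
          exact hβ.1
        refine (measure_mono hsub).trans ?_
        rw [← ENNReal.ofReal_toReal hfin]
        refine ENNReal.ofReal_le_ofReal ?_
        have h3 : (volume {β : ℝ | ((j : ℝ) / (b : ℝ) ^ m < β ∧ β ≤ ((j : ℝ) + 1) / (b : ℝ) ^ m) ∧
            Q i (NB b β (2 ^ (i + 4)))}).toReal =
            (((cell b m (2 ^ (i + 4)) j).filter (Q i)).card : ℝ) / (b : ℝ) ^ (2 ^ (i + 4)) := h2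
        rw [h3, div_le_iff₀ (by positivity)]
        have h5 := hP i (by omega) j hj1 hj2 ((cell b m (2 ^ (i + 4)) j).filter (Q i))
          (Finset.filter_subset _ _) (fun n hn => (mem_filter.1 hn).2)
        refine h5.trans (le_of_eq ?_)
        have e : (b : ℝ) ^ (2 ^ (i + 4)) = (b : ℝ) ^ m * (b : ℝ) ^ (2 ^ (i + 4) - m) := by
          rw [← pow_add, Nat.add_sub_cancel' hmt]
        rw [e]
        field_simp
      · have : B i = ∅ := by
          ext β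
          simp only [hB, Set.mem_ofPred_eq, Set.mem_empty_iff_false, iff_false]
          rintro ⟨⟨h1, _⟩, _⟩
          exact hi h1
        rw [this, measure_empty]
        exact zero_le
    have hsum : ∑' i, volume (B i) ≠ ⊤ := by
      refine ne_top_of_le_ne_top ?_ (ENNReal.tsum_le_tsum hBm)
      exact hs.tsum_ofReal_ne_top
    have h0 := measure_setOfPred_frequently_eq_zero (p := fun i β => β ∈ B i) hsum
    have h1 : ∀ᵐ β : ℝ, ¬ ∃ᶠ i in atTop, β ∈ B i := by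
      rw [ae_iff]
      simp only [not_not]
      exact h0
    filter_upwards [h1] with β hβ hcl
    rw [not_frequently] at hβ
    filter_upwards [hβ, eventually_ge_atTop (P + m)] with i hi hPi hbad
    exact hi ⟨⟨hPi, hcl⟩, hbad⟩
  have h1 : ∀ᵐ β : ℝ, ∀ m j : ℕ, 1 ≤ j → j ≤ b ^ (2 * m) → β ∈ Cl b m j →
      ∀ᶠ i in atTop, ¬ Q i (NB b β (2 ^ (i + 4))) := by
    rw [ae_all_iff]
    intro m
    rw [ae_all_iff]
    intro j
    by_cases hj : 1 ≤ j ∧ j ≤ b ^ (2 * m)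
    · filter_upwards [hcell m j hj.1 hj.2] with β hβ _ _
      exact hβ
    · exact Eventually.of_forall fun β h1 h2 => absurd ⟨h1, h2⟩ hj
  filter_upwards [h1] with β hβ hβ0
  obtain ⟨m, hm⟩ := (Fm_mem hb (isOpen_Ioi (a := (0 : ℝ))) hβ0 hβ0).exists
  unfold Fm In at hm
  simp only [Set.mem_iUnion, mem_filter, mem_Icc] at hm
  obtain ⟨j, ⟨⟨hj1, hj2⟩, _⟩, hj⟩ := hm
  exact hβ m j hj1 hj2 hj

/-- the lower end of the forbidden distances -/
noncomputable def Gc (b : ℕ) (c : ℝ) (i : ℕ) : ℕ :=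
  ⌊c * Real.log (Real.log ((2 : ℝ) ^ i)) / Real.log b⌋₊

/-- the bad event -/
def Bad2 (σ : ℕ → ℤ) (b : ℕ) (c : ℝ) (i n : ℕ) : Prop :=
  ∃ p ∈ (Ioc (2 ^ i) (2 ^ i + 3 * 2 ^ i)).filter Nat.Prime,
  ∃ q ∈ (Ioc (p + Gc b c i) (p + Hc c i)).filter Nat.Prime,
    Y σ b (2 ^ (i + 4)) p n * Y σ b (2 ^ (i + 4)) q n = 1

lemma geo_b {b G : ℕ} (hb : 2 ≤ b) {p : ℕ} {D : Finset ℕ} (hD : ∀ q ∈ D, p + G < q) :
    ∑ q ∈ D, (1 / (b : ℝ)) ^ (q - p) ≤ 2 * (1 / (b : ℝ)) ^ (G + 1) := by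
  classical
  have hbR : (2 : ℝ) ≤ b := by exact_mod_cast hb
  have h1 : ∑ q ∈ D, (1 / (b : ℝ)) ^ (q - p) =
      (1 / (b : ℝ)) ^ (G + 1) * ∑ q ∈ D, (1 / (b : ℝ)) ^ (q - p - (G + 1)) := by
    rw [Finset.mul_sum]
    refine Finset.sum_congr rfl fun q hq => ?_
    have := hD q hq
    rw [← pow_add]
    congr 1
    omega
  have h2 : ∑ q ∈ D, (1 / (b : ℝ)) ^ (q - p - (G + 1)) ≤ 2 := by
    calc ∑ q ∈ D, (1 / (b : ℝ)) ^ (q - p - (G + 1)) ≤ ∑ q ∈ D, (1 / 2 : ℝ) ^ (q - p - (G + 1)) := by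
          refine Finset.sum_le_sum fun q _ => ?_
          exact pow_le_pow_left₀ (by positivity) (one_div_le_one_div_of_le (by norm_num) hbR) _
      _ = ∑ d ∈ D.image (fun q => q - p - (G + 1)), (1 / 2 : ℝ) ^ d := by
          rw [Finset.sum_image]
          intro q hq q' hq' he
          have h3 := hD q hq
          have h4 := hD q' hq'
          simp only at he
          omega
      _ ≤ 2 * (1 / 2) ^ 0 := geoD fun d _ => Nat.zero_le d
      _ = 2 := by norm_num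
  rw [h1, mul_comm]
  exact mul_le_mul_of_nonneg_right h2 (by positivity)

/-- the number of bad integers in a cell -/
theorem bad2_count {b A : ℕ} {σ : ℕ → ℤ} (hOk : Ok b A σ) {c : ℝ} (hc : 0 < c) (m : ℕ) :
    ∃ K : ℝ, 0 < K ∧ ∃ P : ℕ,
    ∀ i ≥ P, ∀ j : ℕ, 1 ≤ j → j ≤ b ^ (2 * m) →
    ∀ C : Finset ℕ, C ⊆ cell b m (2 ^ (i + 4)) j → (∀ n ∈ C, Bad2 σ b c i n) →
      (C.card : ℝ) ≤ K * (Real.log ((2 : ℝ) ^ i)) ^ (-c) * (b : ℝ) ^ (2 ^ (i + 4) - m) := by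
  classical
  have hb := hOk.hb
  have hbR : (2 : ℝ) ≤ b := by exact_mod_cast hb
  have hlb : 0 < Real.log b := Real.log_pos (by linarith)
  obtain ⟨C1, hC1, P1, h1⟩ := pair All.e4 Pool.Agent.N897.SH.rb All.sm hOk (dg_all (A := A) (σ := σ) hb)
  obtain ⟨C2, hC2, h2⟩ := bt
  -- asymptotics
  have hl2 : 0 < Real.log 2 := Real.log_pos one_lt_two
  have hℓ : Tendsto (fun i : ℕ => Real.log ((2 : ℝ) ^ i)) atTop atTop := by
    have : (fun i : ℕ => Real.log ((2 : ℝ) ^ i)) = fun i : ℕ => (i : ℝ) * Real.log 2 := by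
      funext i
      rw [Real.log_pow]
    rw [this]
    exact (tendsto_natCast_atTop_atTop (R := ℝ)).atTop_mul_const hl2
  have ev1 := (hℓ.eventually ((isLittleO_rpow_exp_pos_mul_atTop c (by norm_num : (0 : ℝ) < 1 / 2)).bound
    (by norm_num : (0 : ℝ) < 1)))
  have ev2 := ((tendsto_rpow_atTop hc).comp hℓ).eventually_ge_atTop 8
  have ev3 := hℓ.eventually_ge_atTop 1
  obtain ⟨P5, hP5⟩ := Filter.eventually_atTop.1 (ev1.and (ev2.and ev3))
  refine ⟨(3 * C2) * (8 * C2 + 2) * C1, by positivity, P1 + P5 + A * m + 10,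
    fun i hi j hj1 hj2 C hCc hCQ => ?_⟩
  obtain ⟨g1, g2, g3⟩ := hP5 i (by omega)
  simp only [Function.comp] at g2
  obtain ⟨ℓ, hℓd⟩ : ∃ ℓ, ℓ = Real.log ((2 : ℝ) ^ i) := ⟨_, rfl⟩
  rw [← hℓd] at g1 g2 g3 ⊢
  have hℓ0 : 0 < ℓ := by linarith
  have hℓc : 0 < ℓ ^ c := Real.rpow_pos_of_pos hℓ0 c
  have hℓc' : 0 < ℓ ^ (-c) := Real.rpow_pos_of_pos hℓ0 (-c)
  have hexp : Real.exp ℓ = (2 : ℝ) ^ i := by rw [hℓd, Real.exp_log (by positivity)]
  rw [one_mul, Real.norm_eq_abs, Real.norm_eq_abs, abs_of_pos hℓc, abs_of_pos (Real.exp_pos _)] at g1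
  have h2i : (1 : ℝ) ≤ (2 : ℝ) ^ i := one_le_pow₀ (by norm_num)
  have h2i2 : (2 : ℝ) ≤ (2 : ℝ) ^ i := by
    calc (2 : ℝ) = 2 ^ 1 := (pow_one _).symm
      _ ≤ 2 ^ i := pow_le_pow_right₀ (by norm_num) (by omega)
  -- the length
  obtain ⟨H, hH⟩ : ∃ H, H = Hc c i := ⟨_, rfl⟩
  have hH1 : (2 : ℝ) ^ (i + 1) / ℓ ^ c ≤ H := by
    rw [hH, hℓd]
    exact Nat.le_ceil _
  have hlow : 2 * Real.exp (1 / 2 * ℓ) ≤ (2 : ℝ) ^ (i + 1) / ℓ ^ c := by
    rw [le_div_iff₀ hℓc, pow_succ, ← hexp]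
    have e1 : Real.exp ℓ = Real.exp (1 / 2 * ℓ) * Real.exp (1 / 2 * ℓ) := by
      rw [← Real.exp_add]
      congr 1
      ring
    rw [e1]
    have := mul_le_mul_of_nonneg_left g1 (Real.exp_pos (1 / 2 * ℓ)).le
    linarith
  have hexp1 : 1 ≤ Real.exp (1 / 2 * ℓ) := Real.one_le_exp (by linarith)
  have hH2 : (H : ℝ) ≤ 4 * (2 : ℝ) ^ i / ℓ ^ c := by
    have h3 : (H : ℝ) < (2 : ℝ) ^ (i + 1) / ℓ ^ c + 1 := by
      rw [hH]
      unfold Hc
      rw [← hℓd]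
      exact Nat.ceil_lt_add_one (by positivity)
    have h4 : (1 : ℝ) ≤ (2 : ℝ) ^ (i + 1) / ℓ ^ c := by linarith
    have h5 : 4 * (2 : ℝ) ^ i / ℓ ^ c = 2 * ((2 : ℝ) ^ (i + 1) / ℓ ^ c) := by
      rw [pow_succ]
      ring
    rw [h5]
    linarith
  have hHR : 2 * Real.exp (1 / 2 * ℓ) ≤ H := hlow.trans hH1
  have hHn : 2 ≤ H := by
    have : (2 : ℝ) ≤ H := by linarith
    exact_mod_cast this
  have hlogH : 1 / 2 * ℓ ≤ Real.log H := by
    rw [Real.le_log_iff_exp_le (by linarith)]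
    have := (Real.exp_pos (1 / 2 * ℓ)).le
    linarith
  have hHi : (H : ℝ) ≤ (2 : ℝ) ^ i / 2 := by
    refine hH2.trans ?_
    rw [div_le_iff₀ hℓc]
    nlinarith
  have hHi' : H + 1 ≤ 2 ^ i := by
    have h3 : (H : ℝ) + 1 ≤ (2 : ℝ) ^ i := by linarith
    exact_mod_cast h3
  have hc1 : (((Ioc (2 ^ i) (2 ^ i + 3 * 2 ^ i)).filter Nat.Prime).card : ℝ) ≤
      3 * C2 * (2 : ℝ) ^ i / ℓ := by
    have h3 := h2 (2 ^ i) (3 * 2 ^ i) (by
      have : 1 ≤ 2 ^ i := Nat.one_le_two_pow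
      omega)
    refine h3.trans ?_
    push_cast
    have h4 : ℓ ≤ Real.log (3 * (2 : ℝ) ^ i) := by
      rw [hℓd]
      exact Real.log_le_log (by positivity) (by linarith)
    rw [div_le_div_iff₀ (by linarith) hℓ0]
    have h5 : 0 ≤ C2 * (3 * (2 : ℝ) ^ i) := by positivity
    have h6 := mul_le_mul_of_nonneg_left h4 h5
    linarith
  have hc2 : ∀ p, (((Ioc p (p + H)).filter Nat.Prime).card : ℝ) ≤
      8 * C2 * ((2 : ℝ) ^ i / ℓ) * ℓ ^ (-c) := by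
    intro p
    refine (h2 p H hHn).trans ?_
    have h3 : C2 * (H : ℝ) / Real.log H ≤ C2 * (4 * (2 : ℝ) ^ i / ℓ ^ c) / (1 / 2 * ℓ) := by
      gcongr
    refine h3.trans (le_of_eq ?_)
    rw [Real.rpow_neg hℓ0.le]
    field_simp
    ring
  -- the lower end
  obtain ⟨G, hG⟩ : ∃ G, G = Gc b c i := ⟨_, rfl⟩
  have hGb : (1 / (b : ℝ)) ^ (G + 1) ≤ ℓ ^ (-c) := by
    have h3 : c * Real.log ℓ / Real.log b < (G : ℝ) + 1 := by
      rw [hG, hℓd]
      exact Nat.lt_floor_add_one _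
    rw [div_lt_iff₀ hlb] at h3
    rw [one_div, inv_pow, Real.rpow_neg hℓ0.le]
    refine inv_anti₀ hℓc ?_
    rw [← Real.exp_log (show (0 : ℝ) < ℓ ^ c from hℓc), ← Real.exp_log (show (0 : ℝ) < (b : ℝ) ^ (G + 1) by positivity)]
    refine Real.exp_le_exp.2 ?_
    rw [Real.log_rpow hℓ0, Real.log_pow]
    push_cast
    linarith
  -- the union bound
  obtain ⟨t, ht⟩ : ∃ t, t = 2 ^ (i + 4) := ⟨_, rfl⟩
  rw [← ht] at hCc ⊢
  have ht4 : t = 16 * 2 ^ i := by rw [ht, pow_add]; ring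
  have hi2 : i < 2 ^ i := Nat.lt_two_pow_self
  set M : ℝ := (b : ℝ) ^ (t - m) with hM
  have hM0 : 0 < M := by positivity
  set PP := (Ioc (2 ^ i) (2 ^ i + 3 * 2 ^ i)).filter Nat.Prime with hPP
  set QQ : ℕ → Finset ℕ := fun p => (Ioc (p + G) (p + H)).filter Nat.Prime with hQQ
  have hcount : (C.card : ℝ) ≤ ∑ p ∈ PP, ∑ q ∈ QQ p, ∑ n ∈ cell b m t j, Y σ b t p n * Y σ b t q n := by
    have h3 : (C.card : ℝ) ≤ ∑ n ∈ C, ∑ p ∈ PP, ∑ q ∈ QQ p, Y σ b t p n * Y σ b t q n := by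
      rw [Finset.card_eq_sum_ones]
      push_cast
      refine Finset.sum_le_sum fun n hn => ?_
      obtain ⟨p, hp, q, hq, hpq⟩ := hCQ n hn
      rw [← ht] at hpq
      rw [← hG, ← hH] at hq
      have h4 : Y σ b t p n * Y σ b t q n ≤ ∑ q ∈ QQ p, Y σ b t p n * Y σ b t q n :=
        Finset.single_le_sum (f := fun q => Y σ b t p n * Y σ b t q n)
          (fun q _ => mul_nonneg (Y_nonneg _ _ _ _ _) (Y_nonneg _ _ _ _ _)) hq
      have h5 : ∑ q ∈ QQ p, Y σ b t p n * Y σ b t q n ≤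
          ∑ p ∈ PP, ∑ q ∈ QQ p, Y σ b t p n * Y σ b t q n :=
        Finset.single_le_sum (f := fun p => ∑ q ∈ QQ p, Y σ b t p n * Y σ b t q n)
          (fun p _ => Finset.sum_nonneg fun q _ =>
            mul_nonneg (Y_nonneg _ _ _ _ _) (Y_nonneg _ _ _ _ _)) hp
      linarith
    have h4 : ∑ n ∈ C, ∑ p ∈ PP, ∑ q ∈ QQ p, Y σ b t p n * Y σ b t q n ≤
        ∑ n ∈ cell b m t j, ∑ p ∈ PP, ∑ q ∈ QQ p, Y σ b t p n * Y σ b t q n :=
      Finset.sum_le_sum_of_subset_of_nonneg hCc fun n _ _ => Finset.sum_nonneg fun p _ =>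
        Finset.sum_nonneg fun q _ => mul_nonneg (Y_nonneg _ _ _ _ _) (Y_nonneg _ _ _ _ _)
    refine (h3.trans h4).trans (le_of_eq ?_)
    rw [Finset.sum_comm]
    refine Finset.sum_congr rfl fun p _ => ?_
    rw [Finset.sum_comm]
  have hw : ∀ q : ℕ, 2 ^ i < q → Real.log q / q ≤ ℓ / (2 : ℝ) ^ i := by
    intro q hq
    rw [hℓd]
    have h5 : (2 : ℝ) ^ i ≤ (q : ℝ) := by exact_mod_cast hq.le
    have h6 : Real.exp 1 ≤ (2 : ℝ) ^ i := by
      rw [← hexp]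
      exact Real.exp_le_exp.2 g3
    exact Real.log_div_self_antitoneOn h6 (h6.trans h5) h5
  have hxi : 0 < ℓ / (2 : ℝ) ^ i := by positivity
  have hinner : ∀ p ∈ PP, ∑ q ∈ QQ p, ∑ n ∈ cell b m t j, Y σ b t p n * Y σ b t q n ≤
      C1 * (ℓ / (2 : ℝ) ^ i) * ((8 * C2 + 2) * ℓ ^ (-c)) * M := by
    intro p hp
    rw [hPP, mem_filter, mem_Ioc] at hp
    have h3 : ∀ q ∈ QQ p, ∑ n ∈ cell b m t j, Y σ b t p n * Y σ b t q n ≤
        C1 * (ℓ / (2 : ℝ) ^ i) * (ℓ / (2 : ℝ) ^ i + (1 / (b : ℝ)) ^ (q - p)) * M := by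
      intro q hq
      rw [hQQ, mem_filter, mem_Ioc] at hq
      have h4 := h1 p (by omega) hp.2 q (by omega) m (by omega) t (by omega) j hj1 hj2
      refine h4.trans (mul_le_mul_of_nonneg_right ?_ hM0.le)
      have h5 := hw p hp.1.1
      have h6 := hw q (by omega)
      have h7 := w_nonneg q
      have h8 := w_nonneg p
      have h9 : (0 : ℝ) ≤ (1 / (b : ℝ)) ^ (q - p) := by positivity
      gcongr
    refine (Finset.sum_le_sum h3).trans ?_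
    rw [← Finset.sum_mul, ← Finset.mul_sum, Finset.sum_add_distrib, Finset.sum_const, nsmul_eq_mul]
    refine mul_le_mul_of_nonneg_right (mul_le_mul_of_nonneg_left ?_ (by positivity)) hM0.le
    have h4 : ((QQ p).card : ℝ) ≤ 8 * C2 * ((2 : ℝ) ^ i / ℓ) * ℓ ^ (-c) := by
      refine le_trans ?_ (hc2 p)
      have h5 : QQ p ⊆ (Ioc p (p + H)).filter Nat.Prime := by
        refine Finset.filter_subset_filter _ ?_
        intro q hq
        rw [mem_Ioc] at hq ⊢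
        omega
      exact_mod_cast Finset.card_le_card h5
    have h5 : ((QQ p).card : ℝ) * (ℓ / (2 : ℝ) ^ i) ≤ 8 * C2 * ℓ ^ (-c) := by
      calc ((QQ p).card : ℝ) * (ℓ / (2 : ℝ) ^ i) ≤
          8 * C2 * ((2 : ℝ) ^ i / ℓ) * ℓ ^ (-c) * (ℓ / (2 : ℝ) ^ i) :=
            mul_le_mul_of_nonneg_right h4 hxi.le
        _ = _ := by field_simp
    have h6 : ∑ q ∈ QQ p, (1 / (b : ℝ)) ^ (q - p) ≤ 2 * ℓ ^ (-c) := by
      refine (geo_b (G := G) hb fun q hq => ?_).trans (mul_le_mul_of_nonneg_left hGb (by norm_num))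
      rw [hQQ, mem_filter, mem_Ioc] at hq
      exact hq.1.1
    linarith
  refine hcount.trans ((Finset.sum_le_sum hinner).trans ?_)
  rw [Finset.sum_const, nsmul_eq_mul]
  calc (PP.card : ℝ) * (C1 * (ℓ / (2 : ℝ) ^ i) * ((8 * C2 + 2) * ℓ ^ (-c)) * M) ≤
      (3 * C2 * (2 : ℝ) ^ i / ℓ) * (C1 * (ℓ / (2 : ℝ) ^ i) * ((8 * C2 + 2) * ℓ ^ (-c)) * M) :=
        mul_le_mul_of_nonneg_right hc1 (by positivity)
    _ = _ := by field_simp

/-- the gaps, one pair -/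
theorem gaps1 {a : ℕ} {b : ℤ} (hb : 1 ≤ |b|) (hba : |b| < a) {c : ℝ} (hc : 1 < c) :
    ∀ᵐ β : ℝ, 0 < β → ∀ᶠ p : ℕ in atTop, ∀ q > p, p.Prime → q.Prime → (WW a b β p).Prime →
      (WW a b β q).Prime →
      ((q : ℝ) - p ≤ c * Real.log (Real.log p) / Real.log a ∨ p / Real.log p ^ c < (q : ℝ) - p) := by
  classical
  obtain ⟨A, hOk⟩ := Pool.Agent.N372.SH.okp a b hb hba
  have ha2 : 2 ≤ a := hOk.hb
  have haR : (2 : ℝ) ≤ a := by exact_mod_cast ha2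
  have hla : 0 < Real.log a := Real.log_pos (by linarith)
  have hsum : Summable (fun i : ℕ => (Real.log ((2 : ℝ) ^ i)) ^ (-c)) := by
    have h1 := summ (k := 2) (c := c) (by norm_num; exact hc)
    simpa using h1
  have hae := bc ha2 (Bad2 (cc a b) a c) _ hsum (fun m => bad2_count hOk (by linarith) m)
  filter_upwards [hae] with β hβ hβ0
  obtain ⟨I0, hI0⟩ := Filter.eventually_atTop.1 (hβ hβ0)
  filter_upwards [eventually_ge_atTop (2 ^ (I0 + 2))] with p hp q hq hpp hqp hWp hWq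
  by_contra hcon
  rw [not_or, not_le, not_lt] at hcon
  obtain ⟨g1, g2⟩ := hcon
  have h1I : 1 ≤ 2 ^ I0 := Nat.one_le_two_pow
  have hp2 : 2 ^ (I0 + 2) = 4 * 2 ^ I0 := by rw [pow_add]; ring
  have hp4 : 4 ≤ p := by omega
  have h4x : (4 : ℝ) ≤ p := by exact_mod_cast hp4
  obtain ⟨i, hi⟩ : ∃ i, i = Nat.log 2 (p - 1) := ⟨_, rfl⟩
  have hi1 : 2 ^ i ≤ p - 1 := hi ▸ Nat.pow_log_le_self 2 (by omega)
  have hi2 : p - 1 < 2 ^ (i + 1) := hi ▸ Nat.lt_pow_succ_log_self (by norm_num) (p - 1)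
  have hi1R : (2 : ℝ) ^ i ≤ p := by
    have : ((2 ^ i : ℕ) : ℝ) ≤ p := by exact_mod_cast (by omega : 2 ^ i ≤ p)
    push_cast at this
    exact this
  have hi2R : (p : ℝ) ≤ (2 : ℝ) ^ (i + 1) := by
    have : (p : ℝ) ≤ ((2 ^ (i + 1) : ℕ) : ℝ) := by exact_mod_cast (by omega : p ≤ 2 ^ (i + 1))
    push_cast at this
    exact this
  have hiI : I0 + 1 ≤ i := by
    by_contra h
    have h1 : 2 ^ (i + 1) ≤ 2 ^ (I0 + 1) := Nat.pow_le_pow_right (by norm_num) (by omega)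
    have h2 : 2 ^ (I0 + 1) = 2 * 2 ^ I0 := by rw [pow_succ]; ring
    omega
  have hlog2 : 0 < Real.log ((2 : ℝ) ^ i) := by
    refine Real.log_pos ?_
    calc (1 : ℝ) < 2 ^ 1 := by norm_num
      _ ≤ 2 ^ i := pow_le_pow_right₀ (by norm_num) (by omega)
  have hlogx : Real.log ((2 : ℝ) ^ i) ≤ Real.log p := Real.log_le_log (by positivity) hi1R
  have hlogx1 : 1 ≤ Real.log p := by
    have h5 : Real.exp 1 < 2.7182818286 := Real.exp_one_lt_d9
    have h6 := Real.log_le_log (Real.exp_pos _) (by linarith : Real.exp 1 ≤ p)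
    rwa [Real.log_exp] at h6
  have hlen : p / Real.log p ^ c ≤ Hc c i := by
    calc p / Real.log p ^ c ≤ (2 : ℝ) ^ (i + 1) / Real.log ((2 : ℝ) ^ i) ^ c := by
          have h1 : Real.log ((2 : ℝ) ^ i) ^ c ≤ Real.log p ^ c :=
            Real.rpow_le_rpow hlog2.le hlogx (by linarith)
          have h2 : 0 < Real.log ((2 : ℝ) ^ i) ^ c := Real.rpow_pos_of_pos hlog2 c
          gcongr
      _ ≤ Hc c i := Nat.le_ceil _
  have hlen2 : p / Real.log p ^ c ≤ (p : ℝ) := by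
    rw [div_le_iff₀ (Real.rpow_pos_of_pos (by linarith) c)]
    have : 1 ≤ Real.log p ^ c := Real.one_le_rpow hlogx1 (by linarith)
    nlinarith
  have hqH : q ≤ p + Hc c i := by
    have : (q : ℝ) ≤ ((p + Hc c i : ℕ) : ℝ) := by
      push_cast
      linarith
    exact_mod_cast this
  have hq2p : q ≤ 2 * p := by
    have : (q : ℝ) ≤ ((2 * p : ℕ) : ℝ) := by
      push_cast
      linarith
    exact_mod_cast this
  have hqG : p + Gc a c i < q := by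
    have h1 : ((Gc a c i : ℕ) : ℝ) < (q : ℝ) - p := by
      refine lt_of_le_of_lt ?_ g1
      rcases le_or_gt 0 (c * Real.log (Real.log ((2 : ℝ) ^ i)) / Real.log a) with h2 | h2
      · refine (Nat.floor_le h2).trans ?_
        have h3 : Real.log (Real.log ((2 : ℝ) ^ i)) ≤ Real.log (Real.log p) :=
          Real.log_le_log hlog2 hlogx
        have hc0 : 0 < c := by linarith
        gcongr
      · have h3 : Gc a c i = 0 := Nat.floor_of_nonpos h2.le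
        rw [h3, Nat.cast_zero]
        have := Real.log_nonneg hlogx1
        have hc0 : 0 < c := by linarith
        positivity
    have h2 : ((p + Gc a c i : ℕ) : ℝ) < q := by
      push_cast
      linarith
    exact_mod_cast h2
  have hpw : 2 ^ (i + 4) = 16 * 2 ^ i := by rw [pow_add]; ring
  have hpw1 : 2 ^ (i + 1) = 2 * 2 ^ i := by rw [pow_succ]; ring
  have hY : ∀ r : ℕ, r.Prime → 3 ≤ r → r ≤ 2 ^ (i + 4) → (WW a b β r).Prime →
      Y (cc a b) a (2 ^ (i + 4)) r (NB a β (2 ^ (i + 4))) = 1 := by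
    intro r hr hr3 hrt hW
    unfold Y y
    rw [NB_div ha2 hβ0 hrt, WW_eq ha2 hb hβ0 (Or.inl (hr.odd_of_ne_two (by omega))), if_pos hW]
  refine hI0 i (by omega) ⟨p, ?_, q, ?_, ?_⟩
  · rw [mem_filter, mem_Ioc]
    exact ⟨⟨by omega, by omega⟩, hpp⟩
  · rw [mem_filter, mem_Ioc]
    exact ⟨⟨hqG, hqH⟩, hqp⟩
  · rw [hY p hpp (by omega) (by omega) hWp, hY q hqp (by omega) (by omega) hWq, mul_one]

/-- the gaps, all pairs -/
theorem gaps : ∀ᵐ β : ℝ, 0 < β → ∀ (a : ℕ) (b : ℤ), 1 ≤ |b| → |b| < a → ∀ ε : ℝ, 0 < ε →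
    ∀ᶠ p : ℕ in atTop, ∀ q > p, p.Prime → q.Prime → (WW a b β p).Prime → (WW a b β q).Prime →
      ((q : ℝ) - p ≤ (1 + ε) * Real.log (Real.log p) / Real.log a ∨
        p / Real.log p ^ (1 + ε) < (q : ℝ) - p) := by
  have h2 : ∀ᵐ β : ℝ, ∀ (a : ℕ) (b : ℤ) (N : ℕ), 1 ≤ |b| → |b| < a → 0 < β →
      ∀ᶠ p : ℕ in atTop, ∀ q > p, p.Prime → q.Prime → (WW a b β p).Prime → (WW a b β q).Prime →
      ((q : ℝ) - p ≤ (1 + 1 / ((N : ℝ) + 1)) * Real.log (Real.log p) / Real.log a ∨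
        p / Real.log p ^ (1 + 1 / ((N : ℝ) + 1)) < (q : ℝ) - p) := by
    rw [ae_all_iff]
    intro a
    rw [ae_all_iff]
    intro b
    rw [ae_all_iff]
    intro N
    by_cases h : 1 ≤ |b| ∧ |b| < a
    · have hN : (0 : ℝ) < 1 / ((N : ℝ) + 1) := by positivity
      filter_upwards [gaps1 h.1 h.2 (c := 1 + 1 / ((N : ℝ) + 1)) (by linarith)] with β hβ _ _ hβ0
      exact hβ hβ0
    · exact Eventually.of_forall fun β h2 h3 => absurd ⟨h2, h3⟩ h
  filter_upwards [h2] with β hβ hβ0 a b hb hba ε hε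
  obtain ⟨N, hN⟩ := exists_nat_one_div_lt hε
  have ha2 : 2 ≤ a := by
    have h1 : (1 : ℤ) < a := lt_of_le_of_lt hb hba
    omega
  have haR : (2 : ℝ) ≤ a := by exact_mod_cast ha2
  have hla : 0 < Real.log a := Real.log_pos (by linarith)
  filter_upwards [hβ a b N hb hba hβ0, eventually_ge_atTop 3] with p hp hp3 q hq h3 h4 h5 h6
  have hlogx1 : 1 ≤ Real.log p := by
    have h5 : Real.exp 1 < 2.7182818286 := Real.exp_one_lt_d9
    have h7 : (3 : ℝ) ≤ p := by exact_mod_cast hp3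
    have h6 := Real.log_le_log (Real.exp_pos _) (by linarith : Real.exp 1 ≤ p)
    rwa [Real.log_exp] at h6
  have hll := Real.log_nonneg hlogx1
  rcases hp q hq h3 h4 h5 h6 with h7 | h7
  · refine Or.inl (h7.trans ?_)
    gcongr
  · refine Or.inr (lt_of_le_of_lt ?_ h7)
    have h8 : Real.log p ^ (1 + 1 / ((N : ℝ) + 1)) ≤ Real.log p ^ (1 + ε) :=
      Real.rpow_le_rpow_of_exponent_le hlogx1 (by linarith)
    have h9 : 0 < Real.log p ^ (1 + 1 / ((N : ℝ) + 1)) := Real.rpow_pos_of_pos (by linarith) _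
    exact div_le_div_of_nonneg_left (Nat.cast_nonneg p) h9 h8

end Pool.Agent.Zk73.LW
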